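import Pool.Agent.H923R2.FP.Stubs

set_option autoImplicit false

open Filter Topology
open Pool.Agent.H923R2.FP

noncomputable section

namespace Pool.Agent.H923R2.FP.T_LIM

variable {A Q R : Type} [CStarAlgebra A]

theorem tend_ev {θn : ℕ → Lt Q R → A} {θ : Lt Q R → A}
    (h : ∀ z, Tendsto (fun n => θn n z) atTop (𝓝 (θ z))) (w : List (Lt Q R)) :
    Tendsto (fun n => ev (θn n) w) atTop (𝓝 (ev θ w)) := by
  induction w with
  | nil => simp
  | cons z w ih =>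
    simp only [ev_cons]
    exact (h z).mul ih

theorem tend_evx {θn : ℕ → Lt Q R → A} {θ : Lt Q R → A}
    (h : ∀ z, Tendsto (fun n => θn n z) atTop (𝓝 (θ z))) (e : Ex Q R) :
    Tendsto (fun n => evx (θn n) e) atTop (𝓝 (evx θ e)) := by
  induction e with
  | nil => simp
  | cons p e ih =>
    simp only [evx_cons]
    exact ((tend_ev h p.2).const_smul p.1).add ih

/-- closeness of letter values -/
def Cl (ε : ℝ) (θ θ' : Lt Q R → A) : Prop := ∀ z, ‖θ' z - θ z‖ ≤ ε * (1 + ‖θ z‖)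

theorem Cl.mono {ε ε' : ℝ} (h : ε ≤ ε') {θ θ' : Lt Q R → A} (hc : Cl ε θ θ') : Cl ε' θ θ' :=
  fun z => (hc z).trans (mul_le_mul_of_nonneg_right h (by positivity))

theorem eps_evx (θ : Lt Q R → A) (e : Ex Q R) (δ : ℝ) (hδ : 0 < δ) :
    ∃ ε : ℝ, 0 < ε ∧ ∀ θ' : Lt Q R → A, Cl ε θ θ' → ‖evx θ' e - evx θ e‖ ≤ δ := by
  by_contra hcon
  push Not at hcon
  choose θn hn hn' using fun n : ℕ => hcon (1 / ((n : ℝ) + 1)) (by positivity)
  have ht : ∀ z, Tendsto (fun n => θn n z) atTop (𝓝 (θ z)) := by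
    intro z
    rw [tendsto_iff_norm_sub_tendsto_zero]
    have h0 : Tendsto (fun n : ℕ => 1 / ((n : ℝ) + 1) * (1 + ‖θ z‖)) atTop (𝓝 0) := by
      have := (tendsto_one_div_add_atTop_nhds_zero_nat (𝕜 := ℝ)).mul_const (1 + ‖θ z‖)
      simpa using this
    exact squeeze_zero (fun n => norm_nonneg _) (fun n => hn n z) h0
  have h1 := tend_evx ht e
  rw [tendsto_iff_norm_sub_tendsto_zero] at h1
  have h2 := (h1.eventually (gt_mem_nhds hδ)).exists
  obtain ⟨n, hn2⟩ := h2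
  exact absurd hn2 (not_lt.2 (hn' n).le)

theorem eps_list (θ : Lt Q R → A) (L : List (Ex Q R)) (δ : ℝ) (hδ : 0 < δ) :
    ∃ ε : ℝ, 0 < ε ∧ ∀ θ' : Lt Q R → A, Cl ε θ θ' → ∀ e ∈ L, ‖evx θ' e - evx θ e‖ ≤ δ := by
  induction L with
  | nil => exact ⟨1, one_pos, fun _ _ e he => by simp at he⟩
  | cons e L ih =>
    obtain ⟨ε1, h1, h1'⟩ := ih
    obtain ⟨ε2, h2, h2'⟩ := eps_evx θ e δ hδ
    refine ⟨min ε1 ε2, lt_min h1 h2, ?_⟩
    intro θ' hθ e' he'
    rcases List.mem_cons.1 he' with rfl | he'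
    · exact h2' θ' (hθ.mono (min_le_right _ _))
    · exact h1' θ' (hθ.mono (min_le_left _ _)) e' he'

/-- substitute a word for the letter `s` -/
def sub (w : List (Lt Q R)) : Lt Q R → List (Lt Q R)
  | .s => w
  | z => [z]

def subx (w : List (Lt Q R)) (e : Ex Q R) : Ex Q R := e.map fun p => (p.1, p.2.flatMap (sub w))

theorem ev_sub (π : Q → A) (ρ : R → A) (w v : List (Lt Q R)) :
    ev (vl π ρ 0) (v.flatMap (sub w)) = ev (vl π ρ (ev (vl π ρ 0) w)) v := by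
  induction v with
  | nil => simp
  | cons z v ih =>
    rw [List.flatMap_cons, ev_append, ih, ev_cons]
    congr 1
    cases z <;> simp [sub]

theorem evx_sub (π : Q → A) (ρ : R → A) (w : List (Lt Q R)) (e : Ex Q R) :
    evx (vl π ρ 0) (subx w e) = evx (vl π ρ (ev (vl π ρ 0) w)) e := by
  induction e with
  | nil => simp [subx]
  | cons p e ih =>
    have : subx w (p :: e) = (p.1, p.2.flatMap (sub w)) :: subx w e := rfl
    rw [this, evx_cons, evx_cons, ih, ev_sub]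

/-- expression without the letter `s` -/
def NS (e : Ex Q R) : Prop := ∀ p ∈ e, ∀ z ∈ p.2, z.isS = false

theorem ns_sub (w : List (Lt Q R)) (hw : ∀ z ∈ w, z.isS = false) (e : Ex Q R) :
    NS (subx w e) := by
  intro p hp z hz
  unfold subx at hp
  rw [List.mem_map] at hp
  obtain ⟨p', -, rfl⟩ := hp
  simp only [List.mem_flatMap] at hz
  obtain ⟨z', -, hz'⟩ := hz
  cases z' with
  | s => exact hw z hz'
  | q x => simp [sub] at hz'; rw [hz']; rfl
  | r x => simp [sub] at hz'; rw [hz']; rfl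

theorem evx_noS (π : Q → A) (ρ : R → A) (s s' : A) (e : Ex Q R) (h : NS e) :
    evx (vl π ρ s) e = evx (vl π ρ s') e := by
  induction e with
  | nil => simp
  | cons p e ih =>
    rw [evx_cons, evx_cons, ih fun p' hp' => h p' (List.mem_cons_of_mem _ hp')]
    congr 2
    have := h p (by simp)
    clear h ih
    revert this
    generalize p.2 = v
    intro hv
    induction v with
    | nil => rfl
    | cons z v ih =>
      rw [ev_cons, ev_cons, ih fun x hx => hv x (List.mem_cons_of_mem _ hx)]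
      congr 1
      have := hv z (by simp)
      cases z with
      | q x => rfl
      | r x => rfl
      | s => simp [Lt.isS] at this

variable [Ring Q] [StarRing Q] [Algebra ℂ Q] [Ring R] [StarRing R] [Algebra ℂ R]

/-- good systems -/
def GS (τ : A →ₗ[ℂ] ℂ) (π : Q →⋆ₐ[ℂ] A) (ρ : R →⋆ₐ[ℂ] A) (s : A) (π' : Q →⋆ₐ[ℂ] A) (s' : A) :
    Prop := Law τ (vl π ρ s) (vl π' ρ s') ∧ star s' = s' ∧ Gen π' ρ s'

theorem step (τ : A →ₗ[ℂ] ℂ) (π : Q →⋆ₐ[ℂ] A) (ρ : R →⋆ₐ[ℂ] A) (s : A)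
    (hst : ∀ (π' : Q →⋆ₐ[ℂ] A) (s' : A), Law τ (vl π ρ s) (vl π' ρ s') → star s' = s' →
      Gen π' ρ s' → Stg τ π' ρ s')
    (π' : Q →⋆ₐ[ℂ] A) (s' : A) (hg : GS τ π ρ s π' s') (L : List (Ex Q R)) (hL : ∀ f ∈ L, NS f)
    (Y : List A) (δ : ℝ) (hδ : 0 < δ) :
    ∃ (π'' : Q →⋆ₐ[ℂ] A) (s'' : A) (L' : List (Ex Q R)), GS τ π ρ s π'' s'' ∧
      (∀ f ∈ L', NS f) ∧ (∀ x, ‖π'' x - π' x‖ ≤ δ * ‖π' x‖) ∧
      (∀ f ∈ L, ‖evx (vl π'' ρ 0) f - evx (vl π' ρ 0) f‖ ≤ δ) ∧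
      (∀ y ∈ Y, ∃ f ∈ L', ‖y - evx (vl π'' ρ 0) f‖ ≤ δ) := by
  obtain ⟨hlaw, hsa, hgen⟩ := hg
  choose g hgen' using fun y : A => hgen y (δ / 2) (half_pos hδ)
  obtain ⟨ε, hε, hE⟩ := eps_list (vl π' ρ s') (Y.map g ++ L) (δ / 2) (half_pos hδ)
  obtain ⟨π'', s'', h1, h2, h3, h4, w, hw, hws⟩ :=
    hst π' s' hlaw hsa hgen (min ε δ) (lt_min hε hδ)
  have hw0 : ev (vl π'' ρ s'') w = ev (vl π'' ρ 0) w := ev_noS _ _ _ _ w hw
  rw [hw0] at hws
  have hcl : Cl ε (vl π' ρ s') (vl π'' ρ (ev (vl π'' ρ 0) w)) := by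
    intro z
    cases z with
    | q x =>
      simp only [vl_q]
      refine (h4 x).trans ?_
      have : min ε δ * ‖π' x‖ ≤ ε * ‖π' x‖ :=
        mul_le_mul_of_nonneg_right (min_le_left _ _) (norm_nonneg _)
      nlinarith
    | r x =>
      simp only [vl_r, sub_self, norm_zero]
      positivity
    | s =>
      simp only [vl_s]
      refine (hws.trans (min_le_left _ _)).trans ?_
      have : 0 ≤ ‖s'‖ := norm_nonneg _
      nlinarith
  have hE' := hE _ hcl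
  refine ⟨π'', s'', Y.map fun y => subx w (g y), ⟨?_, h2, h3⟩, ?_, ?_, ?_, ?_⟩
  · intro v
    rw [h1 v, hlaw v]
  · intro f hf
    rw [List.mem_map] at hf
    obtain ⟨y, -, rfl⟩ := hf
    exact ns_sub w hw _
  · intro x
    exact (h4 x).trans (mul_le_mul_of_nonneg_right (min_le_right _ _) (norm_nonneg _))
  · intro f hf
    have := hE' f (List.mem_append_right _ hf)
    rw [evx_noS _ _ _ 0 f (hL f hf), evx_noS _ _ s' 0 f (hL f hf)] at this
    linarith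
  · intro y hy
    refine ⟨subx w (g y), List.mem_map.2 ⟨y, hy, rfl⟩, ?_⟩
    have h5 := hE' (g y) (List.mem_append_left _ (List.mem_map.2 ⟨y, hy, rfl⟩))
    rw [← evx_sub] at h5
    have h6 := hgen' y
    calc ‖y - evx (vl π'' ρ 0) (subx w (g y))‖
        = ‖(y - evx (vl π' ρ s') (g y)) -
            (evx (vl π'' ρ 0) (subx w (g y)) - evx (vl π' ρ s') (g y))‖ := by congr 1; abel
      _ ≤ ‖y - evx (vl π' ρ s') (g y)‖ +
            ‖evx (vl π'' ρ 0) (subx w (g y)) - evx (vl π' ρ s') (g y)‖ := norm_sub_le _ _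
      _ ≤ δ := by linarith

/-- states -/
structure St (τ : A →ₗ[ℂ] ℂ) (π : Q →⋆ₐ[ℂ] A) (ρ : R →⋆ₐ[ℂ] A) (s : A) where
  p : Q →⋆ₐ[ℂ] A
  t : A
  L : List (Ex Q R)
  good : GS τ π ρ s p t
  ns : ∀ f ∈ L, NS f

theorem seq [TopologicalSpace.SeparableSpace A] (τ : A →ₗ[ℂ] ℂ) (π : Q →⋆ₐ[ℂ] A)
    (ρ : R →⋆ₐ[ℂ] A) (s : A) (h0 : GS τ π ρ s π s)
    (hst : ∀ (π' : Q →⋆ₐ[ℂ] A) (s' : A), Law τ (vl π ρ s) (vl π' ρ s') → star s' = s' →
      Gen π' ρ s' → Stg τ π' ρ s') (y : ℕ → A) :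
    ∃ X : ℕ → St τ π ρ s, (X 0).p = π ∧
      (∀ n x, ‖(X (n + 1)).p x - (X n).p x‖ ≤ (1 / 2) ^ n * ‖(X n).p x‖) ∧
      (∀ n, ∀ f ∈ (X n).L, ‖evx (vl (X (n + 1)).p ρ 0) f - evx (vl (X n).p ρ 0) f‖ ≤
        (1 / 2) ^ n) ∧
      (∀ n, ∀ f ∈ (X n).L, f ∈ (X (n + 1)).L) ∧
      (∀ n, ∀ j ≤ n, ∃ f ∈ (X (n + 1)).L, ‖y j - evx (vl (X (n + 1)).p ρ 0) f‖ ≤ (1 / 2) ^ n) := by
  have hstep : ∀ (n : ℕ) (S : St τ π ρ s), ∃ S' : St τ π ρ s,
      (∀ x, ‖S'.p x - S.p x‖ ≤ (1 / 2) ^ n * ‖S.p x‖) ∧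
      (∀ f ∈ S.L, ‖evx (vl S'.p ρ 0) f - evx (vl S.p ρ 0) f‖ ≤ (1 / 2) ^ n) ∧
      (∀ f ∈ S.L, f ∈ S'.L) ∧
      (∀ j ≤ n, ∃ f ∈ S'.L, ‖y j - evx (vl S'.p ρ 0) f‖ ≤ (1 / 2) ^ n) := by
    intro n S
    obtain ⟨π'', s'', L', h1, h2, h3, h4, h5⟩ := step τ π ρ s hst S.p S.t S.good S.L S.ns
      ((List.range (n + 1)).map y) ((1 / 2) ^ n) (by positivity)
    refine ⟨⟨π'', s'', S.L ++ L', h1, ?_⟩, h3, h4, ?_, ?_⟩
    · intro f hf
      rcases List.mem_append.1 hf with hf | hf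
      · exact S.ns f hf
      · exact h2 f hf
    · intro f hf
      exact List.mem_append_left _ hf
    · intro j hj
      obtain ⟨f, hf, hf'⟩ := h5 (y j) (List.mem_map.2 ⟨j, List.mem_range.2 (by omega), rfl⟩)
      exact ⟨f, List.mem_append_right _ hf, hf'⟩
  choose nx hnx1 hnx2 hnx3 hnx4 using hstep
  let X : ℕ → St τ π ρ s := fun n =>
    Nat.rec (⟨π, s, [], h0, by simp⟩ : St τ π ρ s) (fun n S => nx n S) n
  have hX : ∀ n, X (n + 1) = nx n (X n) := fun n => rfl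
  refine ⟨X, rfl, ?_, ?_, ?_, ?_⟩
  · intro n x
    rw [hX]
    exact hnx1 n (X n) x
  · intro n
    rw [hX]
    exact hnx2 n (X n)
  · intro n
    rw [hX]
    exact hnx3 n (X n)
  · intro n
    rw [hX]
    exact hnx4 n (X n)

end Pool.Agent.H923R2.FP.T_LIM

open Pool.Agent.H923R2.FP.T_LIM

theorem Pool.Agent.H923R2.FP.T_LIM.t_LIM : S_LIM := by
  intro A Q R _ _ _ _ _ _ _ _ τ π ρ s hτ hs hgen hst
  have h0 : GS τ π ρ s π s := ⟨fun w => rfl, hs, hgen⟩
  obtain ⟨y, hy⟩ := TopologicalSpace.exists_dense_seq A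
  obtain ⟨X, hX0, hX1, hX2, hX3, hX4⟩ := seq τ π ρ s h0 hst y
  -- norm bounds
  have hb : ∀ n x, ‖(X n).p x‖ ≤ Real.exp (2 - 2 * (1 / 2) ^ n) * ‖π x‖ := by
    intro n x
    induction n with
    | zero => rw [hX0]; simp
    | succ n ih =>
      have h1 : ‖(X (n + 1)).p x‖ ≤ (1 + (1 / 2) ^ n) * ‖(X n).p x‖ := by
        have h2 := hX1 n x
        have h3 : ‖(X (n + 1)).p x‖ ≤ ‖(X (n + 1)).p x - (X n).p x‖ + ‖(X n).p x‖ := by
          have := norm_add_le ((X (n + 1)).p x - (X n).p x) ((X n).p x)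
          rwa [sub_add_cancel] at this
        linarith
      have h4 : (1 + (1 / 2 : ℝ) ^ n) ≤ Real.exp ((1 / 2) ^ n) := by
        have := Real.add_one_le_exp ((1 / 2 : ℝ) ^ n)
        linarith
      have h5 : Real.exp (2 - 2 * (1 / 2 : ℝ) ^ (n + 1)) =
          Real.exp ((1 / 2) ^ n) * Real.exp (2 - 2 * (1 / 2) ^ n) := by
        rw [← Real.exp_add]
        congr 1
        rw [pow_succ]
        ring
      rw [h5, mul_assoc]
      exact h1.trans (mul_le_mul h4 ih (norm_nonneg _) (Real.exp_pos _).le)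
  have hb2 : ∀ n x, ‖(X n).p x‖ ≤ Real.exp 2 * ‖π x‖ := by
    intro n x
    refine (hb n x).trans (mul_le_mul_of_nonneg_right (Real.exp_le_exp.2 ?_) (norm_nonneg _))
    have : (0 : ℝ) ≤ 2 * (1 / 2) ^ n := by positivity
    linarith
  have hlim : ∀ x, ∃ a, Tendsto (fun n => (X n).p x) atTop (𝓝 a) := by
    intro x
    apply cauchySeq_tendsto_of_complete
    apply cauchySeq_of_le_geometric (1 / 2) (Real.exp 2 * ‖π x‖) (by norm_num)
    intro n
    rw [dist_comm, dist_eq_norm]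
    refine (hX1 n x).trans ?_
    rw [mul_comm]
    exact mul_le_mul_of_nonneg_right (hb2 n x) (by positivity)
  choose σ0 hσ0 using hlim
  let σ : Q →⋆ₐ[ℂ] A :=
    { toFun := σ0
      map_one' := tendsto_nhds_unique (hσ0 1) (by simp)
      map_mul' := fun a b => tendsto_nhds_unique (hσ0 (a * b)) (by
        simp only [map_mul]
        exact (hσ0 a).mul (hσ0 b))
      map_zero' := tendsto_nhds_unique (hσ0 0) (by simp)
      map_add' := fun a b => tendsto_nhds_unique (hσ0 (a + b)) (by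
        simp only [map_add]
        exact (hσ0 a).add (hσ0 b))
      commutes' := fun c => tendsto_nhds_unique (hσ0 (algebraMap ℂ Q c)) (by
        simp only [AlgHomClass.commutes]
        exact tendsto_const_nhds)
      map_star' := fun a => tendsto_nhds_unique (hσ0 (star a)) (by
        simp only [map_star]
        exact (hσ0 a).star) }
  have hσ : ∀ x, Tendsto (fun n => (X n).p x) atTop (𝓝 (σ x)) := hσ0
  have hvl : ∀ z : Lt Q R, Tendsto (fun n => vl (X n).p ρ 0 z) atTop (𝓝 (vl σ ρ 0 z)) := by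
    intro z
    cases z with
    | q x => exact hσ x
    | r x => exact tendsto_const_nhds
    | s => exact tendsto_const_nhds
  have hcont : Continuous τ := by
    have : Continuous (τ.mkContinuous 1 (fun x => by rw [one_mul]; exact hτ.bound x)) :=
      ContinuousLinearMap.continuous _
    exact this
  refine ⟨σ, ?_, ?_⟩
  · intro w hw
    have h1 : Tendsto (fun n => τ (ev (vl (X n).p ρ 0) w)) atTop (𝓝 (τ (ev (vl σ ρ 0) w))) :=
      (hcont.tendsto _).comp (tend_ev hvl w)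
    have h2 : ∀ n, τ (ev (vl (X n).p ρ 0) w) = τ (ev (vl π ρ 0) w) := by
      intro n
      rw [ev_noS _ _ 0 (X n).t w hw, (X n).good.1 w, ev_noS _ _ s 0 w hw]
    simp only [h2] at h1
    exact tendsto_nhds_unique h1 tendsto_const_nhds |>.symm ▸ rfl
  · intro a ε hε
    obtain ⟨j, hj⟩ : ∃ j, ‖a - y j‖ < ε / 2 := by
      obtain ⟨j, hb⟩ := hy.exists_dist_lt a (half_pos hε)
      exact ⟨j, by rwa [dist_eq_norm] at hb⟩
    obtain ⟨N, hN⟩ : ∃ N : ℕ, (1 / 2 : ℝ) ^ N < ε / 4 :=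
      exists_pow_lt_of_lt_one (by positivity) (by norm_num)
    let n := max N j
    have hn : (1 / 2 : ℝ) ^ n < ε / 4 :=
      (pow_le_pow_of_le_one (by norm_num) (by norm_num) (le_max_left _ _)).trans_lt hN
    obtain ⟨f, hf, hfy⟩ := hX4 n j (le_max_right _ _)
    have hmem : ∀ k, f ∈ (X (n + 1 + k)).L := by
      intro k
      induction k with
      | zero => exact hf
      | succ k ih => exact hX3 _ f ih
    refine ⟨f, (X (n + 1)).ns f hf, ?_⟩
    have hg : ∀ k, dist (evx (vl (X (n + 1 + k)).p ρ 0) f) (evx (vl (X (n + 1 + (k + 1))).p ρ 0) f) ≤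
        (1 / 2) ^ (n + 1) * (1 / 2) ^ k := by
      intro k
      rw [dist_comm, dist_eq_norm, ← pow_add]
      exact hX2 _ f (hmem k)
    have ht : Tendsto (fun k => evx (vl (X (n + 1 + k)).p ρ 0) f) atTop (𝓝 (evx (vl σ ρ 0) f)) := by
      have := tend_evx hvl f
      have h2 := this.comp (tendsto_add_atTop_nat (n + 1))
      refine h2.congr fun k => ?_
      simp only [Function.comp]
      rw [add_comm]
    have h3 := dist_le_of_le_geometric_of_tendsto₀ (1 / 2) ((1 / 2) ^ (n + 1)) (by norm_num) hg ht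
    rw [add_zero, dist_eq_norm] at h3
    have h4 : (1 / 2 : ℝ) ^ (n + 1) / (1 - 1 / 2) = (1 / 2) ^ n := by
      rw [pow_succ]; ring
    rw [h4] at h3
    calc ‖a - evx (vl σ ρ 0) f‖
        = ‖(a - y j) + (y j - evx (vl (X (n + 1)).p ρ 0) f) +
          (evx (vl (X (n + 1)).p ρ 0) f - evx (vl σ ρ 0) f)‖ := by congr 1; abel
      _ ≤ ‖a - y j‖ + ‖y j - evx (vl (X (n + 1)).p ρ 0) f‖ +
          ‖evx (vl (X (n + 1)).p ρ 0) f - evx (vl σ ρ 0) f‖ := norm_add₃_le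
      _ < ε := by linarith
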