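import Pool.Agent.H553R2.RZ2_C6a
import Pool.Agent.H60R2.RZ2_C2

set_option autoImplicit false

/-! Task C6 of project RZ: the smoothed approximate functional equation. -/

namespace Pool.Agent.H553R2.RZ2_C6

open Finset Filter Topology MeasureTheory
open Pool.Agent.H306R2.RZ

noncomputable section

theorem C6 (d : ℕ) (hd : Odd d) (hs : Squarefree d) (δ : ℝ) (hδ : 0 < δ) (ρ : ℝ → ℝ)
    (hρ : RH δ ρ) (L : ℝ) (hL : 0 < L) (x : ℝ) (hx : 0 ≤ x) :
    Nf L (KW L (be L d) (Ph ρ x)) d = Kd L d x * LLd d (1 / 2 + x / L) :=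
  Pool.Agent.H553R2.RZ2_C6a.C6_of d hd.pos (fun y hy => Pool.Agent.H60R2.RZC2.C2 d hd hs y hy)
    δ ρ hρ L hL x hx

end

end Pool.Agent.H553R2.RZ2_C6
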