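import Pool.Agent.H553R2.Tree

/-!
# The asymptotic form of the lower bound
-/

namespace H553R2

open Equiv Filter Topology

theorem exp_beats (c A : ℕ) : ∃ k0 : ℕ, ∀ k, k0 ≤ k → A * (k + 1) ^ c < 2 ^ k := by
  have h := tendsto_pow_const_div_const_pow_of_one_lt c (r := 2) (by norm_num)
  have h1 : ∀ᶠ n : ℕ in atTop, (n : ℝ) ^ c / 2 ^ n < 1 / (2 * A + 2) :=
    h.eventually (gt_mem_nhds (by positivity))
  obtain ⟨N, hN⟩ := eventually_atTop.1 h1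
  refine ⟨N, fun k hk => ?_⟩
  have h2 := hN (k + 1) (by omega)
  rw [div_lt_div_iff₀ (by positivity) (by positivity)] at h2
  have h3 : ((k + 1 : ℕ) : ℝ) ^ c * (2 * A + 2) < 2 ^ (k + 1) := by linarith
  have h4 : (k + 1) ^ c * (2 * A + 2) < 2 ^ (k + 1) := by exact_mod_cast h3
  rw [pow_succ] at h4
  nlinarith [Nat.zero_le ((k + 1) ^ c)]

theorem tree_asymptotic (c d : ℕ) : ∃ m0 : ℕ, ∀ m, m0 ≤ m → ∀ (M Λ Q : Type) (_ : Fintype Q)
    (_ : MulAction (Perm (Fin (2 ^ (m + 1)))) Q) (C : SymCircuit (2 ^ (m + 1)) M Λ Q) (s t : M),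
    s ≠ t → C.level C.out ≤ d → Fintype.card Q ≤ 2 ^ m ^ c →
    ¬ ∀ R, C.val R C.out ↔ DerivableIn R (Sum.inr s) m (Sum.inr t) := by
  obtain ⟨k0, hk0⟩ := exp_beats c (4 * (d + 4) ^ c)
  obtain ⟨k1, hk1⟩ := exp_beats (4 * c) (10 ^ 8)
  refine ⟨(d + 1) * (k0 + 1) + 3 + k1 + 1, fun m hm M Λ Q _ _ C s t hst hd hcard hC => ?_⟩
  obtain ⟨k, hk⟩ : ∃ k, k = (m - 3) / (d + 1) := ⟨_, rfl⟩
  have h1 : (d + 1) * k ≤ m - 3 := by rw [hk]; exact Nat.mul_div_le _ _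
  have h2 : m - 3 < (d + 1) * (k + 1) := by
    rw [hk]; exact Nat.lt_mul_div_succ _ (by omega)
  have hmk : m ≤ (d + 4) * (k + 1) := by
    have : (d + 4) * (k + 1) = (d + 1) * (k + 1) + 3 * (k + 1) := by ring
    omega
  have hkk : k0 ≤ k := by
    by_contra hcon
    have : (d + 1) * (k + 1) ≤ (d + 1) * (k0 + 1) := Nat.mul_le_mul_left _ (by omega)
    omega
  have h3 := hk0 k hkk
  have hm1 : 1 ≤ m := by omega
  have hmc : 1 ≤ m ^ c := Nat.one_le_pow _ _ hm1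
  have h4 : m ^ c ≤ (d + 4) ^ c * (k + 1) ^ c := by
    rw [← mul_pow]; exact Nat.pow_le_pow_left hmk c
  have h5 : 2 * m ^ c + 1 < 2 ^ k := by
    have : 4 * (d + 4) ^ c * (k + 1) ^ c = 4 * ((d + 4) ^ c * (k + 1) ^ c) := by ring
    omega
  have h6 : 10 ^ 8 * (m ^ c) ^ 4 ≤ 2 ^ (m + 1) := by
    have h7 := hk1 m (by omega)
    have h8 : (m ^ c) ^ 4 ≤ (m + 1) ^ (4 * c) := by
      rw [← pow_mul, mul_comm 4 c]
      exact Nat.pow_le_pow_left (by omega) _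
    have h9 : 2 ^ m ≤ 2 ^ (m + 1) := Nat.pow_le_pow_right (by norm_num) (by omega)
    have h10 : 10 ^ 8 * (m ^ c) ^ 4 ≤ 10 ^ 8 * (m + 1) ^ (4 * c) := Nat.mul_le_mul_left _ h8
    omega
  have h := tree_lower (n := 2 ^ (m + 1)) (a := m ^ c) (k := k) (r := m) C hst hmc h5 (by omega)
    h6 le_rfl hd hC
  have h11 : 2 ^ m ^ c ≤ (2 ^ (m + 1)) ^ m ^ c := by
    rw [← pow_mul]
    exact Nat.pow_le_pow_right (by norm_num) (Nat.le_mul_of_pos_left _ (by omega))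
  omega

end H553R2
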