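import Pool.Agent.H553R2.GLower
import Pool.Agent.H553R2.TreeCor

/-!
# The asymptotic form of the depth hierarchy
-/

namespace H553R2

open Equiv

theorem game_asymptotic (r c : ℕ) : ∃ m0 : ℕ, ∀ m, m0 ≤ m → ∀ (M Λ Q : Type) (_ : Fintype Q)
    (_ : MulAction (Perm (Fin (2 ^ m))) Q) (C : GraphCircuit (2 ^ m) M Λ Q) (s : M),
    C.level C.out + 2 ≤ r → Fintype.card Q ≤ 2 ^ m ^ c →
    ¬ ∀ E, C.val E C.out ↔ Wins E r (Sum.inr s) := by
  obtain ⟨k1, hk1⟩ := exp_beats (c * (6 * (r - 1))) ((30 * r) ^ (6 * (r - 1)))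
  refine ⟨k1 + 1, fun m hm M Λ Q _ _ C s hd hcard hC => ?_⟩
  have hr : 2 ≤ r := by omega
  have hm1 : 1 ≤ m := by omega
  have hmc : 1 ≤ m ^ c := Nat.one_le_pow _ _ hm1
  have h := game_lower (n := 2 ^ m) (a := m ^ c) C s hmc hr (by
    have h1 := hk1 m (by omega)
    calc (10 * r * (2 * m ^ c + 1)) ^ (6 * (r - 1))
        ≤ (30 * r * (m + 1) ^ c) ^ (6 * (r - 1)) := by
          apply Nat.pow_le_pow_left
          have h2 : m ^ c ≤ (m + 1) ^ c := Nat.pow_le_pow_left (by omega) c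
          calc 10 * r * (2 * m ^ c + 1) ≤ 10 * r * (3 * (m + 1) ^ c) :=
                Nat.mul_le_mul_left _ (by omega)
            _ = 30 * r * (m + 1) ^ c := by ring
      _ = (30 * r) ^ (6 * (r - 1)) * (m + 1) ^ (c * (6 * (r - 1))) := by
          rw [mul_pow, ← pow_mul]
      _ ≤ 2 ^ m := h1.le) hd hC
  have h11 : 2 ^ m ^ c ≤ (2 ^ m) ^ m ^ c := by
    rw [← pow_mul]
    exact Nat.pow_le_pow_right (by norm_num) (Nat.le_mul_of_pos_left _ (by omega))
  omega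

end H553R2
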