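import Pool.Agent.H553R2.Upper

/-!
# Games of few moves on directed graphs, and circuits invariant under relabelling
-/

namespace H553R2

open Equiv

/-- A directed graph on the elements; `E x y` says that there is an arc from `x` to `y`. -/
abbrev Digr (n : ℕ) (M : Type*) := Elt n M → Elt n M → Prop

/-- The game with at most `r` moves: the players alternately move along arcs, a player who cannot
move, or who has to move after `r` moves have been made, loses.  `Wins E r x` says that the player
who has to move at `x` wins. -/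
def Wins {n : ℕ} {M : Type*} (E : Digr n M) : ℕ → Elt n M → Prop
  | 0, _ => False
  | r + 1, x => ∃ y, E x y ∧ ¬ Wins E r y

/-- A circuit reading a directed graph, with gates `Q`, all of whose parts are invariant under the
permutations of the interchangeable elements.  An input gate (`input q = some (x, y)`) reads
whether `E x y`.  Every other gate reads, for each label `l`, the number of true gates `q'` among
those joined to it by a wire `wire q q' = some l`, and outputs an arbitrary function `gate q` of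
these numbers. -/
structure GraphCircuit (n : ℕ) (M Λ Q : Type*) [MulAction (Perm (Fin n)) Q] where
  level : Q → ℕ
  input : Q → Option (Elt n M × Elt n M)
  wire : Q → Q → Option Λ
  gate : Q → (Λ → ℕ) → Prop
  out : Q
  level_lt : ∀ q q' l, wire q q' = some l → level q' < level q
  input_inv : ∀ (π : Perm (Fin n)) q,
    input (π • q) = (input q).map fun t => (ren π t.1, ren π t.2)
  wire_inv : ∀ (π : Perm (Fin n)) q q', wire (π • q) (π • q') = wire q q'
  gate_inv : ∀ (π : Perm (Fin n)) q, gate (π • q) = gate q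
  out_inv : ∀ π : Perm (Fin n), π • out = out

/-- The value of the gate `q` on the directed graph `E`. -/
def GraphCircuit.val {n : ℕ} {M Λ Q : Type*} [MulAction (Perm (Fin n)) Q]
    (C : GraphCircuit n M Λ Q) (E : Digr n M) (q : Q) : Prop :=
  match C.input q with
  | some t => E t.1 t.2
  | none => C.gate q fun l =>
      Nat.card {q' : {q' : Q // C.wire q q' = some l} // C.val E q'.1}
termination_by C.level q
decreasing_by exact C.level_lt _ _ _ q'.2

/-- The circuit has only conjunctions and disjunctions (of arbitrary fan-in) besides its input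
gates; a wire with label `false` carries the negation of the value. -/
def GraphCircuit.IsAndOr {n : ℕ} {M Q : Type*} [MulAction (Perm (Fin n)) Q]
    (C : GraphCircuit n M Bool Q) : Prop :=
  ∀ q, C.input q = none →
    (∀ E, C.val E q ↔ ∀ q' l, C.wire q q' = some l → (C.val E q' ↔ l = true)) ∨
    (∀ E, C.val E q ↔ ∃ q' l, C.wire q q' = some l ∧ (C.val E q' ↔ l = true))

section upper

variable {n : ℕ} {M : Type*}

/-- the gates: inputs, positions of the game, moves -/
inductive WG (n : ℕ) (M : Type*) (N : ℕ)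
  | inp (x y : Elt n M) : WG n M N
  | pos (i : Fin (N + 1)) (x : Elt n M) : WG n M N
  | mov (i : Fin N) (x y : Elt n M) : WG n M N

/-- the gates as a sum -/
def wgEquiv (n : ℕ) (M : Type*) (N : ℕ) : WG n M N ≃
    ((Elt n M × Elt n M) ⊕ (Fin (N + 1) × Elt n M)) ⊕ (Fin N × Elt n M × Elt n M) where
  toFun q := match q with
    | .inp x y => Sum.inl (Sum.inl (x, y))
    | .pos i x => Sum.inl (Sum.inr (i, x))
    | .mov i x y => Sum.inr (i, x, y)
  invFun q := match q with
    | Sum.inl (Sum.inl (x, y)) => .inp x y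
    | Sum.inl (Sum.inr (i, x)) => .pos i x
    | Sum.inr (i, x, y) => .mov i x y
  left_inv q := by cases q <;> rfl
  right_inv q := by rcases q with (⟨x, y⟩ | ⟨i, x⟩) | ⟨i, x, y⟩ <;> rfl

noncomputable instance [Fintype M] (N : ℕ) : Fintype (WG n M N) :=
  Fintype.ofEquiv _ (wgEquiv n M N).symm

theorem card_WG [Fintype M] (N : ℕ) : Fintype.card (WG n M N) =
    (n + Fintype.card M) ^ 2 + (N + 1) * (n + Fintype.card M) + N * (n + Fintype.card M) ^ 2 := by
  rw [Fintype.card_congr (wgEquiv n M N)]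
  simp only [Fintype.card_sum, Fintype.card_prod, Fintype.card_fin]
  ring

instance (N : ℕ) : MulAction (Perm (Fin n)) (WG n M N) where
  smul π q := match q with
    | .inp x y => .inp (ren π x) (ren π y)
    | .pos i x => .pos i (ren π x)
    | .mov i x y => .mov i (ren π x) (ren π y)
  one_smul q := by
    cases q
    · show WG.inp _ _ = _; rw [ren_one, ren_one]
    · show WG.pos _ _ = _; rw [ren_one]
    · show WG.mov _ _ _ = _; rw [ren_one, ren_one]
  mul_smul π σ q := by
    cases q
    · show WG.inp _ _ = WG.inp _ _; rw [ren_mul, ren_mul]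
    · show WG.pos _ _ = WG.pos _ _; rw [ren_mul]
    · show WG.mov _ _ _ = WG.mov _ _ _; rw [ren_mul, ren_mul]

/-- the wires with their signs -/
def GWr {N : ℕ} : WG n M N → WG n M N → Bool → Prop
  | .mov _ x y, .inp x' y', l => x' = x ∧ y' = y ∧ l = true
  | .mov i _ y, .pos j u, l => j.val = i.val ∧ u = y ∧ l = false
  | .pos i x, .mov j x' _, l => i.val = j.val + 1 ∧ x' = x ∧ l = true
  | _, _, _ => False

theorem GWr_unique {N : ℕ} : ∀ (q q' : WG n M N) (l l' : Bool), GWr q q' l → GWr q q' l' →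
    l = l' := by
  rintro (⟨x, y⟩ | ⟨i, x⟩ | ⟨i, x, y⟩) (⟨x', y'⟩ | ⟨i', x'⟩ | ⟨i', x', y'⟩) l l' h h' <;>
    simp only [GWr] at h h'
  · rw [h.2.2, h'.2.2]
  · rw [h.2.2, h'.2.2]
  · rw [h.2.2, h'.2.2]

/-- the levels -/
def wlevel {N : ℕ} : WG n M N → ℕ
  | .inp _ _ => 0
  | .pos i _ => 2 * i.val
  | .mov i _ _ => 2 * i.val + 1

theorem wlevel_lt {N : ℕ} : ∀ (q q' : WG n M N) l, GWr q q' l → wlevel q' < wlevel q := by
  rintro (⟨x, y⟩ | ⟨i, x⟩ | ⟨i, x, y⟩) (⟨x', y'⟩ | ⟨i', x'⟩ | ⟨i', x', y'⟩) l h <;>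
    simp only [GWr, wlevel] at h ⊢ <;> omega

theorem GWr_smul {N : ℕ} (π : Perm (Fin n)) : ∀ (q q' : WG n M N) l,
    GWr (π • q) (π • q') l ↔ GWr q q' l := by
  rintro (⟨x, y⟩ | ⟨i, x⟩ | ⟨i, x, y⟩) (⟨x', y'⟩ | ⟨i', x'⟩ | ⟨i', x', y'⟩) l
  · exact Iff.rfl
  · exact Iff.rfl
  · exact Iff.rfl
  · exact Iff.rfl
  · exact Iff.rfl
  · show (i.val = i'.val + 1 ∧ ren π x' = ren π x ∧ l = true) ↔ _
    rw [ren_inj]; rfl
  · show (ren π x' = ren π x ∧ ren π y' = ren π y ∧ l = true) ↔ _
    rw [ren_inj, ren_inj]; rfl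
  · show (i'.val = i.val ∧ ren π x' = ren π y ∧ l = false) ↔ _
    rw [ren_inj]; rfl
  · exact Iff.rfl

open Classical in
/-- The gate functions: AND with signs, OR. -/
noncomputable def wgate {N : ℕ} (q : WG n M N) (f : Bool → ℕ) : Prop :=
  match q with
  | .inp _ _ => True
  | .pos _ _ => 0 < f true
  | .mov _ _ _ => f true = 1 ∧ f false = 0

open Classical in
/-- the wire function -/
noncomputable def gwire {N : ℕ} (q q' : WG n M N) : Option Bool :=
  if GWr q q' true then some true else if GWr q q' false then some false else none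

theorem gwire_eq {N : ℕ} (q q' : WG n M N) (l : Bool) : gwire q q' = some l ↔ GWr q q' l := by
  classical
  unfold gwire
  constructor
  · intro h
    split_ifs at h with h1 h2
    · cases l
      · exact absurd h (by simp)
      · exact h1
    · cases l
      · exact h2
      · exact absurd h (by simp)
  · intro h
    cases l
    · have : ¬ GWr q q' true := fun h' => by simpa using GWr_unique _ _ _ _ h h'
      rw [if_neg this, if_pos h]
    · rw [if_pos h]

theorem gwire_smul {N : ℕ} (π : Perm (Fin n)) (q q' : WG n M N) :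
    gwire (π • q) (π • q') = gwire q q' := by
  apply Option.ext
  intro l
  show gwire (π • q) (π • q') = some l ↔ gwire q q' = some l
  rw [gwire_eq, gwire_eq, GWr_smul]

/-- the circuit -/
noncomputable def gameC (s : M) (N : ℕ) : GraphCircuit n M Bool (WG n M N) where
  level := wlevel
  input q := match q with
    | .inp x y => some (x, y)
    | _ => none
  wire := gwire
  gate := wgate
  out := .pos (Fin.last N) (Sum.inr s)
  level_lt q q' l h := wlevel_lt q q' l ((gwire_eq q q' l).1 h)
  input_inv π q := by cases q <;> rfl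
  wire_inv π q q' := gwire_smul π q q'
  gate_inv π q := by cases q <;> rfl
  out_inv π := rfl

theorem gwire_eq' {N : ℕ} (s : M) (q q' : WG n M N) (l : Bool) :
    (gameC s N).wire q q' = some l ↔ GWr q q' l := gwire_eq q q' l

theorem game_inp (E : Digr n M) (s : M) {N : ℕ} (x y : Elt n M) :
    (gameC s N).val E (.inp x y) ↔ E x y := by
  rw [GraphCircuit.val]; exact Iff.rfl

theorem game_mov [Finite M] (E : Digr n M) (s : M) {N : ℕ} (i : Fin N) (x y : Elt n M) :
    (gameC s N).val E (.mov i x y) ↔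
      (E x y ∧ ¬ (gameC s N).val E (.pos ⟨i.val, by omega⟩ y)) := by
  classical
  haveI : Fintype M := Fintype.ofFinite M
  rw [GraphCircuit.val]
  show (Nat.card {q' : {q' : WG n M N // (gameC s N).wire (.mov i x y) q' = some true} //
      (gameC s N).val E q'.1} = 1 ∧
    Nat.card {q' : {q' : WG n M N // (gameC s N).wire (.mov i x y) q' = some false} //
      (gameC s N).val E q'.1} = 0) ↔ _
  have h1 : ∀ q' : {q' : WG n M N // (gameC s N).wire (.mov i x y) q' = some true},
      q'.1 = .inp x y := by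
    rintro ⟨q', hq'⟩
    rw [gwire_eq'] at hq'
    rcases q' with ⟨x', y'⟩ | ⟨i', x'⟩ | ⟨i', x', y'⟩
    · obtain ⟨rfl, rfl, -⟩ := hq'; rfl
    · exact absurd hq'.2.2 (by simp)
    · exact hq'.elim
  have h2 : ∀ q' : {q' : WG n M N // (gameC s N).wire (.mov i x y) q' = some false},
      q'.1 = .pos ⟨i.val, by omega⟩ y := by
    rintro ⟨q', hq'⟩
    rw [gwire_eq'] at hq'
    rcases q' with ⟨x', y'⟩ | ⟨i', x'⟩ | ⟨i', x', y'⟩
    · exact absurd hq'.2.2 (by simp)
    · obtain ⟨hi', rfl, -⟩ := hq'
      show WG.pos i' x' = _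
      congr 1
      exact Fin.ext hi'
    · exact hq'.elim
  have h3 : Nat.card {q' : {q' : WG n M N // (gameC s N).wire (.mov i x y) q' = some true} //
      (gameC s N).val E q'.1} = 1 ↔ E x y := by
    constructor
    · intro h
      obtain ⟨⟨q', hq'⟩⟩ := (Nat.card_eq_one_iff_unique.1 h).2
      rw [h1 q'] at hq'
      exact (game_inp E s x y).1 hq'
    · intro h
      rw [Nat.card_eq_one_iff_unique]
      refine ⟨⟨fun a b => ?_⟩, ⟨⟨⟨.inp x y, (gwire_eq' s _ _ _).2 ⟨rfl, rfl, rfl⟩⟩,
        (game_inp E s x y).2 h⟩⟩⟩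
      apply Subtype.ext
      apply Subtype.ext
      rw [h1 a.1, h1 b.1]
  have h4 : Nat.card {q' : {q' : WG n M N // (gameC s N).wire (.mov i x y) q' = some false} //
      (gameC s N).val E q'.1} = 0 ↔ ¬ (gameC s N).val E (.pos ⟨i.val, by omega⟩ y) := by
    rw [Finite.card_eq_zero_iff]
    constructor
    · intro h hv
      exact h.false ⟨⟨.pos ⟨i.val, by omega⟩ y, (gwire_eq' s _ _ _).2 ⟨rfl, rfl, rfl⟩⟩, hv⟩
    · intro h
      constructor
      rintro ⟨q', hq'⟩
      rw [h2 q'] at hq'
      exact h hq'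
  rw [h3, h4]

theorem game_pos [Finite M] (E : Digr n M) (s : M) {N : ℕ} (i : Fin N) (x : Elt n M) :
    (gameC s N).val E (.pos ⟨i.val + 1, by omega⟩ x) ↔
      ∃ y, (gameC s N).val E (.mov i x y) := by
  classical
  haveI : Fintype M := Fintype.ofFinite M
  rw [GraphCircuit.val]
  show 0 < Nat.card {q' : {q' : WG n M N // (gameC s N).wire (.pos ⟨i.val + 1, by omega⟩ x) q'
      = some true} // (gameC s N).val E q'.1} ↔ _
  rw [Finite.card_pos_iff]
  constructor
  · rintro ⟨⟨⟨q', hq'⟩, hv⟩⟩
    rw [gwire_eq'] at hq'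
    rcases q' with ⟨x', y'⟩ | ⟨i', x'⟩ | ⟨i', x', y'⟩
    · exact hq'.elim
    · exact hq'.elim
    · obtain ⟨hi', rfl, -⟩ := hq'
      have : i' = i := Fin.ext (Nat.succ.inj hi').symm
      subst this
      exact ⟨y', hv⟩
  · rintro ⟨y, hy⟩
    exact ⟨⟨⟨.mov i x y, (gwire_eq' s _ _ _).2 ⟨rfl, rfl, rfl⟩⟩, hy⟩⟩

theorem game_val [Finite M] (E : Digr n M) (s : M) {N : ℕ} :
    ∀ (i : ℕ) (hi : i < N + 1) (x : Elt n M),
      (gameC s N).val E (.pos ⟨i, hi⟩ x) ↔ Wins E i x := by
  classical
  haveI : Fintype M := Fintype.ofFinite M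
  intro i
  induction i with
  | zero =>
    intro hi x
    rw [GraphCircuit.val]
    show 0 < Nat.card {q' : {q' : WG n M N // (gameC s N).wire (.pos ⟨0, hi⟩ x) q'
      = some true} // (gameC s N).val E q'.1} ↔ False
    rw [Finite.card_pos_iff, iff_false]
    rintro ⟨⟨⟨q', hq'⟩, hv⟩⟩
    rw [gwire_eq'] at hq'
    rcases q' with ⟨x', y'⟩ | ⟨i', x'⟩ | ⟨i', x', y'⟩
    · exact hq'.elim
    · exact hq'.elim
    · exact absurd hq'.1 (by show ¬ (0 = i'.val + 1); omega)
  | succ i ih =>
    intro hi x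
    rw [game_pos E s ⟨i, by omega⟩ x]
    show _ ↔ ∃ y, E x y ∧ ¬ Wins E i y
    apply exists_congr
    intro y
    rw [game_mov, ih (by omega) y]

theorem game_isAndOr [Finite M] (s : M) (N : ℕ) : (gameC (n := n) s N).IsAndOr := by
  classical
  haveI : Fintype M := Fintype.ofFinite M
  intro q hq
  rcases q with ⟨x, y⟩ | ⟨i, x⟩ | ⟨i, x, y⟩
  · exact absurd hq (by simp [gameC])
  · right
    intro E
    rw [GraphCircuit.val]
    show 0 < Nat.card {q' : {q' : WG n M N // (gameC s N).wire (.pos i x) q' = some true} //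
      (gameC s N).val E q'.1} ↔ _
    rw [Finite.card_pos_iff]
    constructor
    · rintro ⟨⟨⟨q', hq'⟩, hv⟩⟩
      exact ⟨q', true, hq', by simpa using hv⟩
    · rintro ⟨q', l, hw, hv⟩
      have hl : l = true := by
        have := (gwire_eq' s _ _ _).1 hw
        rcases q' with ⟨x', y'⟩ | ⟨i', x'⟩ | ⟨i', x', y'⟩
        · exact this.elim
        · exact this.elim
        · exact this.2.2
      subst hl
      exact ⟨⟨⟨q', hw⟩, by simpa using hv⟩⟩
  · left
    intro E
    rw [game_mov]
    constructor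
    · rintro ⟨h1, h2⟩ q' l hw
      have := (gwire_eq' s _ _ _).1 hw
      rcases q' with ⟨x', y'⟩ | ⟨i', x'⟩ | ⟨i', x', y'⟩
      · obtain ⟨rfl, rfl, rfl⟩ := this
        simpa using (game_inp E s _ _).2 h1
      · obtain ⟨hi, rfl, rfl⟩ := this
        have : i' = ⟨i.val, by omega⟩ := Fin.ext hi
        rw [this]
        simpa using h2
      · exact this.elim
    · intro h
      refine ⟨?_, ?_⟩
      · have := h (.inp x y) true ((gwire_eq' s _ _ _).2 ⟨rfl, rfl, rfl⟩)
        rw [game_inp] at this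
        exact this.2 rfl
      · have := h (.pos ⟨i.val, by omega⟩ y) false ((gwire_eq' s _ _ _).2 ⟨rfl, rfl, rfl⟩)
        intro h'
        exact absurd (this.1 h') (by simp)

/-- **Upper bound.** -/
theorem game_upper.{u} (n r : ℕ) (M : Type u) [Fintype M] (s : M) :
    ∃ (Q : Type u) (_ : Fintype Q) (_ : MulAction (Perm (Fin n)) Q) (C : GraphCircuit n M Bool Q),
      Fintype.card Q ≤ 2 * (r + 1) * (n + Fintype.card M) ^ 2 ∧ C.level C.out ≤ 2 * r ∧
      C.IsAndOr ∧ ∀ E, C.val E C.out ↔ Wins E r (Sum.inr s) := by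
  refine ⟨WG n M r, inferInstance, inferInstance, gameC s r, ?_, ?_, game_isAndOr s r, ?_⟩
  · rw [card_WG]
    have hpos : 0 < Fintype.card M := Fintype.card_pos_iff.2 ⟨s⟩
    obtain ⟨N, hN⟩ : ∃ N, N = n + Fintype.card M := ⟨_, rfl⟩
    rw [← hN]
    have h1 : 1 ≤ N := by omega
    have h2 : N ≤ N ^ 2 := Nat.le_self_pow (by norm_num) N
    nlinarith [Nat.mul_le_mul_left r h2]
  · show 2 * (Fin.last r).val ≤ _
    simp
  · intro E
    exact game_val E s r (by omega) (Sum.inr s)

end upper

end H553R2
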