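import Pool.Agent.H553R2.Reach

/-!
# The lower bound for circuits with counting and reachability gates
-/

namespace H553R2

open Equiv

section

variable {p : ℕ} [Fact p.Prime]

theorem good_anti {w stp h j j' : ℕ} (hj : j ≤ j') {S S' : Finset (Pos h)} (hS : S ⊆ S')
    {F : Pos h → ZMod p} (hG : Good p w stp h j' S' F) : Good p w stp h j S F := by
  obtain ⟨l, L, h1, h2, h3⟩ := hG
  refine ⟨l, L, ?_, h2, fun x hx => h3 x (hS hx)⟩
  have := Nat.mul_le_mul_right stp hj
  omega

variable {h n : ℕ} {M Λ Q : Type*} [Fintype Q] [MulAction (Perm (Fin n)) Q]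

theorem core_reach (C : ReachCircuit n M Λ Q) (e : (Pos h × ZMod p) ↪ Fin n) {w stp s r K : ℕ}
    (hr : 4 * s ≤ r) (hw : r ^ 2 ≤ w) (hw0 : 0 < w) (hstp : (r + 1) * w ≤ stp) (hp : 2 * h < p)
    (hK : Fintype.card Q ≤ 2 ^ K)
    (s0 t0 : M) (ps : Q → Finset (Pos h)) (hps : ∀ q, (ps q).card ≤ s)
    (hinv : ∀ q F, ps (sh e F • q) = ps q)
    (hfix : ∀ q F, (∀ x ∈ ps q, F x = 0) → sh e F • q = q) :
    ∀ (j : ℕ) (q : Q) (F : Pos h → ZMod p), C.level q ≤ j →
      Good p w stp h ((K + 3) * (j + 1)) (ps q) F →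
      (C.val (Gs e s0 t0 0) q ↔ C.val (Gs e s0 t0 1) (sh e F • q)) := by
  classical
  have hagree : ∀ q (F F' : Pos h → ZMod p), (∀ x ∈ ps q, F' x = F x) →
      sh e F' • q = sh e F • q := by
    intro q F F' hF
    have h1 : F' = F + (F' - F) := by abel
    rw [h1, sh_add, mul_smul, hfix q (F' - F)]
    intro x hx
    rw [Pi.sub_apply, hF x hx, sub_self]
  -- a bijection of the gates given by a choice of shifts
  have hbij : ∀ ext : Finset (Pos h) → Pos h → ZMod p,
      Function.Bijective fun c : Q => sh e (ext (ps c)) • c := by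
    intro ext
    rw [← Finite.injective_iff_bijective]
    intro c c' hcc
    have h1 : ps c = ps c' := by
      rw [← hinv c (ext (ps c)), ← hinv c' (ext (ps c'))]
      exact congrArg ps hcc
    have h2 : sh e (ext (ps c)) • c = sh e (ext (ps c)) • c' := by
      have : sh e (ext (ps c)) • c = sh e (ext (ps c')) • c' := hcc
      rw [this, h1]
    exact MulAction.injective _ h2
  intro j
  induction j using Nat.strong_induction_on with
  | _ j ih =>
  intro q F hj hG
  rcases hin : C.input q with _ | ⟨u, v, z⟩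
  · have hin' : C.input (sh e F • q) = none := by rw [C.input_inv, hin]; rfl
    have hmul : (K + 3) * (j + 1) = (K + 3) * j + K + 3 := by ring
    by_cases hreach : C.isReach q
    · -- a reachability gate
      have hreach' : C.isReach (sh e F • q) := (C.isReach_inv _ _).2 hreach
      set E0 : Q → Q → Prop := fun u v =>
        ∃ g : {g : Q // C.arc q u v = some g}, C.val (Gs e s0 t0 0) g.1 with hE0
      set E1 : Q → Q → Prop := fun u v =>
        ∃ g : {g : Q // C.arc (sh e F • q) u v = some g}, C.val (Gs e s0 t0 1) g.1 with hE1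
      -- one arc
      have harc : ∀ (u v : Q) (F' : Pos h → ZMod p), sh e F' • q = sh e F • q →
          Good p w stp h ((K + 3) * j + 1) (ps q ∪ ps u ∪ ps v) F' →
          (E0 u v ↔ E1 (sh e F' • u) (sh e F' • v)) := by
        intro u v F' hq hG'
        have hcard : (ps q ∪ ps u ∪ ps v).card ≤ r := by
          have h1 := Finset.card_union_le (ps q ∪ ps u) (ps v)
          have h2 := Finset.card_union_le (ps q) (ps u)
          have := hps q; have := hps u; have := hps v
          omega
        have hkey : ∀ g, C.arc q u v = some g →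
            (C.val (Gs e s0 t0 0) g ↔ C.val (Gs e s0 t0 1) (sh e F' • g)) := by
          intro g hg
          have hlt := C.level_arc _ _ _ _ hg
          obtain ⟨F'', h1, h2⟩ := good_step (S' := ps g) hw hstp hp hG' hcard
            ((hps g).trans (by omega))
          have h3 : sh e F'' • g = sh e F' • g := by
            have h4 : F'' = F' + (F'' - F') := by abel
            have h5 : ∀ y, ps y ⊆ ps q ∪ ps u ∪ ps v → sh e (F'' - F') • y = y := by
              intro y hy
              apply hfix
              intro x hx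
              rw [Pi.sub_apply, h1 x (hy hx), sub_self]
            have h6 := C.arc_inv (sh e (F'' - F')) q u v
            rw [h5 q (fun x hx => by simp [hx]), h5 u (fun x hx => by simp [hx]),
              h5 v (fun x hx => by simp [hx]), hg] at h6
            have h7 : g = sh e (F'' - F') • g := Option.some.inj h6
            rw [h4, sh_add, mul_smul, ← h7]
          rw [← h3]
          have h8 : j - 1 + 1 = j := by omega
          exact ih (j - 1) (by omega) g F'' (by omega) (by rw [h8]; exact h2)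
        have harc' : C.arc (sh e F • q) (sh e F' • u) (sh e F' • v)
            = (C.arc q u v).map fun g => sh e F' • g := by
          rw [← hq, C.arc_inv]
        constructor
        · rintro ⟨⟨g, hg⟩, hval⟩
          exact ⟨⟨sh e F' • g, by rw [harc', hg]; rfl⟩, (hkey g hg).1 hval⟩
        · rintro ⟨⟨g', hg'⟩, hval⟩
          rw [harc'] at hg'
          rcases hg : C.arc q u v with _ | g
          · rw [hg] at hg'; exact absurd hg' (by simp)
          · rw [hg] at hg'
            have h1 : sh e F' • g = g' := Option.some.inj hg'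
            refine ⟨⟨g, hg⟩, (hkey g hg).2 ?_⟩
            rw [h1]; exact hval
      -- many arcs
      have hdbl : ∀ (k : ℕ) (u v : Q) (F' : Pos h → ZMod p), sh e F' • q = sh e F • q →
          Good p w stp h ((K + 3) * j + 1 + k) (ps q ∪ ps u ∪ ps v) F' →
          (Dbl E0 k u v ↔ Dbl E1 k (sh e F' • u) (sh e F' • v)) := by
        intro k
        induction k with
        | zero =>
          intro u v F' hq hG'
          show (u = v ∨ E0 u v) ↔ (sh e F' • u = sh e F' • v ∨ E1 (sh e F' • u) (sh e F' • v))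
          rw [harc u v F' hq hG', (MulAction.injective (sh e F')).eq_iff]
        | succ k ihk =>
          intro u v F' hq hG'
          have hcard : (ps q ∪ ps u ∪ ps v).card ≤ 3 * s := by
            have h1 := Finset.card_union_le (ps q ∪ ps u) (ps v)
            have h2 := Finset.card_union_le (ps q) (ps u)
            have := hps q; have := hps u; have := hps v
            omega
          have hstep : ∀ S' : Finset (Pos h), S'.card ≤ s → ∃ F'' : Pos h → ZMod p,
              (∀ x ∈ ps q ∪ ps u ∪ ps v, F'' x = F' x) ∧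
              Good p w stp h ((K + 3) * j + 1 + k) (ps q ∪ ps u ∪ ps v ∪ S') F'' := by
            intro S' hS'
            refine good_step hw hstp hp hG' (by omega) ?_
            have := Finset.card_union_le (ps q ∪ ps u ∪ ps v) S'
            omega
          choose! ext hext1 hext2 using hstep
          have hφ := hbij ext
          have hfq : ∀ m, sh e (ext (ps m)) • q = sh e F' • q := fun m =>
            hagree _ _ _ fun x hx => hext1 _ (hps m) x (by simp [hx])
          have hfu : ∀ m, sh e (ext (ps m)) • u = sh e F' • u := fun m =>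
            hagree _ _ _ fun x hx => hext1 _ (hps m) x (by simp [hx])
          have hfv : ∀ m, sh e (ext (ps m)) • v = sh e F' • v := fun m =>
            hagree _ _ _ fun x hx => hext1 _ (hps m) x (by simp [hx])
          have h1 : ∀ m, Dbl E0 k u m ↔ Dbl E1 k (sh e F' • u) (sh e (ext (ps m)) • m) := by
            intro m
            rw [← hfu m]
            refine ihk u m _ ((hfq m).trans hq) (good_anti le_rfl ?_ (hext2 _ (hps m)))
            intro x hx
            simp only [Finset.mem_union] at hx ⊢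
            tauto
          have h2 : ∀ m, Dbl E0 k m v ↔ Dbl E1 k (sh e (ext (ps m)) • m) (sh e F' • v) := by
            intro m
            rw [← hfv m]
            refine ihk m v _ ((hfq m).trans hq) (good_anti le_rfl ?_ (hext2 _ (hps m)))
            intro x hx
            simp only [Finset.mem_union] at hx ⊢
            tauto
          show (∃ m, Dbl E0 k u m ∧ Dbl E0 k m v) ↔
            ∃ m, Dbl E1 k (sh e F' • u) m ∧ Dbl E1 k m (sh e F' • v)
          constructor
          · rintro ⟨m, hm1, hm2⟩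
            exact ⟨_, (h1 m).1 hm1, (h2 m).1 hm2⟩
          · rintro ⟨m', hm1, hm2⟩
            obtain ⟨m, rfl⟩ := hφ.2 m'
            exact ⟨m, (h1 m).2 hm1, (h2 m).2 hm2⟩
      -- conclusion
      obtain ⟨F0, hF1, hF2⟩ := good_step (j := (K + 3) * j + K + 2)
        (S' := ps q ∪ ps (C.src q) ∪ ps (C.tgt q)) hw hstp hp (by rw [hmul] at hG; exact hG)
        ((hps q).trans (by omega)) (by
          have h1 := Finset.card_union_le (ps q ∪ ps (C.src q)) (ps (C.tgt q))
          have h2 := Finset.card_union_le (ps q) (ps (C.src q))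
          have := hps q; have := hps (C.src q); have := hps (C.tgt q)
          omega)
      have hq0 : sh e F0 • q = sh e F • q := hagree _ _ _ hF1
      have hmain := hdbl K (C.src q) (C.tgt q) F0 hq0 (good_anti (by omega) (subset_refl _) hF2)
      rw [← C.src_inv, ← C.tgt_inv, hq0, ← dbl_reach E0 hK, ← dbl_reach E1 hK] at hmain
      rw [ReachCircuit.val, ReachCircuit.val, hin, hin']
      simp only [hreach, hreach', true_and, not_true_eq_false, false_and, or_false]
      exact hmain
    · -- a counting gate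
      have hreach' : ¬ C.isReach (sh e F • q) := fun h => hreach ((C.isReach_inv _ _).1 h)
      have hstep : ∀ S' : Finset (Pos h), S'.card ≤ s → ∃ F' : Pos h → ZMod p,
          (∀ x ∈ ps q, F' x = F x) ∧ Good p w stp h ((K + 3) * j + K + 2) S' F' :=
        fun S' hS' => good_step hw hstp hp (by rw [hmul] at hG; exact hG)
          ((hps q).trans (by omega)) (hS'.trans (by omega))
      choose! ext hext1 hext2 using hstep
      have hφb := hbij ext
      let Φ : Q ≃ Q := Equiv.ofBijective _ hφb
      have hwire : ∀ c, C.wire (sh e F • q) (Φ c) = C.wire q c := by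
        intro c
        have h1 : sh e (ext (ps c)) • q = sh e F • q := hagree q F _ (hext1 (ps c) (hps c))
        show C.wire (sh e F • q) (sh e (ext (ps c)) • c) = _
        rw [← h1, C.wire_inv]
      rw [ReachCircuit.val, ReachCircuit.val, hin, hin', C.gate_inv]
      have hcount : (fun l => Nat.card {q' : {q' : Q // C.wire q q' = some l} //
            C.val (Gs e s0 t0 0) q'.1})
          = fun l => Nat.card {q' : {q' : Q // C.wire (sh e F • q) q' = some l} //
            C.val (Gs e s0 t0 1) q'.1} := by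
        funext l
        apply Nat.card_congr
        refine Equiv.subtypeEquiv (Φ.subtypeEquiv (fun c => by rw [hwire c])) ?_
        rintro ⟨c, hc⟩
        have hlt := C.level_wire _ _ _ hc
        have h1 := ih (j - 1) (by omega) c (ext (ps c)) (by omega) (by
          have h2 : j - 1 + 1 = j := by omega
          rw [h2]; exact good_anti (by omega) (subset_refl _) (hext2 (ps c) (hps c)))
        exact h1
      simp only [hreach, hreach', not_false_eq_true, true_and, false_and, false_or]
      rw [hcount]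
  · have hin' : C.input (sh e F • q)
        = some (ren (sh e F) u, ren (sh e F) v, ren (sh e F) z) := by rw [C.input_inv, hin]; rfl
    rw [ReachCircuit.val, ReachCircuit.val, hin, hin']
    apply input_agree e s0 t0 hw0 hG
    intro x a hxa
    by_contra hx
    have h1 : sh e (Pi.single x 1) • q = q := by
      apply hfix
      intro y hy
      rw [Pi.single_eq_of_ne]
      rintro rfl
      exact hx hy
    have h2 := C.input_inv (sh e (Pi.single x 1)) q
    rw [h1, hin] at h2
    have h3 : (u, v, z) = (ren (sh e (Pi.single x 1)) u, ren (sh e (Pi.single x 1)) v,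
        ren (sh e (Pi.single x 1)) z) := Option.some.inj h2
    have h4 : ∀ u : Elt n M, u = ren (sh e (Pi.single x 1)) u → u ≠ Sum.inl (e (x, a)) := by
      intro u hu hu'
      rw [hu', ren_inl, sh_apply] at hu
      have h5 := (Prod.mk.inj (e.injective (Sum.inl.inj hu))).2
      rw [Pi.single_eq_same] at h5
      exact one_ne_zero (add_eq_left.1 h5.symm)
    rcases hxa with hxa | hxa | hxa
    · exact h4 u (Prod.mk.inj h3).1 hxa
    · exact h4 v (Prod.mk.inj (Prod.mk.inj h3).2).1 hxa
    · exact h4 z (Prod.mk.inj (Prod.mk.inj h3).2).2 hxa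

end

section final

/-- Small orbits give small supports. -/
theorem exists_supp {n a : ℕ} {Q : Type*} [Fintype Q] [MulAction (Perm (Fin n)) Q] (ha : 1 ≤ a)
    (hn1 : 10 ^ 8 * a ^ 4 ≤ n) (hcon : Fintype.card Q ≤ n ^ a) :
    ∀ q : Q, ∃ S : Finset (Fin n), S.card ≤ 2 * a + 1 ∧
      ∀ π : Perm (Fin n), Perm.sign π = 1 → (∀ x ∈ S, π x = x) → π • q = q := by
  have ha4 : 1 ≤ a ^ 4 := Nat.one_le_pow _ _ ha
  have hn0 : 10 ^ 8 ≤ n := by omega
  have hnne : n ≠ 0 := by omega
  obtain ⟨L, hL⟩ : ∃ L, L = Nat.log 2 n := ⟨_, rfl⟩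
  have hL1 : 2 ^ L ≤ n := by rw [hL]; exact Nat.pow_log_le_self 2 hnne
  have hL2 : n < 2 ^ (L + 1) := by rw [hL]; exact Nat.lt_pow_succ_log_self (by norm_num) n
  have hL6 : 6 ≤ L := by
    by_contra h
    have : 2 ^ (L + 1) ≤ 2 ^ 6 := Nat.pow_le_pow_right (by norm_num) (by omega)
    omega
  have hL3 : (L + 1) ^ 2 ≤ n := (sq_le_two_pow hL6).trans hL1
  have hLa : 8 * a ^ 2 * (L + 1) ≤ n := by
    have h1 : (8 * a ^ 2 * (L + 1)) ^ 2 ≤ n ^ 2 := by
      calc (8 * a ^ 2 * (L + 1)) ^ 2 = (64 * a ^ 4) * (L + 1) ^ 2 := by ring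
        _ ≤ n * n := Nat.mul_le_mul (by omega) hL3
        _ = n ^ 2 := by ring
    exact (Nat.pow_le_pow_iff_left (by norm_num)).1 h1
  intro q
  have hLL : L + 1 ≤ n / 8 := by
    have : 8 * (L + 1) ≤ n := by
      calc 8 * (L + 1) = 8 * 1 * (L + 1) := by ring
        _ ≤ 8 * a ^ 2 * (L + 1) := by
          have : 1 ≤ a ^ 2 := Nat.one_le_pow _ _ ha
          gcongr
        _ ≤ n := hLa
    omega
  obtain ⟨S, hS1, hS2⟩ := H534R2.SymSw.exists_support (α := Fin n) q (f := a * (L + 1))
    (r := 2 * (a + 1))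
    (by
      calc Fintype.card Q ≤ n ^ a := hcon
        _ < (2 ^ (L + 1)) ^ a := Nat.pow_lt_pow_left hL2 (by omega)
        _ = 2 ^ (a * (L + 1)) := by rw [← pow_mul, mul_comm]
        _ ≤ _ := two_pow_le_factorial' _)
    (by
      rw [Fintype.card_fin]
      calc 2 * (a * (L + 1)) * (2 * (a + 1)) = 4 * (a * (a + 1)) * (L + 1) := by ring
        _ ≤ 8 * a ^ 2 * (L + 1) := by
          apply Nat.mul_le_mul_right
          nlinarith
        _ ≤ n := hLa)
    (by
      rw [Fintype.card_fin]
      nlinarith)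
    (by positivity)
    (by
      rw [Fintype.card_fin]
      have h2 : 2 * (a * (L + 1)) < n := by
        have h3 : 2 * (a * (L + 1)) < 8 * a ^ 2 * (L + 1) := by
          have : a ≤ a ^ 2 := by nlinarith
          nlinarith
        omega
      calc 2 * (a * (L + 1)) * Fintype.card Q ≤ 2 * (a * (L + 1)) * n ^ a :=
            Nat.mul_le_mul_left _ hcon
        _ < n * n ^ a := by
          apply Nat.mul_lt_mul_of_pos_right h2
          positivity
        _ = n ^ (a + 1) := by ring
        _ ≤ n.choose (2 * (a + 1)) := by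
          apply choose_ge' _ (by omega)
          nlinarith)
  exact ⟨S, by omega, hS2⟩

/-- **Lower bound.** -/
theorem lower_bound_reach {n d a : ℕ} {M Λ Q : Type*} [Fintype Q] [MulAction (Perm (Fin n)) Q]
    (C : ReachCircuit n M Λ Q) {s t : M} (hst : s ≠ t) (ha : 1 ≤ a)
    (hn : 10 ^ 14 * ((d + 1) * (Nat.log 2 n + 1) * a ^ 4) ^ 3 ≤ n) (hd : C.level C.out ≤ d)
    (hC : ∀ R, C.val R C.out ↔ Derivable R (Sum.inr s) (Sum.inr t)) :
    n ^ a < Fintype.card Q := by
  classical
  by_contra hcon
  push Not at hcon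
  obtain ⟨L, hL⟩ : ∃ L, L = Nat.log 2 n := ⟨_, rfl⟩
  rw [← hL] at hn
  have ha4 : 1 ≤ a ^ 4 := Nat.one_le_pow _ _ ha
  obtain ⟨A, hA⟩ : ∃ A, A = (d + 1) * (L + 1) * a ^ 4 := ⟨_, rfl⟩
  rw [← hA] at hn
  have hA1 : a ^ 4 ≤ A := by
    rw [hA]
    exact Nat.le_mul_of_pos_left _ (by positivity)
  have hA3 : A ≤ A ^ 3 := by
    calc A = A ^ 1 := (pow_one A).symm
      _ ≤ A ^ 3 := Nat.pow_le_pow_right (by omega) (by norm_num)
  have hn1 : 10 ^ 8 * a ^ 4 ≤ n := by
    calc 10 ^ 8 * a ^ 4 ≤ 10 ^ 14 * A ^ 3 := Nat.mul_le_mul (by norm_num) (hA1.trans hA3)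
      _ ≤ n := hn
  have hnne : n ≠ 0 := by omega
  have hL2 : n < 2 ^ (L + 1) := by rw [hL]; exact Nat.lt_pow_succ_log_self (by norm_num) n
  have hsupp := exists_supp (Q := Q) ha hn1 hcon
  obtain ⟨s', hs'⟩ : ∃ s', s' = 2 * a + 1 := ⟨_, rfl⟩
  rw [← hs'] at hsupp
  obtain ⟨r, hr⟩ : ∃ r, r = 4 * s' := ⟨_, rfl⟩
  have hr12 : r ≤ 12 * a := by omega
  have hr1 : 12 ≤ r := by omega
  obtain ⟨K, hK⟩ : ∃ K, K = a * (L + 1) := ⟨_, rfl⟩
  have hKQ : Fintype.card Q ≤ 2 ^ K := by
    calc Fintype.card Q ≤ n ^ a := hcon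
      _ ≤ (2 ^ (L + 1)) ^ a := Nat.pow_le_pow_left hL2.le a
      _ = 2 ^ K := by rw [← pow_mul, hK, mul_comm]
  obtain ⟨stp, hstp⟩ : ∃ stp, stp = (r + 1) * r ^ 2 := ⟨_, rfl⟩
  have hstp1 : r ^ 2 + 1 ≤ stp := by
    rw [hstp]
    have : 1 ≤ r ^ 2 := Nat.one_le_pow _ _ (by omega)
    nlinarith
  have hstp2 : stp ≤ 1872 * a ^ 3 := by
    calc stp = (r + 1) * r ^ 2 := hstp
      _ ≤ (13 * a) * (12 * a) ^ 2 := Nat.mul_le_mul (by omega) (Nat.pow_le_pow_left hr12 2)
      _ = 1872 * a ^ 3 := by ring
  obtain ⟨J, hJ⟩ : ∃ J, J = (K + 3) * (d + 1) + 1 := ⟨_, rfl⟩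
  obtain ⟨h, hh⟩ : ∃ h, h = (J + 1) * stp := ⟨_, rfl⟩
  have hstart : r ^ 2 + J * stp < h := by
    rw [hh]
    have : (J + 1) * stp = J * stp + stp := by ring
    omega
  have hh0 : 0 < h := by omega
  have hhA : h ≤ 11232 * A := by
    have h1 : 1 ≤ a * (L + 1) := Nat.one_le_iff_ne_zero.2 (by positivity)
    have h2 : K + 3 ≤ 4 * (a * (L + 1)) := by omega
    have h3 : J + 1 ≤ 6 * (a * (L + 1) * (d + 1)) := by
      have h4 : (K + 3) * (d + 1) ≤ 4 * (a * (L + 1)) * (d + 1) := Nat.mul_le_mul_right _ h2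
      have h5 : 1 ≤ a * (L + 1) * (d + 1) := Nat.one_le_iff_ne_zero.2 (by positivity)
      have h6 : 4 * (a * (L + 1)) * (d + 1) = 4 * (a * (L + 1) * (d + 1)) := by ring
      omega
    calc h = (J + 1) * stp := hh
      _ ≤ (6 * (a * (L + 1) * (d + 1))) * (1872 * a ^ 3) := Nat.mul_le_mul h3 hstp2
      _ = 11232 * A := by rw [hA]; ring
  obtain ⟨p, hp, hp1, hp2⟩ := Nat.exists_prime_lt_and_le_two_mul (2 * h) (by omega)
  haveI : Fact p.Prime := ⟨hp⟩
  have hcard : Fintype.card (Pos h × ZMod p) ≤ Fintype.card (Fin n) := by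
    rw [Fintype.card_fin, Fintype.card_prod, Fintype.card_prod, Fintype.card_fin, ZMod.card]
    calc (h + 1) * (h + 1) * p ≤ (2 * h) * (2 * h) * (2 * (2 * h)) := by
          apply Nat.mul_le_mul _ hp2
          apply Nat.mul_le_mul <;> omega
      _ = 16 * h ^ 3 := by ring
      _ ≤ 16 * (11232 * A) ^ 3 := Nat.mul_le_mul_left _ (Nat.pow_le_pow_left hhA 3)
      _ = 16 * 11232 ^ 3 * A ^ 3 := by ring
      _ ≤ 10 ^ 14 * A ^ 3 := Nat.mul_le_mul_right _ (by norm_num)
      _ ≤ n := hn
  obtain ⟨e⟩ := Function.Embedding.nonempty_of_card_le hcard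
  obtain ⟨ps, hps, hinv, hfix⟩ := exists_psupp e (by omega) hsupp
  have hps' : ∀ q, (ps q).card ≤ s' := hps
  obtain ⟨F, -, hF⟩ := good_step (p := p) (w := r ^ 2) (stp := stp) (s := r)
    (j := (K + 3) * (d + 1)) (S := ∅) (S' := ps C.out) (F := 0) le_rfl (by rw [hstp]) hp1
    (good_start (by rw [← hJ]; exact hstart) 0) (by simp) ((hps' _).trans (by omega))
  have hval := core_reach C e (w := r ^ 2) (stp := stp) (s := s') (r := r) (K := K)
    (by omega) le_rfl (by positivity) (by rw [hstp]) hp1 hKQ s t ps hps' hinv hfix d C.out F hd hF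
  rw [C.out_inv, hC, hC] at hval
  exact no_not_derivable e hst (hval.1 (yes_derivable e s t))

end final

end H553R2
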