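import Pool.Agent.H553R2.ListTree
import Pool.Agent.H553R2.GModel
import Pool.Agent.H553R2.ReachLower

/-!
# Invariant counting circuits of small depth do not decide games
-/

namespace H553R2

open Finset Equiv

section pull

variable {n : ℕ} {M Λ Q : Type*} [MulAction (Perm (Fin n)) Q]

/-- relabelling a graph -/
def pull (E : Digr n M) (π : Perm (Fin n)) : Digr n M := fun x y => E (ren π x) (ren π y)

theorem val_pull (C : GraphCircuit n M Λ Q) (E : Digr n M) (π : Perm (Fin n)) :
    ∀ (j : ℕ) (q : Q), C.level q ≤ j → (C.val (pull E π) q ↔ C.val E (π • q)) := by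
  intro j
  induction j using Nat.strong_induction_on with
  | _ j ih =>
  intro q hj
  rcases hin : C.input q with _ | ⟨x, y⟩
  · have hin' : C.input (π • q) = none := by rw [C.input_inv, hin]; rfl
    rw [GraphCircuit.val, GraphCircuit.val, hin, hin', C.gate_inv]
    have hcount : (fun l => Nat.card {q' : {q' : Q // C.wire q q' = some l} //
          C.val (pull E π) q'.1})
        = fun l => Nat.card {q' : {q' : Q // C.wire (π • q) q' = some l} // C.val E q'.1} := by
      funext l
      apply Nat.card_congr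
      refine Equiv.subtypeEquiv ((MulAction.toPerm π).subtypeEquiv
        (fun c => by rw [MulAction.toPerm_apply, C.wire_inv])) ?_
      rintro ⟨c, hc⟩
      exact ih (C.level c) (lt_of_lt_of_le (C.level_lt _ _ _ hc) hj) c le_rfl
    simp only
    rw [hcount]
  · have hin' : C.input (π • q) = some (ren π x, ren π y) := by rw [C.input_inv, hin]; rfl
    rw [GraphCircuit.val, GraphCircuit.val, hin, hin']
    exact Iff.rfl

end pull

section setup

variable {I : Type} [Fintype I] {d n : ℕ} {M : Type*} (e : (Nd I d × Bool) ↪ Fin n) (s0 : M)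

/-- a permutation of the nodes acting on both copies -/
noncomputable def lift (τ : Perm (Nd I d)) : Perm (Fin n) :=
  Equiv.Perm.viaFintypeEmbedding (Equiv.prodCongrLeft (fun _ : Bool => τ)) e

theorem lift_apply (τ : Perm (Nd I d)) (v : Nd I d) (b : Bool) :
    lift e τ (e (v, b)) = e (τ v, b) := by
  classical
  unfold lift
  rw [Equiv.Perm.viaFintypeEmbedding_apply_image]; rfl

theorem lift_of_not_mem (τ : Perm (Nd I d)) {y : Fin n} (hy : y ∉ Set.range e) :
    lift e τ y = y := by
  classical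
  unfold lift
  rw [Equiv.Perm.viaFintypeEmbedding_apply_notMem_range _ _ hy]

theorem sign_lift (τ : Perm (Nd I d)) : Perm.sign (lift e τ) = 1 := by
  classical
  unfold lift
  rw [Equiv.Perm.viaFintypeEmbedding_sign, Equiv.Perm.sign_prodCongrLeft, Fintype.prod_bool]
  rcases Int.units_eq_one_or (Perm.sign τ) with h | h <;> simp [h]

open Classical in
/-- the element belonging to a node; the root is the distinguished element -/
noncomputable def emb (v : Nd I d) : Elt n M :=
  if v = (ltree I d).root then Sum.inr s0 else Sum.inl (e (v, false))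

theorem emb_root : emb e s0 (ltree I d).root = Sum.inr s0 := by
  classical
  unfold emb; rw [if_pos rfl]

theorem emb_inj {v w : Nd I d} (h : emb e s0 v = emb e s0 w) : v = w := by
  classical
  unfold emb at h
  split_ifs at h with h1 h2 h2
  · rw [h1, h2]
  · exact (Prod.mk.inj (e.injective (Sum.inl.inj h))).1

theorem ren_emb {τ : Perm (Nd I d)} (hτ : τ (ltree I d).root = (ltree I d).root) (v : Nd I d) :
    ren (lift e τ) (emb e s0 v) = emb e s0 (τ v) := by
  classical
  unfold emb
  by_cases hv : v = (ltree I d).root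
  · rw [if_pos hv, if_pos (by rw [hv, hτ])]; rfl
  · rw [if_neg hv, if_neg]
    · show Sum.inl (lift e τ (e (v, false))) = _
      rw [lift_apply]
    · intro h
      apply hv
      rw [← hτ] at h
      exact τ.injective h

/-- the instance belonging to a labelling -/
def Ec (c : Nd I d → ℕ) : Digr n M := fun x y =>
  (∃ v w : Nd I d, w ∈ (ltree I d).ch v ∧ x = emb e s0 v ∧ y = emb e s0 w) ∨
  (∃ v : Nd I d, (ltree I d).ht v = 0 ∧ c v ≠ 0 ∧ x = emb e s0 v ∧ y = Sum.inl (e (v, true)))

theorem Ec_comp (c : Nd I d → ℕ) {τ : Perm (Nd I d)}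
    (hτ : AutIn (ltree I d).ch (ltree I d).ht τ) (hr : τ (ltree I d).root = (ltree I d).root) :
    Ec e s0 (c ∘ τ) = pull (Ec e s0 c) (lift e τ) := by
  funext x y
  apply propext
  have hd : ∀ v : Nd I d, ren (M := M) (lift e τ) (Sum.inl (e (v, true)))
      = Sum.inl (e (τ v, true)) := by
    intro v
    show Sum.inl (lift e τ (e (v, true))) = _
    rw [lift_apply]
  constructor
  · rintro (⟨v, w, h1, rfl, rfl⟩ | ⟨v, h1, h2, rfl, rfl⟩)
    · exact Or.inl ⟨τ v, τ w, (hτ.1 v w).1 h1, ren_emb e s0 hr v, ren_emb e s0 hr w⟩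
    · exact Or.inr ⟨τ v, by rw [hτ.2, h1], h2, ren_emb e s0 hr v, hd v⟩
  · rintro (⟨v, w, h1, h2, h3⟩ | ⟨v, h1, h2, h3, h4⟩)
    · obtain ⟨v', rfl⟩ := τ.surjective v
      obtain ⟨w', rfl⟩ := τ.surjective w
      rw [← ren_emb e s0 hr, ren_inj] at h2 h3
      exact Or.inl ⟨v', w', (hτ.1 v' w').2 h1, h2, h3⟩
    · obtain ⟨v', rfl⟩ := τ.surjective v
      rw [← ren_emb e s0 hr, ren_inj] at h3
      rw [← hd, ren_inj] at h4
      exact Or.inr ⟨v', by rw [← hτ.2, h1], h2, h3, h4⟩

theorem wins_emb {s : ℕ} {D : LabData s} (hp : ∀ i, ∃ k, D.p i k = 0) (hp' : ∀ i k, D.p' i k ≠ 0)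
    {c : Nd I d → ℕ} (hc : Fam (ltree I d) D c) :
    ∀ (i : ℕ) (v : Nd I d), (ltree I d).ht v = i →
      (Wins (Ec e s0 c) (i + 1) (emb e s0 v) ↔ c v ≠ 0) := by
  intro i
  induction i with
  | zero =>
    intro v hv
    constructor
    · rintro ⟨y, hy, -⟩
      rcases hy with ⟨v', w', h1, h2, h3⟩ | ⟨v', h1, h2, h3, h4⟩
      · have := (ltree I d).ht_ch v' w' h1
        rw [emb_inj e s0 h2] at hv
        omega
      · rw [emb_inj e s0 h3]; exact h2
    · intro h
      exact ⟨_, Or.inr ⟨v, hv, h, rfl, rfl⟩, fun h => h⟩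
  | succ i ih =>
    intro v hv
    have h1 : Wins (Ec e s0 c) (i + 1 + 1) (emb e s0 v) ↔ ∃ w ∈ (ltree I d).ch v, c w = 0 := by
      constructor
      · rintro ⟨y, hy, hy'⟩
        rcases hy with ⟨v', w', h1, h2, rfl⟩ | ⟨v', h1, h2, h3, h4⟩
        · rw [← emb_inj e s0 h2] at h1
          have h3 := (ltree I d).ht_ch v w' h1
          refine ⟨w', h1, ?_⟩
          by_contra h4
          exact hy' ((ih w' (by omega)).2 h4)
        · rw [emb_inj e s0 h3] at hv; omega
      · rintro ⟨w, h1, h2⟩
        have h3 := (ltree I d).ht_ch v w h1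
        exact ⟨_, Or.inl ⟨v, w, h1, rfl, rfl⟩, fun h => (ih w (by omega)).1 h h2⟩
    rw [h1]
    have h2 := hc v (by omega) (fun a => if a = 0 then 1 else 0)
    have h3 : ∑ k, (if D.p' ((ltree I d).ht v) k = 0 then (1 : ℚ) else 0) = 0 :=
      sum_eq_zero fun k _ => if_neg (hp' _ k)
    rw [h3, mul_zero, add_zero] at h2
    have h4 : ∑ k, (if D.p ((ltree I d).ht v) k = 0 then (1 : ℚ) else 0) ≠ 0 := by
      obtain ⟨k, hk⟩ := hp ((ltree I d).ht v)
      have : (0 : ℚ) < ∑ k, (if D.p ((ltree I d).ht v) k = 0 then (1 : ℚ) else 0) := by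
        apply sum_pos'
        · intro k _; split_ifs <;> norm_num
        · exact ⟨k, mem_univ _, by rw [if_pos hk]; norm_num⟩
      exact this.ne'
    constructor
    · rintro ⟨w, hw, hcw⟩ hcv
      rw [hcv, Nat.cast_zero, zero_mul] at h2
      have h5 := (sum_eq_zero_iff_of_nonneg (fun w _ => by split_ifs <;> norm_num)).1 h2 w hw
      rw [if_pos hcw] at h5
      exact one_ne_zero h5
    · intro hcv
      by_contra hcon
      push Not at hcon
      rw [sum_eq_zero (fun w hw => if_neg (hcon w hw))] at h2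
      have h5 := mul_ne_zero (Nat.cast_ne_zero (R := ℚ).2 hcv) h4
      exact h5 h2.symm

end setup

section closure

variable {I : Type} [Fintype I] [DecidableEq I] {d n : ℕ} (e : (Nd I d × Bool) ↪ Fin n)

open Classical in
/-- the nodes touched by a set of elements -/
noncomputable def touched (S : Finset (Fin n)) : Finset (Nd I d) :=
  univ.filter fun v => ∃ b, e (v, b) ∈ S

theorem mem_touched {S : Finset (Fin n)} {v : Nd I d} : v ∈ touched e S ↔ ∃ b, e (v, b) ∈ S := by
  simp [touched]

theorem card_touched (S : Finset (Fin n)) : (touched e S).card ≤ S.card := by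
  have h1 : ∀ x ∈ touched e S, ∃ b, e (x, b) ∈ S := fun x hx => (mem_touched e).1 hx
  choose! b hb using h1
  apply card_le_card_of_injOn (fun x => e (x, b x))
  · intro x hx; exact hb x hx
  · intro x _ y _ hxy
    exact (Prod.mk.inj (e.injective hxy)).1

/-- an ancestor -/
def ndrop (v : Nd I d) (k : ℕ) : Nd I d := ⟨v.1.drop k, by rw [List.length_drop]; have := v.2; omega⟩

/-- the nodes touched and their ancestors -/
noncomputable def clos (S : Finset (Fin n)) : Finset (Nd I d) :=
  insert (ltree I d).root ((touched e S).biUnion fun v => (range d).image (ndrop v))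

theorem clos_closed (S : Finset (Fin n)) :
    ClosedIn (ltree I d).ch (ltree I d).root (clos e S) := by
  classical
  refine ⟨by unfold clos; exact mem_insert_self _ _, ?_⟩
  intro v w hvw hw
  obtain ⟨a, ha⟩ := mem_lch.1 hvw
  unfold clos at hw ⊢
  rw [mem_insert] at hw ⊢
  rcases hw with rfl | hw
  · exact absurd ha (by simp [ltree])
  · rw [mem_biUnion] at hw
    obtain ⟨x, hx, hw⟩ := hw
    obtain ⟨k, hk, rfl⟩ := mem_image.1 hw
    have h1 : v.1 = x.1.drop (k + 1) := by
      have h2 : x.1.drop k = a :: v.1 := ha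
      rw [← List.tail_drop, h2, List.tail_cons]
    by_cases hk' : k + 1 < d
    · right
      rw [mem_biUnion]
      exact ⟨x, hx, mem_image.2 ⟨k + 1, mem_range.2 hk', Subtype.ext h1.symm⟩⟩
    · left
      apply Subtype.ext
      rw [h1]
      show _ = []
      apply List.drop_eq_nil_of_le
      have := x.2
      have := mem_range.1 hk
      omega

theorem card_clos (S : Finset (Fin n)) (A : Finset (Nd I d)) (hA : (ltree I d).root ∈ A) :
    (clos e S \ A).card ≤ d * S.card := by
  classical
  have h1 : clos e S \ A ⊆ (touched e S).biUnion fun v => (range d).image (ndrop v) := by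
    intro x hx
    rw [mem_sdiff] at hx
    unfold clos at hx
    rcases mem_insert.1 hx.1 with rfl | h
    · exact absurd hA hx.2
    · exact h
  calc (clos e S \ A).card ≤ _ := card_le_card h1
    _ ≤ (touched e S).card * d := by
      apply card_biUnion_le_card_mul
      intro v _
      calc ((range d).image (ndrop v)).card ≤ (range d).card := card_image_le
        _ = d := card_range d
    _ ≤ S.card * d := Nat.mul_le_mul_right _ (card_touched e S)
    _ = d * S.card := mul_comm _ _

theorem touched_subset (hd : 1 ≤ d) (S : Finset (Fin n)) : touched e S ⊆ clos e S := by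
  classical
  intro v hv
  unfold clos
  rw [mem_insert, mem_biUnion]
  right
  refine ⟨v, hv, mem_image.2 ⟨0, mem_range.2 hd, Subtype.ext ?_⟩⟩
  show v.1.drop 0 = v.1
  rfl

theorem lift_fix (hd : 1 ≤ d) (S : Finset (Fin n)) {τ : Perm (Nd I d)}
    (hτ : ∀ v ∈ clos e S, τ v = v) : ∀ y ∈ S, lift e τ y = y := by
  intro y hy
  by_cases hy' : y ∈ Set.range e
  · obtain ⟨⟨v, b⟩, rfl⟩ := hy'
    rw [lift_apply, hτ v (touched_subset e hd S ((mem_touched e).2 ⟨b, hy⟩))]
  · exact lift_of_not_mem e τ hy'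

end closure

section main

variable {I : Type} [Fintype I] [DecidableEq I] {d n : ℕ} {M Λ Q : Type*} [Fintype Q]
  [MulAction (Perm (Fin n)) Q]


open Classical in
theorem count_eq (C : GraphCircuit n M Λ Q) (E : Digr n M) (q : Q) (l : Λ) :
    ((Nat.card {q' : {q' : Q // C.wire q q' = some l} // C.val E q'.1} : ℕ) : ℚ)
      = ∑ q' ∈ univ.filter (fun q' => C.wire q q' = some l), if C.val E q' then 1 else 0 := by
  rw [sum_boole]
  congr 1
  rw [Nat.card_eq_fintype_card, Fintype.card_subtype, filter_filter]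
  apply card_bij (fun q' _ => q'.1)
  · intro q' hq'
    rw [mem_filter] at hq' ⊢
    exact ⟨mem_univ _, q'.2, hq'.2⟩
  · intro a _ b _ h
    exact Subtype.ext h
  · intro q' hq'
    rw [mem_filter] at hq'
    exact ⟨⟨q', hq'.2.1⟩, mem_filter.2 ⟨mem_univ _, hq'.2.2⟩, rfl⟩

theorem claim (C : GraphCircuit n M Λ Q) (e : (Nd I d × Bool) ↪ Fin n) (s0 : M) {s : ℕ}
    (D : LabData s) (hI : s + 2 < Fintype.card I) (cl : Q → Finset (Nd I d))
    (hcl1 : ∀ q, ClosedIn (ltree I d).ch (ltree I d).root (cl q))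
    (hcl2 : ∀ q A, (ltree I d).root ∈ A → (cl q \ A).card ≤ s)
    (hcl3 : ∀ q, ∀ τ ∈ Gam (ltree I d) (cl q), lift e τ • q = q) :
    ∀ (j : ℕ) (q : Q), C.level q ≤ j → ∀ S : Finset (Nd I d),
      ClosedIn (ltree I d).ch (ltree I d).root S → S.card ≤ s + 1 →
      (∀ τ ∈ Gam (ltree I d) S, lift e τ • q = q) → ∀ c c' : Nd I d → ℕ,
      Fam (ltree I d) D c → Fam (ltree I d) D c' →
      (∀ v ∈ S, (ltree I d).ht v ≤ j → c v = c' v) →
      (C.val (Ec e s0 c) q ↔ C.val (Ec e s0 c') q) := by
  classical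
  have hcl4 : ∀ q, (cl q).card ≤ s + 1 := by
    intro q
    have h1 := hcl2 q {(ltree I d).root} (mem_singleton_self _)
    have h2 := card_le_card_sdiff_add_card (s := cl q) (t := {(ltree I d).root})
    rw [card_singleton] at h2
    omega
  intro j
  induction j using Nat.strong_induction_on with
  | _ j ih =>
  intro q hj S hS hScard hSq c c' hc hc' hcc
  rcases hin : C.input q with _ | ⟨x, y⟩
  · -- a gate
    have hcount : (fun l => Nat.card {q' : {q' : Q // C.wire q q' = some l} //
          C.val (Ec e s0 c) q'.1})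
        = fun l => Nat.card {q' : {q' : Q // C.wire q q' = some l} //
          C.val (Ec e s0 c') q'.1} := by
      funext l
      rcases Nat.eq_zero_or_pos j with hj0 | hj0
      · have hno : ∀ c, C.wire q c ≠ some l := fun c hc => by
          have := C.level_lt _ _ _ hc; omega
        have h1 : IsEmpty {q' : {q' : Q // C.wire q q' = some l} // C.val (Ec e s0 c) q'.1} :=
          ⟨fun x => hno _ x.1.2⟩
        have h2 : IsEmpty {q' : {q' : Q // C.wire q q' = some l} // C.val (Ec e s0 c') q'.1} :=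
          ⟨fun x => hno _ x.1.2⟩
        rw [Nat.card_of_isEmpty, Nat.card_of_isEmpty]
      obtain ⟨i, rfl⟩ : ∃ i, j = i + 1 := ⟨j - 1, by omega⟩
      set W : Finset Q := univ.filter (fun q' => C.wire q q' = some l) with hW
      -- the indicator functions
      let f : Q → (Nd I d → ℕ) → ℚ := fun q' c => if C.val (Ec e s0 c) q' then 1 else 0
      -- invariance
      have hinv : ∀ c, Fam (ltree I d) D c → ∀ τ : Gam (ltree I d) S,
          ∑ q' ∈ W, f q' (c ∘ τ.1) = ∑ q' ∈ W, f q' c := by
        intro c hc τ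
        obtain ⟨h1, h2⟩ := mem_Gam.1 τ.2
        have h3 : τ.1 (ltree I d).root = (ltree I d).root := h2 _ hS.1
        apply sum_equiv (MulAction.toPerm (lift e τ.1))
        · intro q'
          rw [hW, mem_filter, mem_filter, MulAction.toPerm_apply]
          have h4 := C.wire_inv (lift e τ.1) q q'
          rw [hSq τ.1 τ.2] at h4
          rw [h4]
          simp
        · intro q' _
          show (if C.val (Ec e s0 (c ∘ τ.1)) q' then (1 : ℚ) else 0)
            = if C.val (Ec e s0 c) (lift e τ.1 • q') then 1 else 0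
          rw [Ec_comp e s0 c h1 h3]
          have h5 := val_pull C (Ec e s0 c) (lift e τ.1) (C.level q') q' le_rfl
          by_cases h6 : C.val (Ec e s0 c) (lift e τ.1 • q')
          · rw [if_pos h6, if_pos (h5.2 h6)]
          · rw [if_neg h6, if_neg (fun h => h6 (h5.1 h))]
      -- each indicator function is simple
      have hpol : ∀ q' ∈ W, Pol (ltree I d) D i (S ∪ cl q') 0 (f q') := by
        intro q' hq'
        have hlev : C.level q' ≤ i := by
          have := C.level_lt _ _ _ (mem_filter.1 hq').2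
          omega
        refine Pol.mono (fun c => if ∃ c₁, Fam (ltree I d) D c₁ ∧
            (∀ v ∈ cl q', (ltree I d).ht v ≤ i → c v = c₁ v) ∧ C.val (Ec e s0 c₁) q' then 1 else 0)
          (fun _ => 0) ?_ (fun v h => absurd rfl h) (by simp) _ ?_
        · intro c₁ c₂ h12
          dsimp only
          have h1 : ∀ v ∈ cl q', (ltree I d).ht v ≤ i → c₁ v = c₂ v :=
            fun v hv => h12 v (mem_union_right _ hv)
          have h2 : (∃ c₃, Fam (ltree I d) D c₃ ∧
              (∀ v ∈ cl q', (ltree I d).ht v ≤ i → c₁ v = c₃ v) ∧ C.val (Ec e s0 c₃) q') ↔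
              (∃ c₃, Fam (ltree I d) D c₃ ∧
              (∀ v ∈ cl q', (ltree I d).ht v ≤ i → c₂ v = c₃ v) ∧ C.val (Ec e s0 c₃) q') := by
            constructor
            · rintro ⟨c₃, h3, h4, h5⟩
              exact ⟨c₃, h3, fun v hv hvi => by rw [← h1 v hv hvi, h4 v hv hvi], h5⟩
            · rintro ⟨c₃, h3, h4, h5⟩
              exact ⟨c₃, h3, fun v hv hvi => by rw [h1 v hv hvi, h4 v hv hvi], h5⟩
          simp only [h2]
        · intro c₁ hc₁
          simp only [pow_zero, prod_const_one, mul_one]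
          show (if C.val (Ec e s0 c₁) q' then (1 : ℚ) else 0) = _
          by_cases h1 : C.val (Ec e s0 c₁) q'
          · rw [if_pos h1, if_pos ⟨c₁, hc₁, fun _ _ _ => rfl, h1⟩]
          · rw [if_neg h1, if_neg]
            rintro ⟨c₂, h2, h3, h4⟩
            exact h1 ((ih i (by omega) q' hlev (cl q') (hcl1 q') (hcl4 q') (hcl3 q') c₁ c₂ hc₁ h2
              h3).2 h4)
      -- averaging
      have havg : ∀ q' ∈ W, ∑ τ : Gam (ltree I d) S, f q' (c ∘ τ.1)
          = ∑ τ : Gam (ltree I d) S, f q' (c' ∘ τ.1) := by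
        intro q' hq'
        have hcl : ClosedIn (ltree I d).ch (ltree I d).root (S ∪ cl q') := by
          refine ⟨mem_union_left _ hS.1, fun v w hvw hw => ?_⟩
          rcases mem_union.1 hw with h | h
          · exact mem_union_left _ (hS.2 v w hvw h)
          · exact mem_union_right _ ((hcl1 q').2 v w hvw h)
        have hk : ((S ∪ cl q') \ S).card ≤ s := by
          rw [union_sdiff_left]
          exact hcl2 q' S hS.1
        exact avg hS _ (S ∪ cl q') 0 (f q') hcl subset_union_left rfl (by omega) (hpol q' hq')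
          c c' hc hc' hcc
      have hsum : ∀ c, Fam (ltree I d) D c →
          (Fintype.card (Gam (ltree I d) S) : ℚ) * ∑ q' ∈ W, f q' c
            = ∑ q' ∈ W, ∑ τ : Gam (ltree I d) S, f q' (c ∘ τ.1) := by
        intro c hc
        rw [sum_comm, sum_congr rfl (fun τ _ => hinv c hc τ), sum_const, card_univ, nsmul_eq_mul]
      have h1 := hsum c hc
      rw [sum_congr rfl havg, ← hsum c' hc'] at h1
      have h2 : (Fintype.card (Gam (ltree I d) S) : ℚ) ≠ 0 := by
        have : 0 < Fintype.card (Gam (ltree I d) S) := Fintype.card_pos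
        positivity
      have h3 := mul_left_cancel₀ h2 h1
      have h4 := count_eq C (Ec e s0 c) q l
      have h5 := count_eq C (Ec e s0 c') q l
      have h6 : ((Nat.card {q' : {q' : Q // C.wire q q' = some l} // C.val (Ec e s0 c) q'.1} : ℕ) : ℚ)
          = ((Nat.card {q' : {q' : Q // C.wire q q' = some l} //
            C.val (Ec e s0 c') q'.1} : ℕ) : ℚ) := by
        rw [h4, h5]; exact h3
      exact_mod_cast h6
    rw [GraphCircuit.val, GraphCircuit.val, hin]
    simp only
    rw [hcount]
  · -- an input gate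
    rw [GraphCircuit.val, GraphCircuit.val, hin]
    show Ec e s0 c x y ↔ Ec e s0 c' x y
    have key : ∀ v : Nd I d, (ltree I d).ht v = 0 → y = Sum.inl (e (v, true)) → v ∈ S := by
      intro v hv hy
      by_contra hvS
      have hroot : v ≠ (ltree I d).root := fun h => hvS (h ▸ hS.1)
      obtain ⟨v0, hv0⟩ := (ltree I d).par v hroot
      have hht := (ltree I d).ht_ch v0 v hv0
      have hcard : ((ltree I d).ch v0).card = Fintype.card I := by
        apply card_lch
        have : (ltree I d).ht v0 = 1 := by omega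
        exact this.ge
      obtain ⟨u, hu⟩ : ∃ u ∈ (ltree I d).ch v0, u ∉ insert v S := by
        by_contra hcon
        push Not at hcon
        have h1 := card_le_card (show (ltree I d).ch v0 ⊆ insert v S from hcon)
        have h2 := card_insert_le v S
        omega
      obtain ⟨hu1, hu2⟩ := hu
      rw [mem_insert, not_or] at hu2
      obtain ⟨σ, h1, h2, h3⟩ := (ltree I d).swap v0 v u hv0 hu1
      have h4 := C.input_inv (lift e σ) q
      rw [hSq σ ⟨h1, h3 S hS hvS hu2.2⟩, hin] at h4
      have h5 := (Prod.mk.inj (Option.some.inj h4)).2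
      have h6 : ren (lift e σ) y = Sum.inl (e (u, true)) := by
        rw [hy, ren_inl, lift_apply, h2]
      rw [h6, hy] at h5
      exact hu2.1 (Prod.mk.inj (e.injective (Sum.inl.inj h5))).1.symm
    constructor
    · rintro (h | ⟨v, h1, h2, h3, h4⟩)
      · exact Or.inl h
      · refine Or.inr ⟨v, h1, ?_, h3, h4⟩
        rw [← hcc v (key v h1 h4) (by omega)]
        exact h2
    · rintro (h | ⟨v, h1, h2, h3, h4⟩)
      · exact Or.inl h
      · refine Or.inr ⟨v, h1, ?_, h3, h4⟩
        rw [hcc v (key v h1 h4) (by omega)]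
        exact h2

end main

/-- **Lower bound.** -/
theorem game_lower {n a r : ℕ} {M Λ Q : Type*} [Fintype Q] [MulAction (Perm (Fin n)) Q]
    (C : GraphCircuit n M Λ Q) (s0 : M) (ha : 1 ≤ a) (hr : 2 ≤ r)
    (hn : (10 * r * (2 * a + 1)) ^ (6 * (r - 1)) ≤ n) (hd : C.level C.out + 2 ≤ r)
    (hC : ∀ E, C.val E C.out ↔ Wins E r (Sum.inr s0)) :
    n ^ a < Fintype.card Q := by
  classical
  by_contra hcon
  push Not at hcon
  obtain ⟨d, rfl⟩ : ∃ d, r = d + 1 := ⟨r - 1, by omega⟩
  have hd1 : 1 ≤ d := by omega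
  rw [Nat.add_sub_cancel] at hn
  have hn1 : 10 ^ 8 * a ^ 4 ≤ n := by
    have h1 : 10 * (d + 1) * (2 * a + 1) ≥ 40 * a := by nlinarith
    have h2 : 1 ≤ 40 * a := by omega
    calc 10 ^ 8 * a ^ 4 ≤ 10 ^ 8 * a ^ 6 := by
          apply Nat.mul_le_mul_left
          exact Nat.pow_le_pow_right ha (by norm_num)
      _ ≤ (40 * a) ^ 6 := by rw [mul_pow]; exact Nat.mul_le_mul_right _ (by norm_num)
      _ ≤ (10 * (d + 1) * (2 * a + 1)) ^ 6 := Nat.pow_le_pow_left h1 6
      _ ≤ (10 * (d + 1) * (2 * a + 1)) ^ (6 * d) := Nat.pow_le_pow_right (by omega) (by omega)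
      _ ≤ n := hn
  have hsupp := exists_supp (Q := Q) ha hn1 hcon
  choose SS hSS1 hSS2 using hsupp
  -- the label data
  obtain ⟨s, hs⟩ : ∃ s, s = d * (2 * a + 1) := ⟨_, rfl⟩
  obtain ⟨G, p, p', hG1, hG2, hp1, hp1', hp2, hp3, hp4⟩ := pte s
  let D : LabData s :=
    { m := 4 * (s + 1) ^ 3
      G := G
      p := fun i k => if 2 ≤ i then p k else 0
      p' := fun i k => if 2 ≤ i then p' k else 1
      psum := fun i hi e he => by simp only [if_pos hi]; exact hp4 e he }
  have hm1 : 1 ≤ (s + 1) ^ 3 := Nat.one_le_pow _ _ (by omega)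
  have hm2 : s + 1 ≤ (s + 1) ^ 3 := Nat.le_self_pow (by norm_num) _
  have hs1 : 1 ≤ s := by rw [hs]; exact Nat.mul_pos hd1 (by omega)
  have hcardI : Fintype.card (Fin D.m × Fin D.G) = 4 * (s + 1) ^ 3 * G := by
    rw [Fintype.card_prod, Fintype.card_fin, Fintype.card_fin]
  have hI : s + 2 < Fintype.card (Fin D.m × Fin D.G) := by
    rw [hcardI]
    have : 4 * (s + 1) ^ 3 ≤ 4 * (s + 1) ^ 3 * G := Nat.le_mul_of_pos_right _ hG1
    omega
  -- the embedding
  have hcard : Fintype.card (Nd (Fin D.m × Fin D.G) d × Bool) ≤ Fintype.card (Fin n) := by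
    rw [Fintype.card_fin, Fintype.card_prod, Fintype.card_bool]
    have h1 := card_Nd (I := Fin D.m × Fin D.G) (d := d)
    rw [hcardI] at h1
    have h2 : 4 * (s + 1) ^ 3 * G + 1 ≤ 32 * (s + 1) ^ 6 := by
      have h3 : 4 * (s + 1) ^ 3 * G ≤ 4 * (s + 1) ^ 3 * (4 * (s + 1) ^ 3) :=
        Nat.mul_le_mul_left _ hG2
      have h4 : 4 * (s + 1) ^ 3 * (4 * (s + 1) ^ 3) = 16 * (s + 1) ^ 6 := by ring
      have h5 : 1 ≤ (s + 1) ^ 6 := Nat.one_le_pow _ _ (by omega)
      omega
    have h3 : s + 1 ≤ (d + 1) * (2 * a + 1) := by rw [hs]; nlinarith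
    calc Fintype.card (Nd (Fin D.m × Fin D.G) d) * 2
        ≤ (32 * (s + 1) ^ 6) ^ d * 2 ^ d := by
          apply Nat.mul_le_mul (h1.trans (Nat.pow_le_pow_left h2 d))
          exact Nat.le_self_pow (by omega) 2
      _ = ((2 * (s + 1)) ^ 6) ^ d := by rw [← mul_pow]; ring
      _ = (2 * (s + 1)) ^ (6 * d) := by rw [← pow_mul]
      _ ≤ (10 * (d + 1) * (2 * a + 1)) ^ (6 * d) := by
          apply Nat.pow_le_pow_left
          nlinarith
      _ ≤ n := hn
  obtain ⟨e⟩ := Function.Embedding.nonempty_of_card_le hcard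
  -- the two labellings
  have hDp : ∀ i k, D.p i k ≤ D.m := by
    intro i k
    show (if 2 ≤ i then p k else 0) ≤ _
    split_ifs
    · exact hp1 k
    · exact Nat.zero_le _
  have hDp' : ∀ i k, D.p' i k ≤ D.m := by
    intro i k
    show (if 2 ≤ i then p' k else 1) ≤ 4 * (s + 1) ^ 3
    split_ifs
    · exact hp1' k
    · omega
  have hDp0 : ∀ i, ∃ k, D.p i k = 0 := by
    intro i
    obtain ⟨k, hk⟩ := hp2
    refine ⟨k, ?_⟩
    show (if 2 ≤ i then p k else 0) = 0
    split_ifs
    · exact hk
    · rfl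
  have hDp0' : ∀ i k, D.p' i k ≠ 0 := by
    intro i k
    show (if 2 ≤ i then p' k else 1) ≠ 0
    split_ifs
    · exact hp3 k
    · exact one_ne_zero
  have hf0 := lab_fam d D (c0 := 0) (Nat.zero_le _) hDp hDp'
  have hf1 := lab_fam d D (c0 := 1) (by show 1 ≤ 4 * (s + 1) ^ 3; omega) hDp hDp'
  -- the claim
  have hval := claim C e s0 D hI (fun q => clos e (SS q)) (fun q => clos_closed e (SS q))
    (fun q A hA => (card_clos e (SS q) A hA).trans (by
      rw [hs]; exact Nat.mul_le_mul_left _ (hSS1 q)))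
    (fun q τ hτ => hSS2 q _ (sign_lift e τ) (lift_fix e hd1 (SS q) hτ.2))
    (C.level C.out) C.out le_rfl {(ltree _ d).root}
    ⟨mem_singleton_self _, fun v w hvw hw => by
      rw [mem_singleton] at hw
      subst hw
      obtain ⟨a, ha⟩ := mem_lch.1 hvw
      exact absurd ha (by simp [ltree])⟩
    (by rw [card_singleton]; omega) (fun τ _ => C.out_inv _) _ _ hf0 hf1 (fun v hv hvj => by
      rw [mem_singleton] at hv
      subst hv
      have : (ltree (Fin D.m × Fin D.G) d).ht (ltree (Fin D.m × Fin D.G) d).root = d := by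
        rw [ltree_ht]; simp [ltree]
      omega)
  rw [hC, hC, ← emb_root e s0] at hval
  have hroot : (ltree (Fin D.m × Fin D.G) d).ht (ltree (Fin D.m × Fin D.G) d).root = d := by
    rw [ltree_ht]; simp [ltree]
  rw [wins_emb e s0 hDp0 hDp0' hf0 d _ hroot, wins_emb e s0 hDp0 hDp0' hf1 d _ hroot] at hval
  exact (hval.2 one_ne_zero) rfl

end H553R2
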