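import Pool.Agent.H553R2.Zero

/-!
# The strategy: Pascal arrays with a hidden break
-/

namespace H553R2

open Polynomial

section

variable {p : ℕ} [Fact p.Prime]

/-- Extend a functional through a free window, vanishing at few prescribed monomials. -/
theorem extend_functional {r : ℕ} (a i : Fin r → ℕ) {l l' w : ℕ} (hl : l + w ≤ l')
    (h1 : ∀ k, l + w < i k) (hp : ∀ k, a k + (l' - i k) < p) (hr : r ^ 2 ≤ w)
    (L : (ZMod p)[X] →ₗ[ZMod p] ZMod p) :
    ∃ L' : (ZMod p)[X] →ₗ[ZMod p] ZMod p, (∀ f, L' ((1 + X) ^ (l' - l) * f) = L f) ∧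
      ∀ k, L' (X ^ a k * (1 + X) ^ (l' - i k)) = 0 := by
  classical
  let ψ : ((ZMod p)[X] × (Fin r → ZMod p)) →ₗ[ZMod p] (ZMod p)[X] :=
    { toFun := fun x => (1 + X) ^ (l' - l) * x.1 +
        ∑ k, x.2 k • (X ^ a k * (1 + X) ^ (l' - i k))
      map_add' := by
        intro x y
        simp only [Prod.fst_add, Prod.snd_add, Pi.add_apply, add_smul, Finset.sum_add_distrib]
        ring
      map_smul' := by
        intro c x
        simp only [Prod.smul_fst, Prod.smul_snd, Pi.smul_apply, RingHom.id_apply, smul_add,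
          Finset.smul_sum, smul_smul, smul_eq_mul]
        rw [mul_smul_comm] }
  let φ : ((ZMod p)[X] × (Fin r → ZMod p)) →ₗ[ZMod p] ZMod p := L ∘ₗ LinearMap.fst _ _ _
  have hφ : φ ∈ LinearMap.range ψ.dualMap := by
    rw [LinearMap.range_dualMap_eq_dualAnnihilator_ker, Submodule.mem_dualAnnihilator]
    rintro ⟨f, c⟩ hfc
    rw [LinearMap.mem_ker] at hfc
    change (1 + X) ^ (l' - l) * f + ∑ k, c k • (X ^ a k * (1 + X) ^ (l' - i k)) = 0 at hfc
    have h2 : ∑ k, c k • (X ^ a k * (1 + X) ^ (l' - i k) : (ZMod p)[X])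
        = ∑ k, C (c k) * (X ^ a k * (1 + X) ^ (l' - i k)) := by
      apply Finset.sum_congr rfl
      intro k _
      rw [smul_eq_C_mul]
    rw [h2] at hfc
    have h3 : (1 + X) ^ ((l' - l - w) + w) ∣
        ∑ k, C (c k) * (X ^ a k * (1 + X) ^ (l' - i k) : (ZMod p)[X]) := by
      have h4 : l' - l - w + w = l' - l := by omega
      rw [h4]
      exact Dvd.intro (-f) (by linear_combination -hfc)
    have h5 := zero_est (p := p) r a (fun k => l' - i k) c (l' - l - w) w
      (fun k => by have := h1 k; show l' - i k ≤ l' - l - w; omega) hp hr h3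
    rw [h5, add_zero, mul_eq_zero] at hfc
    have h6 : (1 + X : (ZMod p)[X]) ^ (l' - l) ≠ 0 := by
      apply pow_ne_zero
      intro h
      have := congrArg (fun q : (ZMod p)[X] => q.coeff 1) h
      simp [Polynomial.coeff_one] at this
    have h7 : f = 0 := by
      rcases hfc with h | h
      · exact absurd h h6
      · exact h
    show L f = 0
    rw [h7, map_zero]
  obtain ⟨L', hL'⟩ := hφ
  refine ⟨L', fun f => ?_, fun k => ?_⟩
  · have := LinearMap.congr_fun hL' (f, 0)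
    change L' ((1 + X) ^ (l' - l) * f + ∑ k, (0 : Fin r → ZMod p) k • _) = L f at this
    simpa using this
  · have := LinearMap.congr_fun hL' (0, Pi.single k 1)
    change L' ((1 + X) ^ (l' - l) * 0 + ∑ j, (Pi.single k 1 : Fin r → ZMod p) j • _) = L 0 at this
    rw [mul_zero, zero_add, map_zero, Finset.sum_eq_single k] at this
    · rwa [Pi.single_eq_same, one_smul] at this
    · intro b _ hb
      rw [Pi.single_eq_of_ne hb, zero_smul]
    · intro h; exact absurd (Finset.mem_univ _) h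

/-- positions -/
abbrev Pos (h : ℕ) := Fin (h + 1) × Fin (h + 1)

/-- `F` restricted to `S` is given by a Pascal array which breaks below row `l`, where the window of
`w` rows below row `l` is not touched by `S`. -/
def Good (p w stp h : ℕ) [Fact p.Prime] (j : ℕ) (S : Finset (Pos h)) (F : Pos h → ZMod p) : Prop :=
  ∃ (l : ℕ) (L : (ZMod p)[X] →ₗ[ZMod p] ZMod p), l + w + j * stp < h ∧ L ((1 + X) ^ l) = 1 ∧
    ∀ x ∈ S, ((x.1 : ℕ) ≤ l → F x = L (X ^ (x.2 : ℕ) * (1 + X) ^ (l - (x.1 : ℕ)))) ∧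
      (l < (x.1 : ℕ) → l + w < (x.1 : ℕ) ∧ F x = 0)

theorem good_step {w stp h s j : ℕ} (hw : s ^ 2 ≤ w) (hstp : (s + 1) * w ≤ stp)
    (hp : 2 * h < p) {S S' : Finset (Pos h)} {F : Pos h → ZMod p}
    (hG : Good p w stp h (j + 1) S F) (hS : S.card ≤ s) (hS' : S'.card ≤ s) :
    ∃ F' : Pos h → ZMod p, (∀ x ∈ S, F' x = F x) ∧ Good p w stp h j S' F' := by
  classical
  obtain ⟨l, L, hlt, hL, hx⟩ := hG
  -- find a free window
  obtain ⟨k, hk1, hk2, hk⟩ : ∃ k, 1 ≤ k ∧ k ≤ s + 1 ∧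
      ∀ x ∈ S', ¬ (l + w * k < (x.1 : ℕ) ∧ (x.1 : ℕ) ≤ l + w * (k + 1)) := by
    by_contra hcon
    push Not at hcon
    have h1 : ∀ k : Fin (s + 1), ∃ x ∈ S', l + w * (k + 1) < (x.1 : ℕ) ∧
        (x.1 : ℕ) ≤ l + w * (k + 1 + 1) := fun k => hcon (k + 1) (by omega) (by omega)
    choose g hg1 hg2 using h1
    have hinj : Function.Injective g := by
      intro a b hab
      by_contra hne
      have ha := hg2 a
      have hb := hg2 b
      rw [hab] at ha
      have hne' : (a : ℕ) ≠ b := fun h => hne (Fin.ext h)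
      rcases Nat.lt_or_gt_of_ne hne' with h | h
      · have : w * ((a : ℕ) + 1 + 1) ≤ w * (b + 1) := Nat.mul_le_mul_left _ (by omega)
        omega
      · have : w * ((b : ℕ) + 1 + 1) ≤ w * (a + 1) := Nat.mul_le_mul_left _ (by omega)
        omega
    have h2 : (Finset.univ.image g).card ≤ S'.card := by
      apply Finset.card_le_card
      intro x hx
      rw [Finset.mem_image] at hx
      obtain ⟨a, -, rfl⟩ := hx
      exact hg1 a
    rw [Finset.card_image_of_injective _ hinj, Finset.card_univ, Fintype.card_fin] at h2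
    omega
  set l' := l + w * k with hl'
  have hwk : w ≤ w * k := Nat.le_mul_of_pos_right _ hk1
  have hwk2 : w * k ≤ stp := (Nat.mul_le_mul_left w hk2).trans (by rw [mul_comm]; exact hstp)
  have hjs : (j + 1) * stp = j * stp + stp := by ring
  -- the prescribed zeros
  set T : Finset (Pos h) := S.filter fun x => l < (x.1 : ℕ) ∧ (x.1 : ℕ) ≤ l' with hT
  set e := T.equivFin.symm with he
  have hTmem : ∀ q : Fin T.card, ((e q : Pos h) ∈ S) ∧ l < ((e q : Pos h).1 : ℕ) ∧
      ((e q : Pos h).1 : ℕ) ≤ l' := by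
    intro q
    exact Finset.mem_filter.1 (e q).2
  obtain ⟨L', hL'1, hL'2⟩ := extend_functional (p := p) (r := T.card)
    (fun q => ((e q : Pos h).2 : ℕ)) (fun q => ((e q : Pos h).1 : ℕ)) (l := l) (l' := l') (w := w)
    (by omega)
    (fun q => by
      obtain ⟨h1, h2, h3⟩ := hTmem q
      exact ((hx _ h1).2 h2).1)
    (fun q => by
      have h1 := (e q : Pos h).2.2
      have h2 : l' < h := by omega
      show ((e q : Pos h).2 : ℕ) + (l' - ((e q : Pos h).1 : ℕ)) < p
      omega)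
    (by
      have : T.card ≤ s := (Finset.card_filter_le _ _).trans hS
      exact (Nat.pow_le_pow_left this 2).trans hw) L
  have hL'3 : ∀ x ∈ S, l < (x.1 : ℕ) → (x.1 : ℕ) ≤ l' →
      L' (X ^ (x.2 : ℕ) * (1 + X) ^ (l' - (x.1 : ℕ))) = 0 := by
    intro x hxS h1 h2
    have hxT : x ∈ T := Finset.mem_filter.2 ⟨hxS, h1, h2⟩
    have := hL'2 (T.equivFin ⟨x, hxT⟩)
    rwa [he, Equiv.symm_apply_apply] at this
  refine ⟨fun x => if (x.1 : ℕ) ≤ l' then L' (X ^ (x.2 : ℕ) * (1 + X) ^ (l' - (x.1 : ℕ))) else 0,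
    ?_, l', L', ?_, ?_, ?_⟩
  · intro x hxS
    by_cases h1 : (x.1 : ℕ) ≤ l'
    · simp only [if_pos h1]
      by_cases h2 : (x.1 : ℕ) ≤ l
      · rw [(hx x hxS).1 h2, ← hL'1]
        congr 1
        have h3 : l' - (x.1 : ℕ) = (l' - l) + (l - (x.1 : ℕ)) := by omega
        rw [h3, pow_add]; ring
      · rw [((hx x hxS).2 (by omega)).2]
        exact hL'3 x hxS (by omega) h1
    · simp only [if_neg h1]
      exact ((hx x hxS).2 (by omega)).2.symm
  · omega
  · rw [← hL, ← hL'1]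
    congr 1
    rw [← pow_add]
    congr 1
    omega
  · intro x hxS
    refine ⟨fun h1 => by simp only [if_pos h1], fun h1 => ⟨?_, ?_⟩⟩
    · by_contra h2
      apply hk x hxS
      have : w * (k + 1) = w * k + w := by ring
      omega
    · have h2 : ¬ (x.1 : ℕ) ≤ l' := by omega
      simp only [if_neg h2]

/-- The strategy can start. -/
theorem good_start {w stp h j : ℕ} (hlt : w + j * stp < h) (F : Pos h → ZMod p) :
    Good p w stp h j ∅ F := by
  refine ⟨0, Polynomial.lcoeff (ZMod p) 0, by omega, ?_, ?_⟩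
  · simp
  · intro x hx; simp at hx

theorem good_apex {w stp h j : ℕ} {S : Finset (Pos h)} {F : Pos h → ZMod p}
    (hG : Good p w stp h j S F) (h0 : ((0, 0) : Pos h) ∈ S) : F (0, 0) = 1 := by
  obtain ⟨l, L, -, hL, hx⟩ := hG
  rw [(hx _ h0).1 (by simp), ← hL]
  simp

theorem good_bottom {w stp h j : ℕ} {S : Finset (Pos h)} {F : Pos h → ZMod p}
    (hG : Good p w stp h j S F) {x : Pos h} (hxS : x ∈ S) (hxh : (x.1 : ℕ) = h) : F x = 0 := by
  obtain ⟨l, L, hlt, hL, hx⟩ := hG
  exact ((hx x hxS).2 (by omega)).2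

theorem good_rule {w stp h j : ℕ} (hw : 0 < w) {S : Finset (Pos h)} {F : Pos h → ZMod p}
    (hG : Good p w stp h j S F) {x y z : Pos h} (hxS : x ∈ S) (hyS : y ∈ S) (hzS : z ∈ S)
    (hy1 : (y.1 : ℕ) = x.1 + 1) (hy2 : (y.2 : ℕ) = x.2) (hz1 : (z.1 : ℕ) = x.1 + 1)
    (hz2 : (z.2 : ℕ) = x.2 + 1) : F x = F y + F z := by
  obtain ⟨l, L, hlt, hL, hx⟩ := hG
  rcases Nat.lt_trichotomy (x.1 : ℕ) l with h1 | h1 | h1
  · rw [(hx x hxS).1 h1.le, (hx y hyS).1 (by omega), (hx z hzS).1 (by omega), ← map_add]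
    congr 1
    have h2 : l - (x.1 : ℕ) = (l - (y.1 : ℕ)) + 1 := by omega
    have h3 : l - (z.1 : ℕ) = l - (y.1 : ℕ) := by omega
    rw [h2, h3, hy2, hz2]
    ring
  · have := ((hx y hyS).2 (by omega)).1
    omega
  · rw [((hx x hxS).2 h1).2, ((hx y hyS).2 (by omega)).2, ((hx z hzS).2 (by omega)).2, add_zero]

end

end H553R2
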