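import Mathlib

/-!
# Labelled trees which look the same when few nodes are inspected
-/

namespace H553R2

open Finset Equiv

/-- a set of nodes closed under taking parents -/
def ClosedIn {V : Type*} (ch : V → Finset V) (root : V) (S : Finset V) : Prop :=
  root ∈ S ∧ ∀ v w, w ∈ ch v → w ∈ S → v ∈ S

/-- automorphisms -/
def AutIn {V : Type*} (ch : V → Finset V) (ht : V → ℕ) (σ : Perm V) : Prop :=
  (∀ v w, w ∈ ch v ↔ σ w ∈ ch (σ v)) ∧ ∀ v, ht (σ v) = ht v

/-- A finite rooted tree in which sibling subtrees can be exchanged. -/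
structure STree (V : Type*) where
  ch : V → Finset V
  ht : V → ℕ
  root : V
  ht_ch : ∀ v w, w ∈ ch v → ht v = ht w + 1
  par : ∀ w, w ≠ root → ∃ v, w ∈ ch v
  uniq : ∀ v v' w, w ∈ ch v → w ∈ ch v' → v = v'
  swap : ∀ v w u, w ∈ ch v → u ∈ ch v → ∃ σ : Perm V, AutIn ch ht σ ∧ σ w = u ∧
    ∀ S : Finset V, ClosedIn ch root S → w ∉ S → u ∉ S → ∀ x ∈ S, σ x = x

/-- The data for the labels: a node with label `c` of height `i` has `c` groups of children with the
labels `p i` and `m - c` groups with the labels `p' i`. -/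
structure LabData (s : ℕ) where
  m : ℕ
  G : ℕ
  p : ℕ → Fin G → ℕ
  p' : ℕ → Fin G → ℕ
  psum : ∀ i, 2 ≤ i → ∀ e ≤ s, ∑ k, p i k ^ e = ∑ k, p' i k ^ e

section

variable {V : Type*} [Fintype V] [DecidableEq V] (T : STree V) {s : ℕ} (D : LabData s)

/-- the family of labellings -/
def Fam (c : V → ℕ) : Prop := ∀ v, 1 ≤ T.ht v → ∀ φ : ℕ → ℚ,
  ∑ w ∈ T.ch v, φ (c w) = c v * ∑ k, φ (D.p (T.ht v) k) + ((D.m : ℚ) - c v) * ∑ k, φ (D.p' (T.ht v) k)

theorem fam_comp {c : V → ℕ} (hc : Fam T D c) {σ : Perm V} (hσ : AutIn T.ch T.ht σ) :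
    Fam T D (c ∘ σ) := by
  intro v hv φ
  have h1 : ∑ w ∈ T.ch v, φ ((c ∘ σ) w) = ∑ w ∈ T.ch (σ v), φ (c w) := by
    apply sum_equiv σ
    · intro w; exact hσ.1 v w
    · intro w _; rfl
  rw [h1, hc (σ v) (by rw [hσ.2]; exact hv), hσ.2]
  rfl

/-- `g` only depends on the labels of the nodes in `S` of height at most `j` -/
def DepOn (S : Finset V) (j : ℕ) (g : (V → ℕ) → ℚ) : Prop :=
  ∀ c c' : V → ℕ, (∀ v ∈ S, T.ht v ≤ j → c v = c' v) → g c = g c'

/-- polynomials of degree `≤ δ` in the labels of nodes of `S` of height `j + 1`, the coefficients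
depending on the labels of nodes of `S` of height `≤ j` -/
inductive Pol (j : ℕ) (S : Finset V) (δ : ℕ) : ((V → ℕ) → ℚ) → Prop
  | mono (g : (V → ℕ) → ℚ) (e : V → ℕ) (hg : DepOn T S j g)
      (he : ∀ v, e v ≠ 0 → v ∈ S ∧ T.ht v = j + 1) (hδ : ∑ v, e v ≤ δ) (f : (V → ℕ) → ℚ)
      (hf : ∀ c, Fam T D c → f c = g c * ∏ v, (c v : ℚ) ^ e v) : Pol j S δ f
  | add (f f' f'' : (V → ℕ) → ℚ) (h : Pol j S δ f) (h' : Pol j S δ f')
      (hf : ∀ c, Fam T D c → f'' c = f c + f' c) : Pol j S δ f''

variable {T D}

theorem Pol.congr {j : ℕ} {S : Finset V} {δ : ℕ} {f f' : (V → ℕ) → ℚ} (h : Pol T D j S δ f)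
    (hf : ∀ c, Fam T D c → f' c = f c) : Pol T D j S δ f' := by
  refine Pol.add f (fun _ => 0) f' h (Pol.mono (fun _ => 0) (fun _ => 0) (fun _ _ _ => rfl)
    (fun v h => absurd rfl h) (by simp) _ (fun c _ => by simp)) (fun c hc => by rw [hf c hc, add_zero])

theorem Pol.zero {j : ℕ} {S : Finset V} {δ : ℕ} : Pol T D j S δ (fun _ => 0) :=
  Pol.mono (fun _ => 0) (fun _ => 0) (fun _ _ _ => rfl)
    (fun v h => absurd rfl h) (by simp) _ (fun c _ => by simp)

theorem Pol.sum {ι : Type*} {j : ℕ} {S : Finset V} {δ : ℕ} (I : Finset ι)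
    (F : ι → (V → ℕ) → ℚ) (h : ∀ i ∈ I, Pol T D j S δ (F i)) :
    Pol T D j S δ (fun c => ∑ i ∈ I, F i c) := by
  classical
  induction I using Finset.induction_on with
  | empty => simpa using Pol.zero
  | insert a I ha ih =>
    refine Pol.add (F a) (fun c => ∑ i ∈ I, F i c) _ (h a (mem_insert_self _ _))
      (ih fun i hi => h i (mem_insert_of_mem hi)) (fun c _ => ?_)
    rw [sum_insert ha]

theorem Pol.eq_of_agree {j : ℕ} {S : Finset V} {δ : ℕ} {f : (V → ℕ) → ℚ} (h : Pol T D j S δ f)
    {c c' : V → ℕ} (hc : Fam T D c) (hc' : Fam T D c')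
    (hcc : ∀ v ∈ S, T.ht v ≤ j + 1 → c v = c' v) : f c = f c' := by
  induction h with
  | mono g e hg he hδ f hf =>
    rw [hf c hc, hf c' hc', hg c c' (fun v hv hj => hcc v hv (by omega))]
    congr 1
    apply prod_congr rfl
    intro v _
    by_cases hv : e v = 0
    · rw [hv, pow_zero, pow_zero]
    · obtain ⟨h1, h2⟩ := he v hv
      rw [hcc v h1 (by omega)]
  | add f f' f'' _ _ hf ih ih' => rw [hf c hc, hf c' hc', ih, ih']

theorem update_sum (e : V → ℕ) (u : V) (k : ℕ) (hu : e u = 0) :
    ∑ v, Function.update e u k v = ∑ v, e v + k := by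
  rw [← add_sum_erase univ _ (mem_univ u), ← add_sum_erase univ e (mem_univ u)]
  rw [Function.update_self, hu, zero_add, add_comm]
  congr 1
  apply sum_congr rfl
  intro v hv
  rw [Function.update_of_ne (ne_of_mem_erase hv)]

theorem update_add_sum (e : V → ℕ) (u : V) (k : ℕ) :
    ∑ v, Function.update e u (e u + k) v = ∑ v, e v + k := by
  rw [← add_sum_erase univ _ (mem_univ u), ← add_sum_erase univ e (mem_univ u)]
  rw [Function.update_self]
  have : ∑ v ∈ univ.erase u, Function.update e u (e u + k) v = ∑ v ∈ univ.erase u, e v := by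
    apply sum_congr rfl
    intro v hv
    rw [Function.update_of_ne (ne_of_mem_erase hv)]
  rw [this]; ring

theorem update_add_prod (c : V → ℕ) (e : V → ℕ) (u : V) (k : ℕ) :
    ∏ v, (c v : ℚ) ^ Function.update e u (e u + k) v = (∏ v, (c v : ℚ) ^ e v) * (c u : ℚ) ^ k := by
  rw [← mul_prod_erase univ _ (mem_univ u), ← mul_prod_erase univ (fun v => (c v : ℚ) ^ e v)
    (mem_univ u)]
  rw [Function.update_self]
  have : ∏ v ∈ univ.erase u, (c v : ℚ) ^ Function.update e u (e u + k) v
      = ∏ v ∈ univ.erase u, (c v : ℚ) ^ e v := by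
    apply prod_congr rfl
    intro v hv
    rw [Function.update_of_ne (ne_of_mem_erase hv)]
  rw [this]; ring

/-- **Averaging over the position of one node.** -/
theorem Pol.remove {j : ℕ} {S : Finset V} {δ : ℕ} (hδs : δ ≤ s)
    {v w : V} (hwv : w ∈ T.ch v) (hv : v ∈ S) (hw : w ∉ S) (σ : V → Perm V)
    (hσ : ∀ u ∈ T.ch v \ S, AutIn T.ch T.ht (σ u) ∧ σ u w = u ∧ ∀ x ∈ S, σ u x = x)
    {f : (V → ℕ) → ℚ} (hf : Pol T D j (insert w S) δ f) :
    Pol T D j S (δ + 1) (fun c => ∑ u ∈ T.ch v \ S, f (c ∘ σ u)) := by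
  induction hf with
  | add f f' f'' _ _ hf ih ih' =>
    refine Pol.add _ _ _ ih ih' (fun c hc => ?_)
    rw [← sum_add_distrib]
    apply sum_congr rfl
    intro u hu
    exact hf _ (fam_comp T D hc (hσ u hu).1)
  | mono g e hg he hδ f hf =>
    -- the exponents without `w`
    set e₀ : V → ℕ := Function.update e w 0 with he₀
    have hsum₀ : ∑ x, e₀ x + e w = ∑ x, e x := by
      have h1 := update_sum e₀ w (e w) (by rw [he₀, Function.update_self])
      rw [← h1]
      apply sum_congr rfl
      intro x _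
      by_cases hx : x = w
      · subst hx; rw [Function.update_self]
      · rw [Function.update_of_ne hx, he₀, Function.update_of_ne hx]
    have hsupp₀ : ∀ x, e₀ x ≠ 0 → x ∈ S ∧ T.ht x = j + 1 := by
      intro x hx
      have hxw : x ≠ w := by
        rintro rfl
        rw [he₀, Function.update_self] at hx
        exact hx rfl
      rw [he₀, Function.update_of_ne hxw] at hx
      obtain ⟨h1, h2⟩ := he x hx
      exact ⟨(mem_insert.1 h1).resolve_left hxw, h2⟩
    -- the basic formula
    have hform : ∀ c, Fam T D c → ∀ u ∈ T.ch v \ S, f (c ∘ σ u)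
        = g (Function.update c w (c u)) * (c u : ℚ) ^ e w * ∏ x, (c x : ℚ) ^ e₀ x := by
      intro c hc u hu
      obtain ⟨h1, h2, h3⟩ := hσ u hu
      rw [hf _ (fam_comp T D hc h1)]
      have h4 : g (c ∘ σ u) = g (Function.update c w (c u)) := by
        apply hg
        intro x hx _
        rcases mem_insert.1 hx with rfl | hx
        · rw [Function.update_self, Function.comp_apply, h2]
        · have hxw : x ≠ w := fun h => hw (h ▸ hx)
          rw [Function.update_of_ne hxw, Function.comp_apply, h3 x hx]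
      have h5 : ∏ x, (((c ∘ σ u) x : ℕ) : ℚ) ^ e x
          = (c u : ℚ) ^ e w * ∏ x, (c x : ℚ) ^ e₀ x := by
        rw [← mul_prod_erase univ _ (mem_univ w),
          ← mul_prod_erase univ (fun x => (c x : ℚ) ^ e₀ x) (mem_univ w)]
        rw [Function.comp_apply, h2, he₀, Function.update_self, pow_zero, one_mul]
        congr 1
        apply prod_congr rfl
        intro x hx
        have hxw := ne_of_mem_erase hx
        rw [Function.update_of_ne hxw]
        by_cases hex : e x = 0
        · rw [hex, pow_zero, pow_zero]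
        · have := (mem_insert.1 (he x hex).1).resolve_left hxw
          rw [Function.comp_apply, h3 x this]
      rw [h4, h5]; ring
    have hht : T.ht v = T.ht w + 1 := T.ht_ch v w hwv
    have hsplit : ∀ (c : V → ℕ) (Φ : ℕ → ℚ), Fam T D c → ∑ u ∈ T.ch v \ S, Φ (c u)
        = c v * ∑ k, Φ (D.p (T.ht v) k) + ((D.m : ℚ) - c v) * ∑ k, Φ (D.p' (T.ht v) k)
          - ∑ u ∈ T.ch v ∩ S, Φ (c u) := by
      intro c Φ hc
      have h1 := hc v (by omega) Φ
      have h2 := sum_inter_add_sum_sdiff (T.ch v) S (fun u => Φ (c u))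
      linarith
    rcases Nat.lt_or_ge j (T.ht w) with hjw | hjw
    · -- `w` has height `> j`
      have hgw : ∀ (c : V → ℕ) a, g (Function.update c w a) = g c := by
        intro c a
        apply hg
        intro x hx hxj
        have hxw : x ≠ w := by rintro rfl; omega
        rw [Function.update_of_ne hxw]
      by_cases hew : e w = 0
      · refine Pol.mono (fun c => ((T.ch v \ S).card : ℚ) * g c) e₀ ?_ hsupp₀ (by omega) _ ?_
        · intro c c' hcc
          dsimp only
          rw [hg c c']
          intro x hx hxj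
          rcases mem_insert.1 hx with rfl | hx
          · omega
          · exact hcc x hx hxj
        · intro c hc
          rw [sum_congr rfl (hform c hc)]
          simp only [hgw, hew, pow_zero, mul_one]
          rw [sum_const, nsmul_eq_mul]; ring
      · have hwj : T.ht w = j + 1 := (he w hew).2
        have hdep : DepOn T S j g := by
          intro c c' hcc
          apply hg
          intro x hx hxj
          rcases mem_insert.1 hx with rfl | hx
          · omega
          · exact hcc x hx hxj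
        have hP : ∑ k, ((D.p (T.ht v) k : ℕ) : ℚ) ^ e w = ∑ k, ((D.p' (T.ht v) k : ℕ) : ℚ) ^ e w := by
          have h1 := D.psum (T.ht v) (by omega) (e w) (by omega)
          exact_mod_cast h1
        refine Pol.add (fun c => (D.m * ∑ k, ((D.p (T.ht v) k : ℕ) : ℚ) ^ e w) * g c *
            ∏ x, (c x : ℚ) ^ e₀ x)
          (fun c => ∑ u ∈ T.ch v ∩ S, (-g c) * ∏ x, (c x : ℚ) ^ (Function.update e₀ u (e₀ u + e w)) x)
          _ ?_ ?_ ?_
        · refine Pol.mono (fun c => (D.m * ∑ k, ((D.p (T.ht v) k : ℕ) : ℚ) ^ e w) * g c) e₀ ?_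
            hsupp₀ (by omega) _ (fun c _ => rfl)
          intro c c' hcc
          dsimp only
          rw [hdep c c' hcc]
        · apply Pol.sum
          intro u hu
          refine Pol.mono (fun c => -g c) (Function.update e₀ u (e₀ u + e w)) ?_ ?_ ?_ _
            (fun c _ => rfl)
          · intro c c' hcc
            dsimp only
            rw [hdep c c' hcc]
          · intro x hx
            by_cases hxu : x = u
            · subst hxu
              have h1 := T.ht_ch v x (mem_inter.1 hu).1
              exact ⟨(mem_inter.1 hu).2, by omega⟩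
            · rw [Function.update_of_ne hxu] at hx
              exact hsupp₀ x hx
          · rw [update_add_sum]; omega
        · intro c hc
          rw [sum_congr rfl (hform c hc)]
          simp only [hgw]
          rw [← sum_mul]
          rw [hsplit c (fun a => g c * (a : ℚ) ^ e w) hc]
          simp only [update_add_prod]
          rw [← mul_sum, ← mul_sum, ← hP, sub_mul]
          have h1 : ∑ u ∈ T.ch v ∩ S, -g c * ((∏ x, (c x : ℚ) ^ e₀ x) * (c u : ℚ) ^ e w)
              = - ((∑ u ∈ T.ch v ∩ S, g c * (c u : ℚ) ^ e w) * ∏ x, (c x : ℚ) ^ e₀ x) := by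
            rw [sum_mul, ← sum_neg_distrib]
            apply sum_congr rfl
            intro u _
            ring
          rw [h1]
          ring
    · -- `w` has height `≤ j`
      have hew : e w = 0 := by
        by_contra h
        have := (he w h).2
        omega
      have hupd : ∀ c c' : V → ℕ, (∀ x ∈ S, T.ht x ≤ j → c x = c' x) →
          (fun a : ℕ => g (Function.update c w a)) = fun a => g (Function.update c' w a) := by
        intro c c' hcc
        funext a
        apply hg
        intro x hx hxj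
        by_cases hxw : x = w
        · subst hxw; rw [Function.update_self, Function.update_self]
        · rw [Function.update_of_ne hxw, Function.update_of_ne hxw]
          exact hcc x ((mem_insert.1 hx).resolve_left hxw) hxj
      have hrest : ∀ c c' : V → ℕ, (∀ x ∈ S, T.ht x ≤ j → c x = c' x) →
          ∑ u ∈ T.ch v ∩ S, g (Function.update c w (c u))
            = ∑ u ∈ T.ch v ∩ S, g (Function.update c' w (c' u)) := by
        intro c c' hcc
        apply sum_congr rfl
        intro u hu
        have h1 := T.ht_ch v u (mem_inter.1 hu).1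
        rw [← hcc u (mem_inter.1 hu).2 (by omega)]
        exact congrFun (hupd c c' hcc) (c u)
      have htot : ∀ c, Fam T D c → ∑ u ∈ T.ch v \ S, f (c ∘ σ u)
          = (c v * ∑ k, g (Function.update c w (D.p (T.ht v) k))
              + ((D.m : ℚ) - c v) * ∑ k, g (Function.update c w (D.p' (T.ht v) k))
              - ∑ u ∈ T.ch v ∩ S, g (Function.update c w (c u))) * ∏ x, (c x : ℚ) ^ e₀ x := by
        intro c hc
        rw [sum_congr rfl (hform c hc)]
        simp only [hew, pow_zero, mul_one]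
        rw [← sum_mul, hsplit c (fun a => g (Function.update c w a)) hc]
      rcases Nat.lt_or_ge j (T.ht v) with hjv | hjv
      · -- `v` has height `j + 1`
        have hvj : T.ht v = j + 1 := by omega
        refine Pol.add
          (fun c => (D.m * ∑ k, g (Function.update c w (D.p' (T.ht v) k))
            - ∑ u ∈ T.ch v ∩ S, g (Function.update c w (c u))) * ∏ x, (c x : ℚ) ^ e₀ x)
          (fun c => (∑ k, g (Function.update c w (D.p (T.ht v) k))
            - ∑ k, g (Function.update c w (D.p' (T.ht v) k))) *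
              ∏ x, (c x : ℚ) ^ (Function.update e₀ v (e₀ v + 1)) x) _ ?_ ?_ ?_
        · refine Pol.mono _ e₀ ?_ hsupp₀ (by omega) _ (fun c _ => rfl)
          intro c c' hcc
          dsimp only
          rw [hrest c c' hcc]
          have h1 := hupd c c' hcc
          have h2 : ∀ a, g (Function.update c w a) = g (Function.update c' w a) := congrFun h1
          simp only [h2]
        · refine Pol.mono _ (Function.update e₀ v (e₀ v + 1)) ?_ ?_ ?_ _ (fun c _ => rfl)
          · intro c c' hcc
            have h1 := hupd c c' hcc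
            have h2 : ∀ a, g (Function.update c w a) = g (Function.update c' w a) := congrFun h1
            simp only [h2]
          · intro x hx
            by_cases hxv : x = v
            · subst hxv
              exact ⟨hv, hvj⟩
            · rw [Function.update_of_ne hxv] at hx
              exact hsupp₀ x hx
          · rw [update_add_sum]; omega
        · intro c hc
          rw [htot c hc, update_add_prod, pow_one]
          ring
      · -- `v` has height `≤ j`
        refine Pol.mono (fun c => c v * ∑ k, g (Function.update c w (D.p (T.ht v) k))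
              + ((D.m : ℚ) - c v) * ∑ k, g (Function.update c w (D.p' (T.ht v) k))
              - ∑ u ∈ T.ch v ∩ S, g (Function.update c w (c u))) e₀ ?_ hsupp₀ (by omega) _ htot
        intro c c' hcc
        have h1 := hupd c c' hcc
        have h2 : ∀ a, g (Function.update c w a) = g (Function.update c' w a) := congrFun h1
        show _ = (c' v : ℚ) * ∑ k, g (Function.update c' w (D.p (T.ht v) k))
              + ((D.m : ℚ) - c' v) * ∑ k, g (Function.update c' w (D.p' (T.ht v) k))
              - ∑ u ∈ T.ch v ∩ S, g (Function.update c' w (c' u))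
        rw [← hrest c c' hcc, ← hcc v hv hjv]
        simp only [h2]

/-- the automorphisms fixing `S` pointwise -/
def Gam (T : STree V) (S : Finset V) : Subgroup (Perm V) where
  carrier := {σ | AutIn T.ch T.ht σ ∧ ∀ x ∈ S, σ x = x}
  one_mem' := ⟨⟨fun _ _ => Iff.rfl, fun _ => rfl⟩, fun _ _ => rfl⟩
  mul_mem' := by
    rintro σ τ ⟨⟨h1, h2⟩, h3⟩ ⟨⟨h4, h5⟩, h6⟩
    refine ⟨⟨fun v w => ?_, fun v => ?_⟩, fun x hx => ?_⟩
    · rw [h4 v w, h1]; rfl
    · rw [Perm.mul_apply, h2, h5]
    · rw [Perm.mul_apply, h6 x hx, h3 x hx]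
  inv_mem' := by
    rintro σ ⟨⟨h1, h2⟩, h3⟩
    refine ⟨⟨fun v w => ?_, fun v => ?_⟩, fun x hx => ?_⟩
    · rw [h1 (σ⁻¹ v) (σ⁻¹ w)]
      simp
    · rw [← h2 (σ⁻¹ v)]; simp
    · rw [Perm.inv_eq_iff_eq, h3 x hx]

theorem mem_Gam {S : Finset V} {σ : Perm V} :
    σ ∈ Gam T S ↔ AutIn T.ch T.ht σ ∧ ∀ x ∈ S, σ x = x := Iff.rfl

/-- **Averaging.** -/
theorem avg {j : ℕ} {S : Finset V} [Fintype (Gam T S)] (hS : ClosedIn T.ch T.root S) :
    ∀ (k : ℕ) (S' : Finset V) (δ : ℕ) (f : (V → ℕ) → ℚ), ClosedIn T.ch T.root S' → S ⊆ S' →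
      (S' \ S).card = k → δ + k ≤ s + 1 → Pol T D j S' δ f →
      ∀ c c' : V → ℕ, Fam T D c → Fam T D c' → (∀ v ∈ S, T.ht v ≤ j + 1 → c v = c' v) →
        ∑ τ : Gam T S, f (c ∘ τ.1) = ∑ τ : Gam T S, f (c' ∘ τ.1) := by
  classical
  intro k
  induction k with
  | zero =>
    intro S' δ f hS' hSS hcard hδ hf c c' hc hc' hcc
    have hSe : S' = S := by
      apply Subset.antisymm _ hSS
      rw [← sdiff_eq_empty_iff_subset]
      exact card_eq_zero.1 hcard
    subst hSe
    apply sum_congr rfl
    intro τ _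
    obtain ⟨h1, h2⟩ := mem_Gam.1 τ.2
    apply hf.eq_of_agree (fam_comp T D hc h1) (fam_comp T D hc' h1)
    intro v hv hvj
    rw [Function.comp_apply, Function.comp_apply, h2 v hv]
    exact hcc v hv hvj
  | succ k ih =>
    intro S' δ f hS' hSS hcard hδ hf c c' hc hc' hcc
    have hne : (S' \ S).Nonempty := card_pos.1 (by omega)
    obtain ⟨w, hw, hwmin⟩ := exists_min_image (S' \ S) T.ht hne
    obtain ⟨hwS', hwS⟩ := mem_sdiff.1 hw
    have hwroot : w ≠ T.root := fun h => hwS (h ▸ hS.1)
    obtain ⟨v, hv⟩ := T.par w hwroot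
    have hvS' : v ∈ S' := hS'.2 v w hv hwS'
    have hht := T.ht_ch v w hv
    have hvw : v ≠ w := by rintro rfl; omega
    set S'' := S'.erase w with hS''
    have hS''c : ClosedIn T.ch T.root S'' := by
      refine ⟨mem_erase.2 ⟨fun h => hwroot h.symm, hS'.1⟩, ?_⟩
      intro x y hxy hy
      rw [hS'', mem_erase] at hy ⊢
      refine ⟨?_, hS'.2 x y hxy hy.2⟩
      rintro rfl
      have h1 := T.ht_ch x y hxy
      by_cases hyS : y ∈ S
      · exact hwS (hS.2 x y hxy hyS)
      · have := hwmin y (mem_sdiff.2 ⟨hy.2, hyS⟩)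
        omega
    have hins : insert w S'' = S' := insert_erase hwS'
    have hSS'' : S ⊆ S'' := fun x hx => mem_erase.2 ⟨fun h => hwS (h ▸ hx), hSS hx⟩
    have hcard'' : (S'' \ S).card = k := by
      have h1 : S'' \ S = (S' \ S).erase w := by
        ext x
        simp only [hS'', mem_sdiff, mem_erase]
        tauto
      rw [h1, card_erase_of_mem hw, hcard]
      rfl
    have hsw : ∀ u, u ∈ T.ch v \ S'' → ∃ σ : Perm V, AutIn T.ch T.ht σ ∧ σ w = u ∧
        ∀ x ∈ S'', σ x = x := by
      intro u hu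
      obtain ⟨h1, h2⟩ := mem_sdiff.1 hu
      obtain ⟨σ, h3, h4, h5⟩ := T.swap v w u hv h1
      exact ⟨σ, h3, h4, h5 S'' hS''c (by rw [hS'']; simp) h2⟩
    choose! σ hσ using hsw
    have hpol := Pol.remove (T := T) (D := D) (j := j) (S := S'') (δ := δ) (by omega) hv
      (mem_erase.2 ⟨hvw, hvS'⟩) (by rw [hS'']; simp) σ hσ (by rw [hins]; exact hf)
    have h1 := ih S'' (δ + 1) _ hS''c hSS'' hcard'' (by omega) hpol c c' hc hc' hcc
    have key : ∀ c : V → ℕ, ∑ τ : Gam T S, ∑ u ∈ T.ch v \ S'', f ((c ∘ τ.1) ∘ σ u)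
        = (T.ch v \ S'').card * ∑ τ : Gam T S, f (c ∘ τ.1) := by
      intro c
      rw [sum_comm, ← nsmul_eq_mul, ← sum_const]
      apply sum_congr rfl
      intro u hu
      have hmem : σ u ∈ Gam T S := ⟨(hσ u hu).1, fun x hx => (hσ u hu).2.2 x (hSS'' hx)⟩
      exact Fintype.sum_equiv (Equiv.mulRight (⟨σ u, hmem⟩ : Gam T S)) _ _ (fun τ => rfl)
    rw [key c, key c'] at h1
    have hpos : ((T.ch v \ S'').card : ℚ) ≠ 0 := by
      have : 0 < (T.ch v \ S'').card := card_pos.2 ⟨w, mem_sdiff.2 ⟨hv, by rw [hS'']; simp⟩⟩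
      positivity
    exact mul_left_cancel₀ hpos h1

end

end H553R2
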