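import Mathlib

/-!
# Two sets of numbers with equal power sums, only one of which contains zero
-/

namespace H553R2

open Finset

theorem pte_pow (s : ℕ) : 8 * (s + 1) ^ 3 < 2 ^ (4 * (s + 1)) := by
  induction s with
  | zero => norm_num
  | succ s ih =>
    have h1 : (s + 1 + 1) ^ 3 ≤ 8 * (s + 1) ^ 3 := by
      calc (s + 1 + 1) ^ 3 ≤ (2 * (s + 1)) ^ 3 := Nat.pow_le_pow_left (by omega) 3
        _ = 8 * (s + 1) ^ 3 := by ring
    have h2 : 2 ^ (4 * (s + 1 + 1)) = 16 * 2 ^ (4 * (s + 1)) := by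
      rw [show 4 * (s + 1 + 1) = 4 + 4 * (s + 1) by ring, pow_add]; norm_num
    omega

/-- pigeonhole: two different subsets of `{0, …, m - 1}` with the same power sums -/
theorem pte_subsets (s m : ℕ) (hm : m = 4 * (s + 1) ^ 3) :
    ∃ A B : Finset ℕ, A ≠ B ∧ (∀ x ∈ A, x < m) ∧ (∀ x ∈ B, x < m) ∧
      ∀ e ≤ s, ∑ x ∈ A, x ^ e = ∑ x ∈ B, x ^ e := by
  classical
  have hm1 : 1 ≤ m := by rw [hm]; have : 1 ≤ (s + 1) ^ 3 := Nat.one_le_pow _ _ (by omega); omega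
  let T : Finset (Finset ℕ) := (range m).powerset
  have hbound : ∀ A ∈ T, ∀ e : Fin (s + 1), ∑ x ∈ A, x ^ (e : ℕ) < m ^ (s + 1) + 1 := by
    intro A hA e
    have hA' : A ⊆ range m := mem_powerset.1 hA
    have h1 : ∑ x ∈ A, x ^ (e : ℕ) ≤ ∑ x ∈ A, m ^ s := by
      apply sum_le_sum
      intro x hx
      have hx' : x < m := mem_range.1 (hA' hx)
      calc x ^ (e : ℕ) ≤ m ^ (e : ℕ) := Nat.pow_le_pow_left hx'.le _
        _ ≤ m ^ s := Nat.pow_le_pow_right hm1 (by omega)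
    have h2 : A.card ≤ m := by
      calc A.card ≤ (range m).card := card_le_card hA'
        _ = m := card_range m
    have h3 : ∑ x ∈ A, m ^ s ≤ m * m ^ s := by
      rw [sum_const, smul_eq_mul]
      exact Nat.mul_le_mul_right _ h2
    have h4 : m * m ^ s = m ^ (s + 1) := by rw [pow_succ]; ring
    omega
  let f : Finset ℕ → (Fin (s + 1) → Fin (m ^ (s + 1) + 1)) := fun A e =>
    ⟨(∑ x ∈ A, x ^ (e : ℕ)) % (m ^ (s + 1) + 1), Nat.mod_lt _ (by omega)⟩
  have hcard : Fintype.card (Fin (s + 1) → Fin (m ^ (s + 1) + 1)) < T.card := by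
    rw [Fintype.card_fun, Fintype.card_fin, Fintype.card_fin, card_powerset, card_range]
    calc (m ^ (s + 1) + 1) ^ (s + 1) ≤ ((2 * m) ^ (s + 1)) ^ (s + 1) := by
          apply Nat.pow_le_pow_left
          rw [mul_pow]
          have h1 : 1 ≤ m ^ (s + 1) := Nat.one_le_pow _ _ hm1
          have h2 : 2 ≤ 2 ^ (s + 1) := Nat.le_self_pow (by omega) 2
          nlinarith
      _ = (2 * m) ^ ((s + 1) * (s + 1)) := by rw [← pow_mul]
      _ < (2 ^ (4 * (s + 1))) ^ ((s + 1) * (s + 1)) := by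
          apply Nat.pow_lt_pow_left _ (by positivity)
          have := pte_pow s
          omega
      _ = 2 ^ m := by
          rw [← pow_mul, hm]; congr 1; ring
  obtain ⟨A, hA, B, hB, hne, hf⟩ := exists_ne_map_eq_of_card_lt_of_maps_to
    (s := T) (t := univ) (f := f) (by rw [card_univ]; exact hcard) (fun _ _ => mem_univ _)
  refine ⟨A, B, hne, fun x hx => mem_range.1 (mem_powerset.1 hA hx),
    fun x hx => mem_range.1 (mem_powerset.1 hB hx), fun e he => ?_⟩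
  have h1 := congrFun hf ⟨e, by omega⟩
  have h2 := congrArg Fin.val h1
  simp only [f] at h2
  rwa [Nat.mod_eq_of_lt (hbound A hA ⟨e, by omega⟩), Nat.mod_eq_of_lt (hbound B hB ⟨e, by omega⟩)]
    at h2

/-- shifting keeps equality of power sums -/
theorem pte_shift (s μ : ℕ) (A B : Finset ℕ) (hA : ∀ x ∈ A, μ ≤ x) (hB : ∀ x ∈ B, μ ≤ x)
    (h : ∀ e ≤ s, ∑ x ∈ A, x ^ e = ∑ x ∈ B, x ^ e) :
    ∀ e ≤ s, ∑ x ∈ A, (x - μ) ^ e = ∑ x ∈ B, (x - μ) ^ e := by
  intro e he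
  have key : ∀ C : Finset ℕ, (∀ x ∈ C, μ ≤ x) → ((∑ x ∈ C, (x - μ) ^ e : ℕ) : ℤ)
      = ∑ i ∈ range (e + 1), ((∑ x ∈ C, x ^ i : ℕ) : ℤ) * (-(μ : ℤ)) ^ (e - i) * (e.choose i) := by
    intro C hC
    push_cast
    have h1 : ∀ x ∈ C, ((x - μ : ℕ) : ℤ) ^ e
        = ∑ i ∈ range (e + 1), (x : ℤ) ^ i * (-(μ : ℤ)) ^ (e - i) * (e.choose i) := by
      intro x hx
      rw [Nat.cast_sub (hC x hx), sub_eq_add_neg, add_pow]
    rw [sum_congr rfl h1, sum_comm]
    apply sum_congr rfl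
    intro i _
    rw [sum_mul, sum_mul]
  have h1 : ((∑ x ∈ A, (x - μ) ^ e : ℕ) : ℤ) = ((∑ x ∈ B, (x - μ) ^ e : ℕ) : ℤ) := by
    rw [key A hA, key B hB]
    apply sum_congr rfl
    intro i hi
    rw [h i (by have := mem_range.1 hi; omega)]
  exact_mod_cast h1

/-- **Prouhet-Tarry-Escott** with a zero on one side only. -/
theorem pte (s : ℕ) : ∃ (G : ℕ) (p p' : Fin G → ℕ), 1 ≤ G ∧ G ≤ 4 * (s + 1) ^ 3 ∧
    (∀ k, p k ≤ 4 * (s + 1) ^ 3) ∧ (∀ k, p' k ≤ 4 * (s + 1) ^ 3) ∧ (∃ k, p k = 0) ∧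
    (∀ k, p' k ≠ 0) ∧ ∀ e ≤ s, ∑ k, p k ^ e = ∑ k, p' k ^ e := by
  classical
  obtain ⟨m, hm⟩ : ∃ m, m = 4 * (s + 1) ^ 3 := ⟨_, rfl⟩
  rw [← hm]
  obtain ⟨A, B, hne, hA, hB, hAB⟩ := pte_subsets s m hm
  -- make them disjoint
  have hd : ∀ e ≤ s, ∑ x ∈ A \ B, x ^ e = ∑ x ∈ B \ A, x ^ e := by
    intro e he
    have h1 := sum_inter_add_sum_sdiff A B (fun x => x ^ e)
    have h2 := sum_inter_add_sum_sdiff B A (fun x => x ^ e)
    rw [inter_comm B A] at h2
    have h3 := hAB e he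
    omega
  -- the minimum of the union; by symmetry it lies in the first set
  have main : ∀ D D' : Finset ℕ, Disjoint D D' → (∀ x ∈ D, x < m) → (∀ x ∈ D', x < m) →
      (∀ e ≤ s, ∑ x ∈ D, x ^ e = ∑ x ∈ D', x ^ e) → ∀ μ ∈ D, (∀ x ∈ D ∪ D', μ ≤ x) →
      ∃ (G : ℕ) (p p' : Fin G → ℕ), 1 ≤ G ∧ G ≤ m ∧
        (∀ k, p k ≤ m) ∧ (∀ k, p' k ≤ m) ∧ (∃ k, p k = 0) ∧
        (∀ k, p' k ≠ 0) ∧ ∀ e ≤ s, ∑ k, p k ^ e = ∑ k, p' k ^ e := by
    intro D D' hdis hD hD' hsum μ hμ hmin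
    have hc : D'.card = D.card := by
      have := hsum 0 (by omega)
      simpa using this.symm
    have hcm : D.card ≤ m := by
      have : D ⊆ range m := fun x hx => mem_range.2 (hD x hx)
      have := card_le_card this
      rwa [card_range] at this
    refine ⟨D.card, fun k => (D.equivFin.symm k : ℕ) - μ,
      fun k => ((D'.equivFinOfCardEq hc).symm k : ℕ) - μ, ?_, hcm, ?_, ?_, ?_, ?_, ?_⟩
    · exact card_pos.2 ⟨μ, hμ⟩
    · intro k
      have := hD _ (D.equivFin.symm k).2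
      show (D.equivFin.symm k : ℕ) - μ ≤ m
      omega
    · intro k
      have := hD' _ ((D'.equivFinOfCardEq hc).symm k).2
      show ((D'.equivFinOfCardEq hc).symm k : ℕ) - μ ≤ m
      omega
    · refine ⟨D.equivFin ⟨μ, hμ⟩, ?_⟩
      show (D.equivFin.symm (D.equivFin ⟨μ, hμ⟩) : ℕ) - μ = 0
      rw [Equiv.symm_apply_apply]; exact Nat.sub_self μ
    · intro k
      show ((D'.equivFinOfCardEq hc).symm k : ℕ) - μ ≠ 0
      have h1 := ((D'.equivFinOfCardEq hc).symm k).2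
      have h2 := hmin _ (mem_union_right _ h1)
      have h3 : ((D'.equivFinOfCardEq hc).symm k : ℕ) ≠ μ := by
        intro h
        rw [h] at h1
        exact disjoint_left.1 hdis hμ h1
      omega
    · intro e he
      have h1 := pte_shift s μ D D' (fun x hx => hmin x (mem_union_left _ hx))
        (fun x hx => hmin x (mem_union_right _ hx)) hsum e he
      have h2 : ∑ k, ((D.equivFin.symm k : ℕ) - μ) ^ e = ∑ x ∈ D, (x - μ) ^ e := by
        rw [← sum_coe_sort D (fun x => (x - μ) ^ e)]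
        exact Equiv.sum_comp D.equivFin.symm (fun x : D => ((x : ℕ) - μ) ^ e)
      have h3 : ∑ k, (((D'.equivFinOfCardEq hc).symm k : ℕ) - μ) ^ e
          = ∑ x ∈ D', (x - μ) ^ e := by
        rw [← sum_coe_sort D' (fun x => (x - μ) ^ e)]
        exact Equiv.sum_comp (D'.equivFinOfCardEq hc).symm (fun x : D' => ((x : ℕ) - μ) ^ e)
      rw [h2, h3, h1]
  have hU : ((A \ B) ∪ (B \ A)).Nonempty := by
    by_contra h
    rw [not_nonempty_iff_eq_empty, union_eq_empty, sdiff_eq_empty_iff_subset,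
      sdiff_eq_empty_iff_subset] at h
    exact hne (Subset.antisymm h.1 h.2)
  have hmin := fun x hx => min'_le ((A \ B) ∪ (B \ A)) x hx
  have hdis : Disjoint (A \ B) (B \ A) := disjoint_sdiff_sdiff
  rcases mem_union.1 (min'_mem _ hU) with h | h
  · exact main (A \ B) (B \ A) hdis (fun x hx => hA x (mem_sdiff.1 hx).1)
      (fun x hx => hB x (mem_sdiff.1 hx).1) hd _ h hmin
  · exact main (B \ A) (A \ B) hdis.symm (fun x hx => hB x (mem_sdiff.1 hx).1)
      (fun x hx => hA x (mem_sdiff.1 hx).1) (fun e he => (hd e he).symm) _ h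
      (by rw [union_comm]; exact hmin)

end H553R2
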