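import Pool.Agent.H553R2.Label
import Pool.Agent.H553R2.Pte

/-!
# The full tree with its labellings
-/

namespace H553R2

open Finset Equiv

/-- nodes: words of length at most `d` -/
abbrev Nd (I : Type) (d : ℕ) := {l : List I // l.length ≤ d}

instance (I : Type) [Finite I] (d : ℕ) : Finite (Nd I d) := (List.finite_length_le I d).to_subtype

noncomputable instance (I : Type) [Finite I] (d : ℕ) : Fintype (Nd I d) := Fintype.ofFinite _

/-- exchange the letters `i` and `j` after the word `v` -/
def sw {I : Type} [DecidableEq I] (v : List I) (i j : I) : List I → List I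
  | [] => []
  | a :: l => if l = v then Equiv.swap i j a :: l else a :: sw v i j l

section

variable {I : Type} [DecidableEq I] (v : List I) (i j : I)

theorem sw_length : ∀ l : List I, (sw v i j l).length = l.length
  | [] => rfl
  | a :: l => by
    rw [sw]
    split_ifs
    · rfl
    · rw [List.length_cons, List.length_cons, sw_length l]

theorem sw_eq_of_length : ∀ l : List I, l.length ≤ v.length → sw v i j l = l
  | [], _ => rfl
  | a :: l, h => by
    rw [List.length_cons] at h
    rw [sw, if_neg, sw_eq_of_length l (by omega)]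
    rintro rfl
    omega

theorem sw_sw : ∀ l : List I, sw v i j (sw v i j l) = l
  | [] => rfl
  | a :: l => by
    by_cases h : l = v
    · rw [sw, if_pos h, sw, if_pos h, Equiv.swap_apply_self]
    · rw [sw, if_neg h, sw, if_neg, sw_sw l]
      intro h'
      apply h
      have h1 : l.length = v.length := by rw [← sw_length v i j l, h']
      rw [← h', sw_eq_of_length v i j l h1.le]

theorem sw_cons (a : I) (l : List I) : ∃ b, sw v i j (a :: l) = b :: sw v i j l := by
  by_cases h : l = v
  · refine ⟨Equiv.swap i j a, ?_⟩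
    rw [sw, if_pos h, sw_eq_of_length v i j l (by rw [h])]
  · exact ⟨a, by rw [sw, if_neg h]⟩

/-- as a permutation of the nodes -/
def swPerm (d : ℕ) : Perm (Nd I d) where
  toFun x := ⟨sw v i j x.1, by rw [sw_length]; exact x.2⟩
  invFun x := ⟨sw v i j x.1, by rw [sw_length]; exact x.2⟩
  left_inv x := Subtype.ext (sw_sw v i j x.1)
  right_inv x := Subtype.ext (sw_sw v i j x.1)

end

section

variable {I : Type} [Fintype I] {d : ℕ}

open Classical in
/-- the children of a node -/
noncomputable def lch (v : Nd I d) : Finset (Nd I d) := univ.filter fun w => ∃ a, w.1 = a :: v.1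

theorem mem_lch {v w : Nd I d} : w ∈ lch v ↔ ∃ a, w.1 = a :: v.1 := by
  simp [lch]

theorem swPerm_aut [DecidableEq I] (v : List I) (i j : I) :
    AutIn (lch (I := I) (d := d)) (fun x => d - x.1.length) (swPerm v i j d) := by
  have key : ∀ x y : Nd I d, y ∈ lch x → swPerm v i j d y ∈ lch (swPerm v i j d x) := by
    intro x y hy
    rw [mem_lch] at hy ⊢
    obtain ⟨a, ha⟩ := hy
    obtain ⟨b, hb⟩ := sw_cons v i j a x.1
    refine ⟨b, ?_⟩
    show sw v i j y.1 = b :: sw v i j x.1
    rw [ha, hb]
  have hinv : ∀ x : Nd I d, swPerm v i j d (swPerm v i j d x) = x :=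
    fun x => Subtype.ext (sw_sw v i j x.1)
  refine ⟨fun x y => ⟨key x y, fun h => ?_⟩, fun x => ?_⟩
  · have := key _ _ h
    rwa [hinv, hinv] at this
  · show d - (sw v i j x.1).length = _
    rw [sw_length]

variable (I d) in
/-- the tree -/
noncomputable def ltree : STree (Nd I d) where
  ch := lch
  ht x := d - x.1.length
  root := ⟨[], by simp⟩
  ht_ch v w h := by
    obtain ⟨a, ha⟩ := mem_lch.1 h
    have h1 := w.2
    rw [ha, List.length_cons] at h1 ⊢
    omega
  par w hw := by
    obtain ⟨l, hl⟩ := w
    rcases l with _ | ⟨a, l⟩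
    · exact absurd rfl hw
    · exact ⟨⟨l, by rw [List.length_cons] at hl; omega⟩, mem_lch.2 ⟨a, rfl⟩⟩
  uniq v v' w h h' := by
    obtain ⟨a, ha⟩ := mem_lch.1 h
    obtain ⟨a', ha'⟩ := mem_lch.1 h'
    rw [ha] at ha'
    exact Subtype.ext (List.cons.inj ha').2
  swap v w u hw hu := by
    classical
    obtain ⟨i, hi⟩ := mem_lch.1 hw
    obtain ⟨j, hj⟩ := mem_lch.1 hu
    refine ⟨swPerm v.1 i j d, swPerm_aut v.1 i j, ?_, ?_⟩
    · apply Subtype.ext
      show sw v.1 i j w.1 = u.1
      rw [hi, hj, sw, if_pos rfl, Equiv.swap_apply_left]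
    · intro S hS hwS huS
      have key : ∀ (l : List I) (hl : l.length ≤ d), (⟨l, hl⟩ : Nd I d) ∈ S → sw v.1 i j l = l := by
        intro l
        induction l with
        | nil => intro _ _; rfl
        | cons a l ih =>
          intro hl hlS
          have hl' : l.length ≤ d := by rw [List.length_cons] at hl; omega
          have hlS' : (⟨l, hl'⟩ : Nd I d) ∈ S := hS.2 ⟨l, hl'⟩ ⟨a :: l, hl⟩ (mem_lch.2 ⟨a, rfl⟩) hlS
          rw [sw]
          split_ifs with hlv
          · rw [Equiv.swap_apply_of_ne_of_ne]
            · rintro rfl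
              apply hwS
              have : (⟨a :: l, hl⟩ : Nd I d) = w := Subtype.ext (by rw [hi, ← hlv])
              rwa [this] at hlS
            · rintro rfl
              apply huS
              have : (⟨a :: l, hl⟩ : Nd I d) = u := Subtype.ext (by rw [hj, ← hlv])
              rwa [this] at hlS
          · rw [ih hl' hlS']
      intro x hx
      exact Subtype.ext (key x.1 x.2 hx)

theorem ltree_ch (v : Nd I d) : (ltree I d).ch v = lch v := rfl

theorem ltree_ht (v : Nd I d) : (ltree I d).ht v = d - v.1.length := rfl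

/-- the children listed by their first letter -/
theorem sum_lch {v : Nd I d} (hv : 1 ≤ d - v.1.length) (F : List I → ℚ) :
    ∑ w ∈ lch v, F w.1 = ∑ a : I, F (a :: v.1) := by
  classical
  have hlt : ∀ a : I, (a :: v.1).length ≤ d := fun a => by rw [List.length_cons]; omega
  symm
  apply sum_bij (fun a _ => (⟨a :: v.1, hlt a⟩ : Nd I d))
  · intro a _; exact mem_lch.2 ⟨a, rfl⟩
  · intro a _ b _ h
    exact (List.cons.inj (Subtype.ext_iff.1 h)).1
  · intro w hw
    obtain ⟨a, ha⟩ := mem_lch.1 hw
    exact ⟨a, mem_univ _, Subtype.ext ha.symm⟩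
  · intro a _; rfl

theorem card_lch {v : Nd I d} (hv : 1 ≤ d - v.1.length) : (lch v).card = Fintype.card I := by
  have h := sum_lch hv (fun _ => 1)
  simp only [sum_const, nsmul_eq_mul, mul_one, card_univ] at h
  exact_mod_cast h

theorem card_Nd : Fintype.card (Nd I d) ≤ (Fintype.card I + 1) ^ d := by
  classical
  have h1 : Fintype.card (Fin d → Option I) = (Fintype.card I + 1) ^ d := by
    rw [Fintype.card_fun, Fintype.card_option, Fintype.card_fin]
  rw [← h1]
  apply Fintype.card_le_of_injective (fun (x : Nd I d) (k : Fin d) => x.1[(k : ℕ)]?)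
  intro x y hxy
  apply Subtype.ext
  apply List.ext_getElem?
  intro k
  rcases Nat.lt_or_ge k d with hk | hk
  · exact congrFun hxy ⟨k, hk⟩
  · rw [List.getElem?_eq_none (by have := x.2; omega), List.getElem?_eq_none (by have := y.2; omega)]

end

section labels

variable {m G : ℕ} (d : ℕ) (p p' : ℕ → Fin G → ℕ)

/-- labels from the root downwards -/
def lab (c0 : ℕ) : List (Fin m × Fin G) → ℕ
  | [] => c0
  | a :: l => if a.1.val < lab c0 l then p (d - l.length) a.2 else p' (d - l.length) a.2

theorem lab_le {c0 : ℕ} (hc0 : c0 ≤ m) (hp : ∀ i k, p i k ≤ m) (hp' : ∀ i k, p' i k ≤ m) :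
    ∀ l : List (Fin m × Fin G), lab d p p' c0 l ≤ m
  | [] => hc0
  | a :: l => by
    rw [lab]
    split_ifs
    · exact hp _ _
    · exact hp' _ _

theorem sum_lt_split {c : ℕ} (hc : c ≤ m) (x y : ℚ) :
    ∑ a : Fin m, (if a.val < c then x else y) = c * x + ((m : ℚ) - c) * y := by
  rw [Fin.sum_univ_eq_sum_range (fun a => if a < c then x else y) m]
  rw [← sum_filter_add_sum_filter_not (range m) (fun a => a < c)]
  have h1 : ∑ a ∈ (range m).filter (fun a => a < c), (if a < c then x else y) = c * x := by
    have h2 : (range m).filter (fun a => a < c) = range c := by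
      ext a; simp only [mem_filter, mem_range]; omega
    rw [h2, sum_congr rfl (g := fun _ => x)]
    · rw [sum_const, card_range, nsmul_eq_mul]
    · intro a ha; rw [if_pos (mem_range.1 ha)]
  have h2 : ∑ a ∈ (range m).filter (fun a => ¬ a < c), (if a < c then x else y)
      = ((m : ℚ) - c) * y := by
    rw [sum_congr rfl (g := fun _ => y)]
    · rw [sum_const, nsmul_eq_mul]
      congr 1
      have h3 : ((range m).filter (fun a => ¬ a < c)) = Ico c m := by
        ext a; simp only [mem_filter, mem_range, mem_Ico]; omega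
      rw [h3, Nat.card_Ico, Nat.cast_sub hc]
    · intro a ha; rw [if_neg (mem_filter.1 ha).2]
  rw [h1, h2]

theorem lab_fam {s : ℕ} (D : LabData s) {c0 : ℕ} (hc0 : c0 ≤ D.m) (hp : ∀ i k, D.p i k ≤ D.m)
    (hp' : ∀ i k, D.p' i k ≤ D.m) :
    Fam (ltree (Fin D.m × Fin D.G) d) D (fun v => lab (m := D.m) d D.p D.p' c0 v.1) := by
  intro v hv φ
  rw [ltree_ch]
  rw [ltree_ht] at hv ⊢
  rw [sum_lch hv (fun l => φ (lab (m := D.m) d D.p D.p' c0 l))]
  rw [Fintype.sum_prod_type]
  have hle := lab_le (m := D.m) d D.p D.p' hc0 hp hp' v.1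
  rw [← sum_lt_split hle]
  apply sum_congr rfl
  intro a _
  split_ifs with h
  · apply sum_congr rfl
    intro k _
    rw [lab, if_pos h]
  · apply sum_congr rfl
    intro k _
    rw [lab, if_neg h]

end labels

end H553R2
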