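import Mathlib

/-!
# Path systems and circuits invariant under relabelling
-/

namespace H553R2

open Equiv

/-- The elements: `n` interchangeable ones and a set `M` of distinguished ones. -/
abbrev Elt (n : ℕ) (M : Type*) := Fin n ⊕ M

/-- A path system: `R x y z` says that `x` is derivable as soon as `y` and `z` are. -/
abbrev PathSystem (n : ℕ) (M : Type*) := Elt n M → Elt n M → Elt n M → Prop

/-- The elements derivable from the axiom `s` by the rules of the path system `R`. -/
inductive Derivable {n : ℕ} {M : Type*} (R : PathSystem n M) (s : Elt n M) : Elt n M → Prop
  | base : Derivable R s s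
  | rule (x y z : Elt n M) : R x y z → Derivable R s y → Derivable R s z → Derivable R s x

/-- Renaming the interchangeable elements by `π`. -/
def ren {n : ℕ} {M : Type*} (π : Perm (Fin n)) : Elt n M → Elt n M := Sum.map π id

/-- A circuit reading a path system, with gates `Q`, all of whose parts are invariant under the
permutations of the interchangeable elements.  An input gate (`input q = some (x, y, z)`) reads
whether `R x y z`.  Every other gate reads, for each label `l`, the number of true gates `q'` among
those joined to it by a wire `wire q q' = some l`, and outputs an arbitrary function `gate q` of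
these numbers. -/
structure SymCircuit (n : ℕ) (M Λ Q : Type*) [MulAction (Perm (Fin n)) Q] where
  level : Q → ℕ
  input : Q → Option (Elt n M × Elt n M × Elt n M)
  wire : Q → Q → Option Λ
  gate : Q → (Λ → ℕ) → Prop
  out : Q
  level_lt : ∀ q q' l, wire q q' = some l → level q' < level q
  input_inv : ∀ (π : Perm (Fin n)) q,
    input (π • q) = (input q).map fun t => (ren π t.1, ren π t.2.1, ren π t.2.2)
  wire_inv : ∀ (π : Perm (Fin n)) q q', wire (π • q) (π • q') = wire q q'
  gate_inv : ∀ (π : Perm (Fin n)) q, gate (π • q) = gate q
  out_inv : ∀ π : Perm (Fin n), π • out = out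

/-- The value of the gate `q` on the path system `R`. -/
def SymCircuit.val {n : ℕ} {M Λ Q : Type*} [MulAction (Perm (Fin n)) Q]
    (C : SymCircuit n M Λ Q) (R : PathSystem n M) (q : Q) : Prop :=
  match C.input q with
  | some t => R t.1 t.2.1 t.2.2
  | none => C.gate q fun l =>
      Nat.card {q' : {q' : Q // C.wire q q' = some l} // C.val R q'.1}
termination_by C.level q
decreasing_by exact C.level_lt _ _ _ q'.2

end H553R2
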