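import Pool.Agent.H553R2.Game
import Pool.Agent.H553R2.Model
import Pool.Agent.H534R2.SymSupport

/-!
# The lower bound
-/

namespace H553R2

open Equiv

section shift

variable {p : ℕ} [Fact p.Prime] {h n : ℕ}

/-- shift the copies of the positions by `F` -/
def shBase (F : Pos h → ZMod p) : Perm (Pos h × ZMod p) where
  toFun x := (x.1, x.2 + F x.1)
  invFun x := (x.1, x.2 - F x.1)
  left_inv x := by simp
  right_inv x := by simp

variable (e : (Pos h × ZMod p) ↪ Fin n)

/-- the same on the interchangeable elements -/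
noncomputable def sh (F : Pos h → ZMod p) : Perm (Fin n) := (shBase F).viaFintypeEmbedding e

theorem sh_apply (F : Pos h → ZMod p) (x : Pos h) (a : ZMod p) :
    sh e F (e (x, a)) = e (x, a + F x) := by
  rw [sh, Equiv.Perm.viaFintypeEmbedding_apply_image]; rfl

theorem sh_of_not_mem (F : Pos h → ZMod p) {y : Fin n} (hy : y ∉ Set.range e) :
    sh e F y = y := by
  rw [sh, Equiv.Perm.viaFintypeEmbedding_apply_notMem_range _ _ hy]

theorem sh_add (F G : Pos h → ZMod p) : sh e (F + G) = sh e F * sh e G := by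
  ext1 y
  rw [Perm.mul_apply]
  by_cases hy : y ∈ Set.range e
  · obtain ⟨⟨x, a⟩, rfl⟩ := hy
    rw [sh_apply, sh_apply, sh_apply, Pi.add_apply]
    congr 2
    ring
  · rw [sh_of_not_mem e _ hy, sh_of_not_mem e _ hy, sh_of_not_mem e _ hy]

theorem sh_zero : sh e (0 : Pos h → ZMod p) = 1 := by
  ext1 y
  by_cases hy : y ∈ Set.range e
  · obtain ⟨⟨x, a⟩, rfl⟩ := hy
    rw [sh_apply, Pi.zero_apply, add_zero]; rfl
  · rw [sh_of_not_mem e _ hy]; rfl

theorem sign_sh (hp : 2 < p) (F : Pos h → ZMod p) : Perm.sign (sh e F) = 1 := by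
  have h2 : (2 : ZMod p) ≠ 0 := by
    intro h0
    have h1 : ((2 : ℕ) : ZMod p) = 0 := by exact_mod_cast h0
    rw [ZMod.natCast_eq_zero_iff] at h1
    exact absurd (Nat.le_of_dvd (by norm_num) h1) (by omega)
  have h1 : F = (fun x => F x / 2) + fun x => F x / 2 := by
    funext x
    rw [Pi.add_apply]
    field_simp
    ring
  rw [h1, sh_add, map_mul]
  rcases Int.units_eq_one_or (Perm.sign (sh e fun x => F x / 2)) with h | h <;> rw [h] <;> simp

end shift

section instances

variable {p : ℕ} [Fact p.Prime] {h n : ℕ} {M : Type*}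

/-- The instances: `c = 0` is a yes-instance, `c = 1` a no-instance. -/
def Gs (e : (Pos h × ZMod p) ↪ Fin n) (s t : M) (c : ZMod p) : PathSystem n M := fun u v w =>
  (∃ (x y z : Pos h) (a b b' : ZMod p), (y.1 : ℕ) = x.1 + 1 ∧ (y.2 : ℕ) = x.2 ∧
    (z.1 : ℕ) = x.1 + 1 ∧ (z.2 : ℕ) = x.2 + 1 ∧ a = b + b' ∧
    u = Sum.inl (e (x, a)) ∧ v = Sum.inl (e (y, b)) ∧ w = Sum.inl (e (z, b'))) ∨
  (∃ x : Pos h, (x.1 : ℕ) = h ∧ u = Sum.inl (e (x, 0)) ∧ v = Sum.inr s ∧ w = Sum.inr s) ∨
  (u = Sum.inr t ∧ v = Sum.inl (e ((0, 0), c)) ∧ w = Sum.inl (e ((0, 0), c)))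

theorem yes_derivable (e : (Pos h × ZMod p) ↪ Fin n) (s t : M) :
    Derivable (Gs e s t 0) (Sum.inr s) (Sum.inr t) := by
  have key : ∀ k, k ≤ h → ∀ x : Pos h, (x.1 : ℕ) + k = h → (x.2 : ℕ) ≤ x.1 →
      Derivable (Gs e s t 0) (Sum.inr s) (Sum.inl (e (x, 0))) := by
    intro k
    induction k with
    | zero =>
      intro _ x hx _
      exact Derivable.rule _ _ _ (Or.inr (Or.inl ⟨x, by omega, rfl, rfl, rfl⟩))
        Derivable.base Derivable.base
    | succ k ih =>
      intro hk x hx hx2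
      have h1 : (x.1 : ℕ) + 1 < h + 1 := by omega
      have h2 : (x.2 : ℕ) + 1 < h + 1 := by omega
      refine Derivable.rule _ (Sum.inl (e ((⟨x.1 + 1, h1⟩, x.2), 0)))
        (Sum.inl (e ((⟨x.1 + 1, h1⟩, ⟨x.2 + 1, h2⟩), 0)))
        (Or.inl ⟨x, (⟨x.1 + 1, h1⟩, x.2), (⟨x.1 + 1, h1⟩, ⟨x.2 + 1, h2⟩), 0, 0, 0, rfl, rfl, rfl,
          rfl, by rw [add_zero], rfl, rfl, rfl⟩) ?_ ?_
      · exact ih (by omega) _ (by show (x.1 : ℕ) + 1 + k = h; omega)
          (by show (x.2 : ℕ) ≤ x.1 + 1; omega)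
      · exact ih (by omega) _ (by show (x.1 : ℕ) + 1 + k = h; omega)
          (by show (x.2 : ℕ) + 1 ≤ x.1 + 1; omega)
  have h0 := key h le_rfl (0, 0) (by simp) le_rfl
  exact Derivable.rule _ _ _ (Or.inr (Or.inr ⟨rfl, rfl, rfl⟩)) h0 h0

theorem no_not_derivable (e : (Pos h × ZMod p) ↪ Fin n) {s t : M} (hst : s ≠ t) :
    ¬ Derivable (Gs e s t 1) (Sum.inr s) (Sum.inr t) := by
  have key : ∀ u : Elt n M, Derivable (Gs e s t 1) (Sum.inr s) u →
      u = Sum.inr s ∨ ∃ x, u = Sum.inl (e (x, 0)) := by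
    intro u hu
    induction hu with
    | base => exact Or.inl rfl
    | rule u v w hR _ _ ihv ihw =>
      rcases hR with ⟨x, y, z, a, b, b', -, -, -, -, hab, rfl, rfl, rfl⟩ | ⟨x, -, rfl, -, -⟩ |
        ⟨-, rfl, -⟩
      · right
        rcases ihv with h1 | ⟨y', h1⟩
        · exact absurd h1 (by simp)
        rcases ihw with h2 | ⟨z', h2⟩
        · exact absurd h2 (by simp)
        have h3 := e.injective (Sum.inl.inj h1)
        have h4 := e.injective (Sum.inl.inj h2)
        refine ⟨x, ?_⟩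
        rw [hab, (Prod.mk.inj h3).2, (Prod.mk.inj h4).2, add_zero]
      · exact Or.inr ⟨x, rfl⟩
      · rcases ihv with h1 | ⟨y', h1⟩
        · exact absurd h1 (by simp)
        have h3 := e.injective (Sum.inl.inj h1)
        exact absurd (Prod.mk.inj h3).2 one_ne_zero
  intro h
  rcases key _ h with h1 | ⟨x, h1⟩
  · exact hst (Sum.inr.inj h1).symm
  · exact absurd h1 (by simp)

end instances

section main

variable {p : ℕ} [Fact p.Prime] {h n : ℕ} {M Λ Q : Type*} [Fintype Q]
  [MulAction (Perm (Fin n)) Q]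

theorem ren_inl (π : Perm (Fin n)) (y : Fin n) : ren (M := M) π (Sum.inl y) = Sum.inl (π y) := rfl

theorem ren_inr (π : Perm (Fin n)) (m : M) : ren π (Sum.inr m) = (Sum.inr m : Elt n M) := rfl

theorem ren_eq_inl {e : (Pos h × ZMod p) ↪ Fin n} {F : Pos h → ZMod p} {u : Elt n M} {x : Pos h}
    {a : ZMod p} (hu : ren (sh e F) u = Sum.inl (e (x, a))) :
    u = Sum.inl (e (x, a - F x)) := by
  rcases u with y | m
  · rw [ren_inl] at hu
    have h1 := Sum.inl.inj hu
    have h2 : sh e F (e (x, a - F x)) = e (x, a) := by rw [sh_apply, sub_add_cancel]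
    rw [← h2] at h1
    rw [(sh e F).injective h1]
  · exact absurd hu (by simp [ren])

theorem ren_eq_inr {e : (Pos h × ZMod p) ↪ Fin n} {F : Pos h → ZMod p} {u : Elt n M} {m : M}
    (hu : ren (sh e F) u = Sum.inr m) : u = Sum.inr m := by
  rcases u with y | m'
  · exact absurd hu (by simp [ren])
  · exact hu

/-- the two instances look the same at an input gate -/
theorem input_agree (e : (Pos h × ZMod p) ↪ Fin n) (s t : M) {w stp j : ℕ} (hw : 0 < w)
    {S : Finset (Pos h)} {F : Pos h → ZMod p} (hG : Good p w stp h j S F) (u v z : Elt n M)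
    (hS : ∀ x a, (u = Sum.inl (e (x, a)) ∨ v = Sum.inl (e (x, a)) ∨ z = Sum.inl (e (x, a))) →
      x ∈ S) :
    Gs e s t 0 u v z ↔ Gs e s t 1 (ren (sh e F) u) (ren (sh e F) v) (ren (sh e F) z) := by
  constructor
  · rintro (⟨x, y, z', a, b, b', h1, h2, h3, h4, h5, rfl, rfl, rfl⟩ | ⟨x, h1, rfl, rfl, rfl⟩ |
      ⟨rfl, rfl, rfl⟩)
    · left
      have hx := hS x a (Or.inl rfl)
      have hy := hS y b (Or.inr (Or.inl rfl))
      have hz := hS z' b' (Or.inr (Or.inr rfl))
      have hr := good_rule hw hG hx hy hz h1 h2 h3 h4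
      refine ⟨x, y, z', a + F x, b + F y, b' + F z', h1, h2, h3, h4, ?_, ?_, ?_, ?_⟩
      · rw [h5, hr]; ring
      · rw [ren_inl, sh_apply]
      · rw [ren_inl, sh_apply]
      · rw [ren_inl, sh_apply]
    · right; left
      have hx := hS x 0 (Or.inl rfl)
      have hr := good_bottom hG hx h1
      refine ⟨x, h1, ?_, rfl, rfl⟩
      rw [ren_inl, sh_apply, hr, add_zero]
    · right; right
      have hx := hS (0, 0) 0 (Or.inr (Or.inl rfl))
      have hr := good_apex hG hx
      refine ⟨rfl, ?_, ?_⟩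
      · rw [ren_inl, sh_apply, hr, zero_add]
      · rw [ren_inl, sh_apply, hr, zero_add]
  · rintro (⟨x, y, z', a, b, b', h1, h2, h3, h4, h5, hu, hv, hz⟩ | ⟨x, h1, hu, hv, hz⟩ |
      ⟨hu, hv, hz⟩)
    · left
      have hu' := ren_eq_inl hu
      have hv' := ren_eq_inl hv
      have hz' := ren_eq_inl hz
      have hx := hS _ _ (Or.inl hu')
      have hy := hS _ _ (Or.inr (Or.inl hv'))
      have hz0 := hS _ _ (Or.inr (Or.inr hz'))
      have hr := good_rule hw hG hx hy hz0 h1 h2 h3 h4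
      refine ⟨x, y, z', a - F x, b - F y, b' - F z', h1, h2, h3, h4, ?_, hu', hv', hz'⟩
      rw [h5, hr]; ring
    · right; left
      have hu' := ren_eq_inl hu
      have hx := hS _ _ (Or.inl hu')
      have hr := good_bottom hG hx h1
      rw [hr, sub_zero] at hu'
      exact ⟨x, h1, hu', ren_eq_inr hv, ren_eq_inr hz⟩
    · right; right
      have hv' := ren_eq_inl hv
      have hz' := ren_eq_inl hz
      have hx := hS _ _ (Or.inr (Or.inl hv'))
      have hr := good_apex hG hx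
      rw [hr, sub_self] at hv' hz'
      exact ⟨ren_eq_inr hu, hv', hz'⟩

/-- Position supports -/
theorem exists_psupp {Q : Type*} [MulAction (Perm (Fin n)) Q] (e : (Pos h × ZMod p) ↪ Fin n) (hp : 2 < p) {s : ℕ}
    (hsupp : ∀ q : Q, ∃ S : Finset (Fin n), S.card ≤ s ∧
      ∀ π : Perm (Fin n), Perm.sign π = 1 → (∀ x ∈ S, π x = x) → π • q = q) :
    ∃ ps : Q → Finset (Pos h), (∀ q, (ps q).card ≤ s) ∧ (∀ q F, ps (sh e F • q) = ps q) ∧
      ∀ q F, (∀ x ∈ ps q, F x = 0) → sh e F • q = q := by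
  classical
  choose S hS1 hS2 using hsupp
  let rel : Setoid Q :=
    { r := fun q q' => ∃ F : Pos h → ZMod p, sh e F • q = q'
      iseqv :=
        { refl := fun q => ⟨0, by rw [sh_zero, one_smul]⟩
          symm := by
            rintro q q' ⟨F, rfl⟩
            refine ⟨-F, ?_⟩
            rw [smul_smul, ← sh_add, neg_add_cancel, sh_zero, one_smul]
          trans := by
            rintro q q' q'' ⟨F, rfl⟩ ⟨G, rfl⟩
            refine ⟨G + F, ?_⟩
            rw [sh_add, mul_smul] } }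
  let rep : Q → Q := fun q => (Quotient.mk rel q).out
  have hrep : ∀ q, ∃ F : Pos h → ZMod p, sh e F • rep q = q := fun q => Quotient.mk_out (s := rel) q
  let ps : Q → Finset (Pos h) := fun q =>
    Finset.univ.filter fun x => ∃ a, e (x, a) ∈ S (rep q)
  refine ⟨ps, ?_, ?_, ?_⟩
  · intro q
    have h1 : ∀ x ∈ ps q, ∃ a, e (x, a) ∈ S (rep q) := fun x hx => (Finset.mem_filter.1 hx).2
    choose! a ha using h1
    have h2 : (ps q).card ≤ (S (rep q)).card := by
      apply Finset.card_le_card_of_injOn (fun x => e (x, a x))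
      · intro x hx; exact ha x hx
      · intro x _ y _ hxy
        exact (Prod.mk.inj (e.injective hxy)).1
    exact h2.trans (hS1 _)
  · intro q F
    have h1 : rep (sh e F • q) = rep q := by
      show (Quotient.mk rel (sh e F • q)).out = (Quotient.mk rel q).out
      congr 1
      exact Quotient.sound (s := rel) (rel.symm ⟨F, rfl⟩)
    show (Finset.univ.filter fun x => ∃ a, e (x, a) ∈ S (rep (sh e F • q))) = _
    rw [h1]
  · intro q F hF
    obtain ⟨G, hG⟩ := hrep q
    have h1 : sh e F • rep q = rep q := by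
      apply hS2 _ _ (sign_sh e hp F)
      intro y hy
      by_cases hy' : y ∈ Set.range e
      · obtain ⟨⟨x, a⟩, rfl⟩ := hy'
        have hx : x ∈ ps q := Finset.mem_filter.2 ⟨Finset.mem_univ _, a, hy⟩
        rw [sh_apply, hF x hx, add_zero]
      · exact sh_of_not_mem e F hy'
    calc sh e F • q = sh e F • sh e G • rep q := by rw [hG]
      _ = sh e G • sh e F • rep q := by
        rw [smul_smul, smul_smul, ← sh_add, ← sh_add, add_comm]
      _ = q := by rw [h1, hG]

theorem core (C : SymCircuit n M Λ Q) (e : (Pos h × ZMod p) ↪ Fin n) {w stp s : ℕ}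
    (hw : s ^ 2 ≤ w) (hw0 : 0 < w) (hstp : (s + 1) * w ≤ stp) (hp : 2 * h < p)
    (s0 t0 : M) (ps : Q → Finset (Pos h)) (hps : ∀ q, (ps q).card ≤ s)
    (hinv : ∀ q F, ps (sh e F • q) = ps q)
    (hfix : ∀ q F, (∀ x ∈ ps q, F x = 0) → sh e F • q = q) :
    ∀ (j : ℕ) (q : Q) (F : Pos h → ZMod p), C.level q ≤ j → Good p w stp h (j + 1) (ps q) F →
      (C.val (Gs e s0 t0 0) q ↔ C.val (Gs e s0 t0 1) (sh e F • q)) := by
  classical
  have hagree : ∀ q (F F' : Pos h → ZMod p), (∀ x ∈ ps q, F' x = F x) →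
      sh e F' • q = sh e F • q := by
    intro q F F' hF
    have h1 : F' = F + (F' - F) := by abel
    rw [h1, sh_add, mul_smul, hfix q (F' - F)]
    intro x hx
    rw [Pi.sub_apply, hF x hx, sub_self]
  intro j
  induction j using Nat.strong_induction_on with
  | _ j ih =>
  intro q F hj hG
  rcases hin : C.input q with _ | ⟨u, v, z⟩
  · -- a gate
    have hin' : C.input (sh e F • q) = none := by rw [C.input_inv, hin]; rfl
    have hstep : ∀ S' : Finset (Pos h), S'.card ≤ s → ∃ F' : Pos h → ZMod p,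
        (∀ x ∈ ps q, F' x = F x) ∧ Good p w stp h j S' F' :=
      fun S' hS' => good_step hw hstp hp hG (hps q) hS'
    choose! ext hext1 hext2 using hstep
    -- the bijection
    let φ : Q → Q := fun c => sh e (ext (ps c)) • c
    have hφ : Function.Injective φ := by
      intro c c' hcc
      have h1 : ps c = ps c' := by
        rw [← hinv c (ext (ps c)), ← hinv c' (ext (ps c'))]
        exact congrArg ps hcc
      have h2 : sh e (ext (ps c)) • c = sh e (ext (ps c)) • c' := by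
        have : sh e (ext (ps c)) • c = sh e (ext (ps c')) • c' := hcc
        rw [this, h1]
      exact MulAction.injective _ h2
    have hφb : Function.Bijective φ := Finite.injective_iff_bijective.1 hφ
    let Φ : Q ≃ Q := Equiv.ofBijective φ hφb
    have hwire : ∀ c, C.wire (sh e F • q) (Φ c) = C.wire q c := by
      intro c
      have h1 : sh e (ext (ps c)) • q = sh e F • q := hagree q F _ (hext1 (ps c) (hps c))
      show C.wire (sh e F • q) (sh e (ext (ps c)) • c) = _
      rw [← h1, C.wire_inv]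
    rw [SymCircuit.val, SymCircuit.val, hin, hin', C.gate_inv]
    have hcount : (fun l => Nat.card {q' : {q' : Q // C.wire q q' = some l} //
          C.val (Gs e s0 t0 0) q'.1})
        = fun l => Nat.card {q' : {q' : Q // C.wire (sh e F • q) q' = some l} //
          C.val (Gs e s0 t0 1) q'.1} := by
      funext l
      apply Nat.card_congr
      refine Equiv.subtypeEquiv (Φ.subtypeEquiv (fun c => by rw [hwire c])) ?_
      rintro ⟨c, hc⟩
      have hlt := C.level_lt _ _ _ hc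
      have h1 := ih (j - 1) (by omega) c (ext (ps c)) (by omega) (by
        have h2 : j - 1 + 1 = j := by omega
        rw [h2]; exact hext2 (ps c) (hps c))
      exact h1
    simp only
    rw [hcount]
  · have hin' : C.input (sh e F • q)
        = some (ren (sh e F) u, ren (sh e F) v, ren (sh e F) z) := by rw [C.input_inv, hin]; rfl
    rw [SymCircuit.val, SymCircuit.val, hin, hin']
    apply input_agree e s0 t0 hw0 hG
    intro x a hxa
    by_contra hx
    have h1 : sh e (Pi.single x 1) • q = q := by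
      apply hfix
      intro y hy
      rw [Pi.single_eq_of_ne]
      rintro rfl
      exact hx hy
    have h2 := C.input_inv (sh e (Pi.single x 1)) q
    rw [h1, hin] at h2
    have h3 : (u, v, z) = (ren (sh e (Pi.single x 1)) u, ren (sh e (Pi.single x 1)) v,
        ren (sh e (Pi.single x 1)) z) := Option.some.inj h2
    have h4 : ∀ u : Elt n M, u = ren (sh e (Pi.single x 1)) u → u ≠ Sum.inl (e (x, a)) := by
      intro u hu hu'
      rw [hu', ren_inl, sh_apply] at hu
      have h5 := (Prod.mk.inj (e.injective (Sum.inl.inj hu))).2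
      rw [Pi.single_eq_same] at h5
      exact one_ne_zero (add_eq_left.1 h5.symm)
    rcases hxa with hxa | hxa | hxa
    · exact h4 u (Prod.mk.inj h3).1 hxa
    · exact h4 v (Prod.mk.inj (Prod.mk.inj h3).2).1 hxa
    · exact h4 z (Prod.mk.inj (Prod.mk.inj h3).2).2 hxa

end main


section final

theorem choose_ge' {n a : ℕ} (h : 16 * a ^ 2 ≤ n) (ha : 1 ≤ a) : n ^ a ≤ n.choose (2 * a) := by
  have h1 : (n + 1 - 2 * a) ^ (2 * a) ≤ (2 * a).factorial * n.choose (2 * a) := by
    rw [← Nat.descFactorial_eq_factorial_mul_choose]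
    exact n.pow_sub_le_descFactorial (2 * a)
  have h2 : n * (2 * a) ^ 2 ≤ (n + 1 - 2 * a) ^ 2 := by
    have h3 : a ≤ a ^ 2 := by nlinarith
    obtain ⟨b, hb⟩ : ∃ b, b = n + 1 - 2 * a := ⟨_, rfl⟩
    have h4 : n + 1 = b + 2 * a := by omega
    rw [← hb]
    have h5 : n ≤ 2 * b := by omega
    nlinarith
  have h3 : (2 * a).factorial ≤ (2 * a) ^ (2 * a) := Nat.factorial_le_pow _
  have h4 : n ^ a * (2 * a).factorial ≤ (2 * a).factorial * n.choose (2 * a) := by
    calc n ^ a * (2 * a).factorial ≤ n ^ a * (2 * a) ^ (2 * a) := Nat.mul_le_mul_left _ h3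
      _ = (n * (2 * a) ^ 2) ^ a := by rw [mul_pow n, ← pow_mul]
      _ ≤ ((n + 1 - 2 * a) ^ 2) ^ a := Nat.pow_le_pow_left h2 _
      _ = (n + 1 - 2 * a) ^ (2 * a) := by rw [← pow_mul]
      _ ≤ _ := h1
  rw [mul_comm] at h4
  exact Nat.le_of_mul_le_mul_left h4 (Nat.factorial_pos _)

theorem two_pow_le_factorial' (f : ℕ) : 2 ^ f ≤ (f + 1).factorial := by
  induction f with
  | zero => simp
  | succ f ih =>
    rw [pow_succ, Nat.factorial_succ (f + 1), mul_comm]
    exact Nat.mul_le_mul (by omega) ih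

theorem sq_le_two_pow {L : ℕ} (h : 6 ≤ L) : (L + 1) ^ 2 ≤ 2 ^ L := by
  induction L, h using Nat.le_induction with
  | base => norm_num
  | succ L hL ih => rw [pow_succ 2]; nlinarith

/-- **Lower bound.** -/
theorem lower_bound {n d a : ℕ} {M Λ Q : Type*} [Fintype Q] [MulAction (Perm (Fin n)) Q]
    (C : SymCircuit n M Λ Q) {s t : M} (hst : s ≠ t) (ha : 1 ≤ a)
    (hn : 10 ^ 8 * (d + 1) ^ 3 * a ^ 9 ≤ n) (hd : C.level C.out ≤ d)
    (hC : ∀ R, C.val R C.out ↔ Derivable R (Sum.inr s) (Sum.inr t)) :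
    n ^ a < Fintype.card Q := by
  classical
  by_contra hcon
  push Not at hcon
  have hd1 : 1 ≤ (d + 1) ^ 3 := Nat.one_le_pow _ _ (by omega)
  have ha9 : a ^ 4 ≤ a ^ 9 := Nat.pow_le_pow_right ha (by norm_num)
  have ha4 : 1 ≤ a ^ 4 := Nat.one_le_pow _ _ ha
  have hn1 : 10 ^ 8 * a ^ 4 ≤ n := by
    calc 10 ^ 8 * a ^ 4 ≤ 10 ^ 8 * a ^ 9 := Nat.mul_le_mul_left _ ha9
      _ = 10 ^ 8 * 1 * a ^ 9 := by ring
      _ ≤ 10 ^ 8 * (d + 1) ^ 3 * a ^ 9 := by gcongr
      _ ≤ n := hn
  have hn0 : 10 ^ 8 ≤ n := by omega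
  have hnne : n ≠ 0 := by omega
  -- logarithm
  obtain ⟨L, hL⟩ : ∃ L, L = Nat.log 2 n := ⟨_, rfl⟩
  have hL1 : 2 ^ L ≤ n := by rw [hL]; exact Nat.pow_log_le_self 2 hnne
  have hL2 : n < 2 ^ (L + 1) := by rw [hL]; exact Nat.lt_pow_succ_log_self (by norm_num) n
  have hL6 : 6 ≤ L := by
    by_contra h
    have : 2 ^ (L + 1) ≤ 2 ^ 6 := Nat.pow_le_pow_right (by norm_num) (by omega)
    omega
  have hL3 : (L + 1) ^ 2 ≤ n := (sq_le_two_pow hL6).trans hL1
  have hLa : 8 * a ^ 2 * (L + 1) ≤ n := by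
    have h1 : (8 * a ^ 2 * (L + 1)) ^ 2 ≤ n ^ 2 := by
      calc (8 * a ^ 2 * (L + 1)) ^ 2 = (64 * a ^ 4) * (L + 1) ^ 2 := by ring
        _ ≤ n * n := Nat.mul_le_mul (by omega) hL3
        _ = n ^ 2 := by ring
    exact (Nat.pow_le_pow_iff_left (by norm_num)).1 h1
  -- supports
  have hsupp : ∀ q : Q, ∃ S : Finset (Fin n), S.card ≤ 2 * a + 1 ∧
      ∀ π : Perm (Fin n), Perm.sign π = 1 → (∀ x ∈ S, π x = x) → π • q = q := by
    intro q
    have hLL : L + 1 ≤ n / 8 := by
      have : 8 * (L + 1) ≤ n := by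
        calc 8 * (L + 1) = 8 * 1 * (L + 1) := by ring
          _ ≤ 8 * a ^ 2 * (L + 1) := by
            have : 1 ≤ a ^ 2 := Nat.one_le_pow _ _ ha
            gcongr
          _ ≤ n := hLa
      omega
    obtain ⟨S, hS1, hS2⟩ := H534R2.SymSw.exists_support (α := Fin n) q (f := a * (L + 1))
      (r := 2 * (a + 1))
      (by
        calc Fintype.card Q ≤ n ^ a := hcon
          _ < (2 ^ (L + 1)) ^ a := Nat.pow_lt_pow_left hL2 (by omega)
          _ = 2 ^ (a * (L + 1)) := by rw [← pow_mul, mul_comm]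
          _ ≤ _ := two_pow_le_factorial' _)
      (by
        rw [Fintype.card_fin]
        calc 2 * (a * (L + 1)) * (2 * (a + 1)) = 4 * (a * (a + 1)) * (L + 1) := by ring
          _ ≤ 8 * a ^ 2 * (L + 1) := by
            apply Nat.mul_le_mul_right
            nlinarith
          _ ≤ n := hLa)
      (by
        rw [Fintype.card_fin]
        nlinarith)
      (by positivity)
      (by
        rw [Fintype.card_fin]
        have h2 : 2 * (a * (L + 1)) < n := by
          have h3 : 2 * (a * (L + 1)) < 8 * a ^ 2 * (L + 1) := by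
            have : a ≤ a ^ 2 := by nlinarith
            nlinarith
          omega
        calc 2 * (a * (L + 1)) * Fintype.card Q ≤ 2 * (a * (L + 1)) * n ^ a :=
              Nat.mul_le_mul_left _ hcon
          _ < n * n ^ a := by
            apply Nat.mul_lt_mul_of_pos_right h2
            positivity
          _ = n ^ (a + 1) := by ring
          _ ≤ n.choose (2 * (a + 1)) := by
            apply choose_ge' _ (by omega)
            nlinarith)
    exact ⟨S, by omega, hS2⟩
  -- parameters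
  obtain ⟨s', hs'⟩ : ∃ s', s' = 2 * a + 1 := ⟨_, rfl⟩
  rw [← hs'] at hsupp
  have hs3 : 3 ≤ s' := by omega
  obtain ⟨h, hh⟩ : ∃ h, h = 6 * (d + 1) * s' ^ 3 := ⟨_, rfl⟩
  have hs'3 : 1 ≤ s' ^ 3 := Nat.one_le_pow _ _ (by omega)
  have hh0 : 0 < h := by rw [hh]; positivity
  obtain ⟨p, hp, hp1, hp2⟩ := Nat.exists_prime_lt_and_le_two_mul (2 * h) (by omega)
  haveI : Fact p.Prime := ⟨hp⟩
  have hcard : Fintype.card (Pos h × ZMod p) ≤ Fintype.card (Fin n) := by
    rw [Fintype.card_fin, Fintype.card_prod, Fintype.card_prod, Fintype.card_fin, ZMod.card]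
    have hs9 : s' ^ 9 ≤ 19683 * a ^ 9 := by
      calc s' ^ 9 ≤ (3 * a) ^ 9 := Nat.pow_le_pow_left (by omega) 9
        _ = 19683 * a ^ 9 := by ring
    calc (h + 1) * (h + 1) * p ≤ (2 * h) * (2 * h) * (2 * (2 * h)) := by
          apply Nat.mul_le_mul _ hp2
          apply Nat.mul_le_mul <;> omega
      _ = 3456 * (d + 1) ^ 3 * s' ^ 9 := by rw [hh]; ring
      _ ≤ 3456 * (d + 1) ^ 3 * (19683 * a ^ 9) := Nat.mul_le_mul_left _ hs9
      _ = 68024448 * ((d + 1) ^ 3 * a ^ 9) := by ring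
      _ ≤ 10 ^ 8 * ((d + 1) ^ 3 * a ^ 9) := by gcongr; norm_num
      _ = 10 ^ 8 * (d + 1) ^ 3 * a ^ 9 := by ring
      _ ≤ n := hn
  obtain ⟨e⟩ := Function.Embedding.nonempty_of_card_le hcard
  obtain ⟨ps, hps, hinv, hfix⟩ := exists_psupp e (by omega) hsupp
  have hstart : s' ^ 2 + (d + 2) * ((s' + 1) * s' ^ 2) < h := by
    rw [hh]
    have h1 : s' ^ 2 * 3 ≤ s' ^ 3 := by
      calc s' ^ 2 * 3 ≤ s' ^ 2 * s' := Nat.mul_le_mul_left _ hs3
        _ = s' ^ 3 := by ring
    have h2 : (s' + 1) * s' ^ 2 = s' ^ 3 + s' ^ 2 := by ring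
    rw [h2]
    nlinarith [Nat.zero_le d, Nat.mul_le_mul_left (d + 2) h1]
  obtain ⟨F, -, hF⟩ := good_step (p := p) (w := s' ^ 2) (stp := (s' + 1) * s' ^ 2) (s := s')
    (j := d + 1) (S := ∅) (S' := ps C.out) (F := 0) le_rfl le_rfl hp1 (good_start hstart 0)
    (by simp) (hps _)
  have hval := core C e (w := s' ^ 2) (stp := (s' + 1) * s' ^ 2) (s := s') le_rfl (by positivity)
    le_rfl hp1 s t ps hps hinv hfix d C.out F hd hF
  rw [C.out_inv, hC, hC] at hval
  exact no_not_derivable e hst (hval.1 (yes_derivable e s t))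

end final

end H553R2
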