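import Pool.Agent.H306R2.RG.StubsC
import Pool.Agent.H553R2.RG_CC8a

set_option autoImplicit false

/-! Task CC8 of project RG: uses CC3 (here from the stub). -/

namespace Pool.Agent.H553R2.RGCC8

open Finset Filter Topology MeasureTheory Pool.Agent.H306R2.RZ Pool.Agent.H306R2.RG

noncomputable section

/-- approximate functional equation -/
theorem CC8 (φ : FD) (hφ : Fam φ) (d : ℕ) (hd : φ.A d) (hs : Squarefree d) (δ : ℝ) (hδ : 0 < δ)
    (ρ : ℝ → ℝ) (hρ : RH δ ρ) (L : ℝ) (hL : 0 < L) (x : ℝ) (hx : 0 ≤ x) :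
    (∑' n : ℕ, cf φ d (n + 1) / Real.sqrt ((n : ℝ) + 1) *
        KWg φ L (beg φ L d) (Ph ρ x) (Real.log ((n : ℝ) + 1) / L)) =
      Kdg φ L d x * LLg φ d (1 / 2 + x / L) :=
  Pool.Agent.H553R2.RGCC8a.CC8_of φ (Pool.Agent.H553R2.RGCC8a.fam_eta φ hφ)
    (Pool.Agent.H553R2.RGCC8a.fam_r φ hφ) d (Nat.pos_of_ne_zero hs.ne_zero)
    (fun y hy => Pool.Agent.H306R2.RG.StubsC.CC3 φ hφ d hd hs y hy) δ ρ hρ L hL x hx

end

end Pool.Agent.H553R2.RGCC8
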