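import Pool.Agent.H306R2.RZ.Defs2

set_option autoImplicit false

/-! Task C6 of project RZ: the smoothed approximate functional equation. -/

namespace Pool.Agent.H553R2.RZ2_C6a

open Finset Filter Topology MeasureTheory
open Pool.Agent.H306R2.RZ

noncomputable section

lemma js_abs_le (k : ℤ) (n : ℕ) : |js k n| ≤ 1 := by
  unfold js
  rcases jacobiSym.trichotomy k n with h | h | h <;> rw [h] <;> simp

/-- summability of `exp(-c (n+1)^2)` -/
lemma summ_exp (c : ℝ) (hc : 0 < c) : Summable (fun n : ℕ => Real.exp (-(c * ((n : ℝ) + 1) ^ 2))) := by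
  have h := (Real.summable_exp_nat_mul_iff (a := -c)).2 (by linarith)
  refine Summable.of_nonneg_of_le (fun n => (Real.exp_pos _).le) (fun n => ?_) h
  apply Real.exp_le_exp.2
  have hn : (0 : ℝ) ≤ n := Nat.cast_nonneg n
  nlinarith [mul_nonneg hc.le hn, mul_nonneg hc.le (sq_nonneg (n : ℝ))]

/-- the cutoff `ρ(log y / (2L))` vanishes for small `y` -/
lemma rho_zero (δ : ℝ) (ρ : ℝ → ℝ) (hρ : RH δ ρ) (L : ℝ) (hL : 0 < L) (y : ℝ) (hy : 0 < y)
    (h : y ≤ Real.exp (-(2 * L * δ))) : ρ (Real.log y / (2 * L)) = 0 := by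
  apply hρ.zero
  rw [div_le_iff₀ (by positivity)]
  have := Real.log_le_log hy h
  rw [Real.log_exp] at this
  linarith

lemma rho_abs (δ : ℝ) (ρ : ℝ → ℝ) (hρ : RH δ ρ) (τ : ℝ) : |ρ τ| ≤ 1 := by
  rw [abs_of_nonneg (hρ.nonneg τ)]; exact hρ.le_one τ

/-- basic integrability -/
lemma intg (δ : ℝ) (ρ : ℝ → ℝ) (hρ : RH δ ρ) (L : ℝ) (hL : 0 < L) (c a : ℝ)
    (hc : 0 < c) : IntegrableOn
      (fun y : ℝ => Real.exp (-(c * y)) * (y ^ a * ρ (Real.log y / (2 * L)))) (Set.Ioi 0) := by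
  set y0 : ℝ := Real.exp (-(2 * L * δ)) with hy0
  have hy0p : 0 < y0 := Real.exp_pos _
  set b : ℝ := max a 0 with hb
  have hb0 : 0 ≤ b := le_max_right _ _
  have hdom : IntegrableOn (fun y : ℝ => y ^ b * Real.exp (-c * y)) (Set.Ioi 0) := by
    have := integrableOn_rpow_mul_exp_neg_mul_rpow (s := b) (p := 1) (b := c) (by linarith) one_pos hc
    refine this.congr_fun (fun y hy => ?_) measurableSet_Ioi
    simp only [Real.rpow_one]
  have hmeas : AEStronglyMeasurable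
      (fun y : ℝ => Real.exp (-(c * y)) * (y ^ a * ρ (Real.log y / (2 * L))))
      (volume.restrict (Set.Ioi 0)) := by
    have hρm : Measurable ρ := hρ.smooth.continuous.measurable
    apply Measurable.aestronglyMeasurable
    refine Measurable.mul (by fun_prop) (Measurable.mul (by fun_prop) ?_)
    exact hρm.comp ((Real.measurable_log).div_const _)
  refine Integrable.mono' (hdom.const_mul (y0 ^ (a - b))) hmeas ?_
  refine (ae_restrict_mem measurableSet_Ioi).mono (fun y hy => ?_)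
  have hy : 0 < y := hy
  rw [Real.norm_eq_abs, abs_mul, abs_mul, Real.abs_exp, abs_of_nonneg (Real.rpow_nonneg hy.le a)]
  by_cases hyy : y ≤ y0
  · rw [rho_zero δ ρ hρ L hL y hy hyy]
    simp
    positivity
  · push Not at hyy
    have h1 : y ^ a ≤ y0 ^ (a - b) * y ^ b := by
      have : y ^ a = y ^ (a - b) * y ^ b := by
        rw [← Real.rpow_add hy]; congr 1; ring
      rw [this]
      refine mul_le_mul_of_nonneg_right ?_ (Real.rpow_nonneg hy.le b)
      exact Real.rpow_le_rpow_of_nonpos hy0p hyy.le (by linarith [le_max_left a 0])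
    calc Real.exp (-(c * y)) * (y ^ a * |ρ (Real.log y / (2 * L))|)
        ≤ Real.exp (-(c * y)) * (y ^ a * 1) := by
          refine mul_le_mul_of_nonneg_left (mul_le_mul_of_nonneg_left (rho_abs δ ρ hρ _)
            (Real.rpow_nonneg hy.le a)) (Real.exp_pos _).le
      _ ≤ Real.exp (-(c * y)) * (y0 ^ (a - b) * y ^ b) := by
          rw [mul_one]; exact mul_le_mul_of_nonneg_left h1 (Real.exp_pos _).le
      _ = y0 ^ (a - b) * (y ^ b * Real.exp (-c * y)) := by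
          rw [neg_mul]; ring

/-- interchange of sum and integral, for an abstract weight `R` -/
lemma swap0 (d : ℕ) (hd : 0 < d) (y0 : ℝ) (hy0p : 0 < y0) (R : ℝ → ℝ)
    (hRz : ∀ y, 0 < y → y ≤ y0 → R y = 0)
    (hI : ∀ c' : ℝ, 0 < c' → IntegrableOn (fun y => Real.exp (-(c' * y)) * R y) (Set.Ioi 0)) :
    IntegrableOn (fun y => th d y * R y) (Set.Ioi 0) ∧
    HasSum (fun n : ℕ => js (8 * (d : ℤ)) (n + 1) * ∫ y in Set.Ioi (0 : ℝ),
      Real.exp (-(Real.pi * ((n : ℝ) + 1) ^ 2 * y / (8 * d))) * R y)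
      (∫ y in Set.Ioi (0 : ℝ), th d y * R y) := by
  have hd' : (0 : ℝ) < d := by exact_mod_cast hd
  obtain ⟨c, hc⟩ : ∃ c : ℝ, c = Real.pi / (2 * (8 * d)) := ⟨_, rfl⟩
  have hcp : 0 < c := by rw [hc]; positivity
  have hIn : ∀ n : ℕ, IntegrableOn
      (fun y => Real.exp (-(Real.pi * ((n : ℝ) + 1) ^ 2 * y / (8 * d))) * R y) (Set.Ioi 0) := by
    intro n
    have := hI (Real.pi * ((n : ℝ) + 1) ^ 2 / (8 * d)) (by positivity)
    refine this.congr_fun (fun y _ => ?_) measurableSet_Ioi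
    simp only
    congr 2
    ring
  obtain ⟨F, hF⟩ : ∃ F : ℕ → ℝ → ℝ, F = fun n y => js (8 * (d : ℤ)) (n + 1) *
    (Real.exp (-(Real.pi * ((n : ℝ) + 1) ^ 2 * y / (8 * d))) * R y) := ⟨_, rfl⟩
  have hF' : ∀ n y, F n y = js (8 * (d : ℤ)) (n + 1) *
    (Real.exp (-(Real.pi * ((n : ℝ) + 1) ^ 2 * y / (8 * d))) * R y) := fun n y => by rw [hF]
  have hFi : ∀ n, Integrable (F n) (volume.restrict (Set.Ioi 0)) := fun n => by
    rw [hF]; exact (hIn n).const_mul _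
  have hbd : ∀ n : ℕ, ∀ y : ℝ, 0 < y → ‖F n y‖ ≤
      Real.exp (-(c * y0 * ((n : ℝ) + 1) ^ 2)) * ‖Real.exp (-(c * y)) * R y‖ := by
    intro n y hy
    rw [hF', norm_mul, norm_mul, norm_mul]
    by_cases hyy : y ≤ y0
    · rw [hRz y hy hyy]; simp
    · push Not at hyy
      have h1 : ‖js (8 * (d : ℤ)) (n + 1)‖ ≤ 1 := by
        rw [Real.norm_eq_abs]; exact js_abs_le _ _
      have h2 : ‖Real.exp (-(Real.pi * ((n : ℝ) + 1) ^ 2 * y / (8 * d)))‖ ≤
          Real.exp (-(c * y0 * ((n : ℝ) + 1) ^ 2)) * ‖Real.exp (-(c * y))‖ := by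
        rw [Real.norm_eq_abs, Real.norm_eq_abs, Real.abs_exp, Real.abs_exp, ← Real.exp_add]
        apply Real.exp_le_exp.2
        have e1 : Real.pi * ((n : ℝ) + 1) ^ 2 * y / (8 * d) = 2 * c * (((n : ℝ) + 1) ^ 2 * y) := by
          rw [hc]; field_simp
        rw [e1]
        have hn : (0 : ℝ) ≤ n := Nat.cast_nonneg n
        have e2 : (1 : ℝ) ≤ ((n : ℝ) + 1) ^ 2 := by nlinarith
        have e3 : y0 * ((n : ℝ) + 1) ^ 2 ≤ ((n : ℝ) + 1) ^ 2 * y := by
          rw [mul_comm]; exact mul_le_mul_of_nonneg_left hyy.le (by positivity)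
        have e4 : y ≤ ((n : ℝ) + 1) ^ 2 * y := by nlinarith
        nlinarith [mul_le_mul_of_nonneg_left e3 hcp.le, mul_le_mul_of_nonneg_left e4 hcp.le]
      have h3 : ‖js (8 * (d : ℤ)) (n + 1)‖ *
            (‖Real.exp (-(Real.pi * ((n : ℝ) + 1) ^ 2 * y / (8 * d)))‖ * ‖R y‖)
          ≤ 1 * ((Real.exp (-(c * y0 * ((n : ℝ) + 1) ^ 2)) * ‖Real.exp (-(c * y))‖) * ‖R y‖) := by
            gcongr
      refine h3.trans (le_of_eq ?_)
      rw [one_mul, mul_assoc]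
  have hsm : Summable (fun n : ℕ => Real.exp (-(c * y0 * ((n : ℝ) + 1) ^ 2))) :=
    summ_exp (c * y0) (by positivity)
  have hsum : Summable (fun n : ℕ => ∫ y in Set.Ioi (0 : ℝ), ‖F n y‖) := by
    have h1 : Summable (fun n : ℕ => Real.exp (-(c * y0 * ((n : ℝ) + 1) ^ 2)) *
        ∫ y in Set.Ioi (0 : ℝ), ‖Real.exp (-(c * y)) * R y‖) := hsm.mul_right _
    refine Summable.of_nonneg_of_le (fun n => integral_nonneg (fun y => norm_nonneg _))
      (fun n => ?_) h1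
    rw [← integral_const_mul]
    refine integral_mono_ae (hFi n).norm ((hI c hcp).norm.const_mul _) ?_
    exact (ae_restrict_mem measurableSet_Ioi).mono (fun y hy => hbd n y hy)
  have hmain := hasSum_integral_of_summable_integral_norm hFi hsum
  have hth : ∀ y, ∑' n, F n y = th d y * R y := by
    intro y
    simp only [hF, th]
    rw [← tsum_mul_right]
    exact tsum_congr (fun n => by ring)
  have hps : ∀ y : ℝ, 0 < y → Summable (fun n => F n y) := by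
    intro y hy
    exact Summable.of_norm_bounded (hsm.mul_right ‖Real.exp (-(c * y)) * R y‖)
      (fun n => hbd n y hy)
  constructor
  · have h2 : Integrable (fun y => ∑' n, F n y) (volume.restrict (Set.Ioi 0)) := by
      refine Integrable.mono' ((hI c hcp).norm.const_mul
        (∑' n : ℕ, Real.exp (-(c * y0 * ((n : ℝ) + 1) ^ 2)))) ?_ ?_
      · refine aestronglyMeasurable_of_tendsto_ae (u := atTop)
          (f := fun N y => ∑ n ∈ range N, F n y) ?_ ?_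
        · intro N
          exact (integrable_finsetSum _ (fun n _ => hFi n)).aestronglyMeasurable
        · exact (ae_restrict_mem measurableSet_Ioi).mono
            (fun y hy => (hps y hy).hasSum.tendsto_sum_nat)
      · refine (ae_restrict_mem measurableSet_Ioi).mono (fun y hy => ?_)
        rw [← tsum_mul_right]
        exact tsum_of_norm_bounded (hsm.mul_right ‖Real.exp (-(c * y)) * R y‖).hasSum
          (fun n => hbd n y hy)
    simp only [hth] at h2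
    exact h2
  · simp only [hth] at hmain
    have he : (fun n : ℕ => js (8 * (d : ℤ)) (n + 1) * ∫ y in Set.Ioi (0 : ℝ),
      Real.exp (-(Real.pi * ((n : ℝ) + 1) ^ 2 * y / (8 * d))) * R y) =
      fun n => ∫ a in Set.Ioi (0 : ℝ), F n a := by
      funext n
      rw [← integral_const_mul]
      exact integral_congr_ae (Eventually.of_forall (fun y => (hF' n y).symm))
    rw [he]
    exact hmain

/-- interchange of sum and integral -/
lemma swap (d : ℕ) (hd : 0 < d) (δ : ℝ) (ρ : ℝ → ℝ) (hρ : RH δ ρ) (L : ℝ) (hL : 0 < L)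
    (a : ℝ) :
    IntegrableOn (fun y => th d y * (y ^ a * ρ (Real.log y / (2 * L)))) (Set.Ioi 0) ∧
    HasSum (fun n : ℕ => js (8 * (d : ℤ)) (n + 1) * ∫ y in Set.Ioi (0 : ℝ),
      Real.exp (-(Real.pi * ((n : ℝ) + 1) ^ 2 * y / (8 * d))) *
        (y ^ a * ρ (Real.log y / (2 * L))))
      (∫ y in Set.Ioi (0 : ℝ), th d y * (y ^ a * ρ (Real.log y / (2 * L)))) :=
  swap0 d hd (Real.exp (-(2 * L * δ))) (Real.exp_pos _)
    (fun y => y ^ a * ρ (Real.log y / (2 * L)))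
    (fun y h1 h2 => by rw [rho_zero δ ρ hρ L hL y h1 h2, mul_zero])
    (fun c' hc' => intg δ ρ hρ L hL c' a hc')

/-- the weight of the `n`-th term, after the substitution `v = m² y/(8d)` -/
lemma kw_eq (d : ℕ) (hd : 0 < d) (L : ℝ) (hL : 0 < L) (Φ : ℝ → ℝ) (m : ℝ) (hm : 0 < m) :
    KW L (be L d) Φ (Real.log m / L) = (Real.sqrt m * (8 * (d : ℝ)) ^ (-(1 / 4) : ℝ) *
      ∫ y in Set.Ioi (0 : ℝ), Real.exp (-(Real.pi * m ^ 2 * y / (8 * d))) *
        (y ^ (-(3 / 4) : ℝ) * Φ (Real.log y / (2 * L)))) / g0 := by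
  have hd' : (0 : ℝ) < d := by exact_mod_cast hd
  have hb : 0 < m ^ 2 / (8 * (d : ℝ)) := by positivity
  unfold KW
  congr 1
  have h := integral_comp_mul_left_Ioi (fun v : ℝ => Real.exp (-(Real.pi * v)) *
    v ^ (-(3 / 4) : ℝ) * Φ (TV L (be L d) v - Real.log m / L)) 0 hb
  rw [mul_zero, smul_eq_mul] at h
  have h' : (∫ v in Set.Ioi (0 : ℝ), Real.exp (-(Real.pi * v)) *
    v ^ (-(3 / 4) : ℝ) * Φ (TV L (be L d) v - Real.log m / L)) = m ^ 2 / (8 * (d : ℝ)) *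
    ∫ y in Set.Ioi (0 : ℝ), Real.exp (-(Real.pi * (m ^ 2 / (8 * (d : ℝ)) * y))) *
    (m ^ 2 / (8 * (d : ℝ)) * y) ^ (-(3 / 4) : ℝ) *
      Φ (TV L (be L d) (m ^ 2 / (8 * (d : ℝ)) * y) - Real.log m / L) := by
    rw [h, mul_inv_cancel_left₀ hb.ne']
  rw [h', ← integral_const_mul, ← integral_const_mul]
  refine setIntegral_congr_fun measurableSet_Ioi (fun y hy => ?_)
  have hy : 0 < y := hy
  have e1 : TV L (be L d) (m ^ 2 / (8 * (d : ℝ)) * y) - Real.log m / L = Real.log y / (2 * L) := by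
    unfold TV be
    have : (8 : ℝ) * (m ^ 2 / (8 * (d : ℝ)) * y) = m ^ 2 * y / d := by field_simp
    rw [this, Real.log_div (by positivity) (by positivity), Real.log_mul (by positivity)
      (by positivity), Real.log_pow]
    field_simp
    push_cast
    ring
  have e2 : m ^ 2 / (8 * (d : ℝ)) * (m ^ 2 / (8 * (d : ℝ)) * y) ^ (-(3 / 4) : ℝ) =
      Real.sqrt m * (8 * (d : ℝ)) ^ (-(1 / 4) : ℝ) * y ^ (-(3 / 4) : ℝ) := by
    rw [Real.mul_rpow hb.le hy.le, ← mul_assoc]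
    congr 1
    have : m ^ 2 / (8 * (d : ℝ)) * (m ^ 2 / (8 * (d : ℝ))) ^ (-(3 / 4) : ℝ) =
        (m ^ 2 / (8 * (d : ℝ))) ^ (1 / 4 : ℝ) := by
      nth_rewrite 1 [← Real.rpow_one (m ^ 2 / (8 * (d : ℝ)))]
      rw [← Real.rpow_add hb]; norm_num
    rw [this, Real.div_rpow (by positivity) (by positivity), Real.rpow_neg (by positivity),
      div_eq_mul_inv]
    congr 1
    rw [Real.sqrt_eq_rpow, ← Real.rpow_natCast, ← Real.rpow_mul hm.le]
    norm_num
  rw [e1]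
  have e3 : Real.pi * (m ^ 2 / (8 * (d : ℝ)) * y) = Real.pi * m ^ 2 * y / (8 * d) := by ring
  rw [e3]
  calc m ^ 2 / (8 * (d : ℝ)) * (Real.exp (-(Real.pi * m ^ 2 * y / (8 * ↑d))) *
        (m ^ 2 / (8 * ↑d) * y) ^ (-(3 / 4) : ℝ) * Φ (Real.log y / (2 * L)))
      = (m ^ 2 / (8 * (d : ℝ)) * (m ^ 2 / (8 * ↑d) * y) ^ (-(3 / 4) : ℝ)) *
        (Real.exp (-(Real.pi * m ^ 2 * y / (8 * ↑d))) * Φ (Real.log y / (2 * L))) := by ring
    _ = _ := by rw [e2]; ring

/-- the reflected integrand -/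
lemma refl_pt (d : ℕ) (hC2 : ∀ y : ℝ, 0 < y → th d (1 / y) = Real.sqrt y * th d y) (A : ℝ) (ρ : ℝ → ℝ) (L y : ℝ)
    (hy : 0 < y) : (|(-1 : ℝ)| * y ^ ((-1 : ℝ) - 1)) • (th d (y ^ (-1 : ℝ)) *
      ((y ^ (-1 : ℝ)) ^ (-(3 / 4) - A) * ρ (Real.log (y ^ (-1 : ℝ)) / (2 * L)))) =
    th d y * (y ^ (-(3 / 4) + A) * ρ (-(Real.log y / (2 * L)))) := by
  have h1 := hC2 y hy
  rw [one_div] at h1
  have h2 : Real.log (y⁻¹) / (2 * L) = -(Real.log y / (2 * L)) := by
    rw [Real.log_inv, neg_div]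
  rw [smul_eq_mul, Real.rpow_neg_one, h1, h2, abs_neg, abs_one, one_mul, Real.sqrt_eq_rpow,
    Real.inv_rpow hy.le, ← Real.rpow_neg hy.le]
  have h3 : y ^ (-(3 / 4) + A) = y ^ ((-1 : ℝ) - 1) * (y ^ (1 / 2 : ℝ) * y ^ (-(-(3 / 4) - A))) := by
    rw [← Real.rpow_add hy, ← Real.rpow_add hy]
    congr 1
    ring
  rw [h3]
  ring

theorem C6_of (d : ℕ) (hd : 0 < d) (hC2 : ∀ y : ℝ, 0 < y → th d (1 / y) = Real.sqrt y * th d y)
    (δ : ℝ) (ρ : ℝ → ℝ)
    (hρ : RH δ ρ) (L : ℝ) (hL : 0 < L) (x : ℝ) (hx : 0 ≤ x) :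
    Nf L (KW L (be L d) (Ph ρ x)) d = Kd L d x * LLd d (1 / 2 + x / L) := by
  have hd0 : 0 < d := hd
  have hd' : (0 : ℝ) < d := by exact_mod_cast hd0
  have h8 : (0 : ℝ) < 8 * (d : ℝ) := by positivity
  obtain ⟨A, hA⟩ : ∃ A : ℝ, A = x / (2 * L) := ⟨_, rfl⟩
  obtain ⟨i1, s1⟩ := swap d hd0 δ ρ hρ L hL (-(3 / 4) + A)
  obtain ⟨i2, s2⟩ := swap d hd0 δ ρ hρ L hL (-(3 / 4) - A)
  obtain ⟨T1, hT1⟩ : ∃ T1 : ℝ, T1 = ∫ y in Set.Ioi (0 : ℝ),
    th d y * (y ^ (-(3 / 4) + A) * ρ (Real.log y / (2 * L))) := ⟨_, rfl⟩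
  obtain ⟨T2, hT2⟩ : ∃ T2 : ℝ, T2 = ∫ y in Set.Ioi (0 : ℝ),
    th d y * (y ^ (-(3 / 4) - A) * ρ (Real.log y / (2 * L))) := ⟨_, rfl⟩
  rw [← hT1] at s1
  rw [← hT2] at s2
  -- pointwise form of the weight
  have hPh : ∀ y : ℝ, 0 < y → y ^ (-(3 / 4) : ℝ) * Ph ρ x (Real.log y / (2 * L)) =
      Real.exp (-(x / 2)) * (y ^ (-(3 / 4) + A) * ρ (Real.log y / (2 * L)) +
        y ^ (-(3 / 4) - A) * ρ (Real.log y / (2 * L))) := by
    intro y hy
    unfold Ph
    have e1 : 2 * Real.cosh (x * (Real.log y / (2 * L))) = y ^ A + y ^ (-A) := by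
      rw [Real.cosh_eq, Real.rpow_def_of_pos hy, Real.rpow_def_of_pos hy]
      have : x * (Real.log y / (2 * L)) = Real.log y * A := by rw [hA]; field_simp
      rw [this]
      have e2 : Real.log y * -A = -(Real.log y * A) := by ring
      rw [e2]
      ring
    rw [e1, sub_eq_add_neg, Real.rpow_add hy, Real.rpow_add hy]
    ring
  -- the n-th integral
  have hI : ∀ n : ℕ, (∫ y in Set.Ioi (0 : ℝ),
      Real.exp (-(Real.pi * ((n : ℝ) + 1) ^ 2 * y / (8 * d))) *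
        (y ^ (-(3 / 4) : ℝ) * Ph ρ x (Real.log y / (2 * L)))) =
      Real.exp (-(x / 2)) * ((∫ y in Set.Ioi (0 : ℝ),
      Real.exp (-(Real.pi * ((n : ℝ) + 1) ^ 2 * y / (8 * d))) *
        (y ^ (-(3 / 4) + A) * ρ (Real.log y / (2 * L)))) + ∫ y in Set.Ioi (0 : ℝ),
      Real.exp (-(Real.pi * ((n : ℝ) + 1) ^ 2 * y / (8 * d))) *
        (y ^ (-(3 / 4) - A) * ρ (Real.log y / (2 * L)))) := by
    intro n
    have hi : ∀ a : ℝ, IntegrableOn (fun y => Real.exp (-(Real.pi * ((n : ℝ) + 1) ^ 2 * y / (8 * d))) *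
        (y ^ a * ρ (Real.log y / (2 * L)))) (Set.Ioi 0) := by
      intro a
      have := intg δ ρ hρ L hL (Real.pi * ((n : ℝ) + 1) ^ 2 / (8 * d)) a (by positivity)
      refine this.congr_fun (fun y _ => ?_) measurableSet_Ioi
      simp only
      congr 2
      ring
    rw [← integral_add (hi _) (hi _), ← integral_const_mul]
    refine setIntegral_congr_fun measurableSet_Ioi (fun y hy => ?_)
    rw [hPh y hy]
    ring
  have hN : Nf L (KW L (be L d) (Ph ρ x)) d =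
      (8 * (d : ℝ)) ^ (-(1 / 4) : ℝ) * Real.exp (-(x / 2)) / g0 * (T1 + T2) := by
    unfold Nf
    rw [← (s1.add s2).tsum_eq, ← tsum_mul_left]
    refine tsum_congr (fun n => ?_)
    have hn : (0 : ℝ) < (n : ℝ) + 1 := by positivity
    rw [kw_eq d hd0 L hL (Ph ρ x) ((n : ℝ) + 1) hn, hI n]
    have hsq : Real.sqrt ((n : ℝ) + 1) ≠ 0 := (Real.sqrt_pos.2 hn).ne'
    generalize (∫ y in Set.Ioi (0 : ℝ),
      Real.exp (-(Real.pi * ((n : ℝ) + 1) ^ 2 * y / (8 * d))) *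
        (y ^ (-(3 / 4) + A) * ρ (Real.log y / (2 * L)))) = I1
    generalize (∫ y in Set.Ioi (0 : ℝ),
      Real.exp (-(Real.pi * ((n : ℝ) + 1) ^ 2 * y / (8 * d))) *
        (y ^ (-(3 / 4) - A) * ρ (Real.log y / (2 * L)))) = I2
    generalize js (8 * (d : ℤ)) (n + 1) = j
    generalize (8 * (d : ℝ)) ^ (-(1 / 4) : ℝ) = b
    by_cases hg : g0 = 0
    · rw [hg]; simp
    · field_simp
  -- reflection
  have hT2' : T2 = ∫ y in Set.Ioi (0 : ℝ),
      th d y * (y ^ (-(3 / 4) + A) * ρ (-(Real.log y / (2 * L)))) := by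
    rw [hT2, ← integral_comp_rpow_Ioi _ (show (-1 : ℝ) ≠ 0 by norm_num)]
    refine setIntegral_congr_fun measurableSet_Ioi (fun y hy => ?_)
    exact refl_pt d hC2 A ρ L y hy
  have i2' : IntegrableOn (fun y => th d y * (y ^ (-(3 / 4) + A) * ρ (-(Real.log y / (2 * L)))))
      (Set.Ioi 0) := by
    have := (integrableOn_Ioi_comp_rpow_iff (fun y : ℝ =>
      th d y * (y ^ (-(3 / 4) - A) * ρ (Real.log y / (2 * L)))) (show (-1 : ℝ) ≠ 0 by norm_num)).2 i2
    refine this.congr_fun (fun y hy => ?_) measurableSet_Ioi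
    exact refl_pt d hC2 A ρ L y hy
  have hsum : T1 + T2 = ∫ y in Set.Ioi (0 : ℝ), th d y * y ^ (-(3 / 4) + A) := by
    rw [hT1, hT2', ← integral_add i1 i2']
    refine setIntegral_congr_fun measurableSet_Ioi (fun y hy => ?_)
    rw [← mul_add, ← mul_add, hρ.sym, mul_one]
  rw [hN, hsum]
  unfold Kd LLd
  have hσ : 0 < 1 / 2 + x / L := by positivity
  have hgm : 0 < gm (1 / 2 + x / L) := by
    unfold gm
    exact mul_pos (Real.rpow_pos_of_pos Real.pi_pos _) (Real.Gamma_pos_of_pos (by positivity))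
  have e1 : (1 / 2 + x / L) / 2 - 1 = -(3 / 4) + A := by rw [hA]; field_simp; ring
  have e2 : (1 / 2 + x / L) / 2 = 1 / 4 + A := by rw [hA]; field_simp; ring
  rw [e1, e2, ← hA, Real.rpow_add h8, Real.rpow_neg h8.le]
  have h3 : (8 * (d : ℝ)) ^ A ≠ 0 := (Real.rpow_pos_of_pos h8 _).ne'
  have h4 : (8 * (d : ℝ)) ^ (1 / 4 : ℝ) ≠ 0 := (Real.rpow_pos_of_pos h8 _).ne'
  have h5 := hgm.ne'
  generalize (8 * (d : ℝ)) ^ A = a at *
  generalize (8 * (d : ℝ)) ^ (1 / 4 : ℝ) = b at *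
  generalize gm (1 / 2 + x / L) = g at *
  generalize (∫ y in Set.Ioi (0 : ℝ), th d y * y ^ (-(3 / 4) + A)) = J
  by_cases hg : g0 = 0
  · rw [hg]; simp
  · field_simp

end

end Pool.Agent.H553R2.RZ2_C6a
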