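import Pool.Agent.H553R2.Lower

/-!
# Circuits with counting gates and reachability gates, invariant under relabelling
-/

namespace H553R2

open Equiv

/-- A circuit reading a path system, with gates `Q`, all of whose parts are invariant under the
permutations of the interchangeable elements.  There are three kinds of gates.  An input gate
(`input q = some (x, y, z)`) reads whether `R x y z`.  A reachability gate (`isReach q`) outputs
whether `tgt q` can be reached from `src q` in the directed graph with vertex set `Q` in which
there is an arc from `u` to `v` if `arc q u v = some g` and the gate `g` is true.  Every other gate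
reads, for each label `l`, the number of true gates `q'` among those joined to it by a wire
`wire q q' = some l`, and outputs an arbitrary function `gate q` of these numbers. -/
structure ReachCircuit (n : ℕ) (M Λ Q : Type*) [MulAction (Perm (Fin n)) Q] where
  level : Q → ℕ
  input : Q → Option (Elt n M × Elt n M × Elt n M)
  isReach : Q → Prop
  arc : Q → Q → Q → Option Q
  src : Q → Q
  tgt : Q → Q
  wire : Q → Q → Option Λ
  gate : Q → (Λ → ℕ) → Prop
  out : Q
  level_wire : ∀ q q' l, wire q q' = some l → level q' < level q
  level_arc : ∀ q u v g, arc q u v = some g → level g < level q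
  input_inv : ∀ (π : Perm (Fin n)) q,
    input (π • q) = (input q).map fun t => (ren π t.1, ren π t.2.1, ren π t.2.2)
  isReach_inv : ∀ (π : Perm (Fin n)) q, isReach (π • q) ↔ isReach q
  arc_inv : ∀ (π : Perm (Fin n)) q u v,
    arc (π • q) (π • u) (π • v) = (arc q u v).map fun g => π • g
  src_inv : ∀ (π : Perm (Fin n)) q, src (π • q) = π • src q
  tgt_inv : ∀ (π : Perm (Fin n)) q, tgt (π • q) = π • tgt q
  wire_inv : ∀ (π : Perm (Fin n)) q q', wire (π • q) (π • q') = wire q q'
  gate_inv : ∀ (π : Perm (Fin n)) q, gate (π • q) = gate q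
  out_inv : ∀ π : Perm (Fin n), π • out = out

/-- The value of the gate `q` on the path system `R`. -/
def ReachCircuit.val {n : ℕ} {M Λ Q : Type*} [MulAction (Perm (Fin n)) Q]
    (C : ReachCircuit n M Λ Q) (R : PathSystem n M) (q : Q) : Prop :=
  match C.input q with
  | some t => R t.1 t.2.1 t.2.2
  | none =>
      (C.isReach q ∧ Relation.ReflTransGen
        (fun u v => ∃ g : {g : Q // C.arc q u v = some g}, C.val R g.1) (C.src q) (C.tgt q)) ∨
      (¬ C.isReach q ∧ C.gate q fun l =>
        Nat.card {q' : {q' : Q // C.wire q q' = some l} // C.val R q'.1})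
termination_by C.level q
decreasing_by
  · exact C.level_arc _ _ _ _ g.2
  · exact C.level_wire _ _ _ q'.2

section steps

variable {α : Type*} (E : α → α → Prop)

/-- at most `k` steps -/
def Steps : ℕ → α → α → Prop
  | 0, u, v => u = v
  | k + 1, u, v => ∃ m, Steps k u m ∧ (m = v ∨ E m v)

theorem steps_succ_of {k : ℕ} {u v : α} (h : Steps E k u v) : Steps E (k + 1) u v :=
  ⟨v, h, Or.inl rfl⟩

theorem steps_mono {k l : ℕ} (hkl : k ≤ l) {u v : α} (h : Steps E k u v) : Steps E l u v := by
  induction l, hkl using Nat.le_induction with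
  | base => exact h
  | succ l _ ih => exact steps_succ_of E ih

theorem steps_refl (k : ℕ) (u : α) : Steps E k u u := by
  induction k with
  | zero => exact rfl
  | succ k ih => exact steps_succ_of E ih

theorem steps_add (a b : ℕ) : ∀ u v : α, Steps E (a + b) u v ↔ ∃ m, Steps E a u m ∧ Steps E b m v := by
  induction b with
  | zero =>
    intro u v
    constructor
    · intro h; exact ⟨v, h, rfl⟩
    · rintro ⟨m, h, rfl⟩; exact h
  | succ b ih =>
    intro u v
    constructor
    · rintro ⟨m, h, hm⟩
      obtain ⟨m', h1, h2⟩ := (ih u m).1 h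
      exact ⟨m', h1, m, h2, hm⟩
    · rintro ⟨m', h1, m, h2, hm⟩
      exact ⟨m, (ih u m).2 ⟨m', h1, h2⟩, hm⟩

theorem reflTransGen_of_steps {k : ℕ} : ∀ {u v : α}, Steps E k u v → Relation.ReflTransGen E u v := by
  induction k with
  | zero => rintro u v rfl; exact Relation.ReflTransGen.refl
  | succ k ih =>
    rintro u v ⟨m, h, hm⟩
    rcases hm with rfl | hm
    · exact ih h
    · exact (ih h).tail hm

theorem steps_of_reflTransGen {u v : α} (h : Relation.ReflTransGen E u v) : ∃ k, Steps E k u v := by
  induction h with
  | refl => exact ⟨0, rfl⟩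
  | tail _ hbc ih =>
    obtain ⟨k, hk⟩ := ih
    exact ⟨k + 1, _, hk, Or.inr hbc⟩

theorem steps_card [Fintype α] {u v : α} (h : Relation.ReflTransGen E u v) :
    Steps E (Fintype.card α) u v := by
  classical
  let S : ℕ → Finset α := fun k => Finset.univ.filter fun v => Steps E k u v
  have hmem : ∀ k v, v ∈ S k ↔ Steps E k u v := fun k v => by simp [S]
  have hmono : ∀ k, S k ⊆ S (k + 1) := fun k v hv =>
    (hmem _ _).2 (steps_succ_of E ((hmem _ _).1 hv))
  obtain ⟨k, hk1, hk2⟩ : ∃ k, k ≤ Fintype.card α ∧ S (k + 1) = S k := by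
    by_contra hcon
    push Not at hcon
    have h1 : ∀ k, k ≤ Fintype.card α + 1 → k < (S k).card + 1 ∧ (0 < k → k < (S k).card + 1) ∧
        k + 1 ≤ (S k).card := by
      intro k
      induction k with
      | zero =>
        intro _
        have : u ∈ S 0 := (hmem _ _).2 rfl
        have := Finset.card_pos.2 ⟨u, this⟩
        omega
      | succ k ih =>
        intro hk
        have h2 := ih (by omega)
        have h3 : S k ⊂ S (k + 1) := (hmono k).ssubset_of_ne fun h => hcon k (by omega) h.symm
        have h4 := Finset.card_lt_card h3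
        omega
    have h2 := (h1 (Fintype.card α) (by omega)).2.2
    have h3 := Finset.card_le_univ (S (Fintype.card α))
    omega
  have hst : ∀ l, k ≤ l → S l = S k := by
    intro l hl
    induction l, hl using Nat.le_induction with
    | base => rfl
    | succ l _ ih =>
      ext v
      rw [hmem]
      constructor
      · rintro ⟨m, h1, h2⟩
        rw [← hk2, hmem]
        exact ⟨m, (hmem _ _).1 (ih ▸ (hmem _ _).2 h1), h2⟩
      · intro hv
        rw [← ih, hmem] at hv
        exact steps_succ_of E hv
  obtain ⟨l, hl⟩ := steps_of_reflTransGen E h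
  have h5 : v ∈ S (max l k) := (hmem _ _).2 (steps_mono E (le_max_left _ _) hl)
  rw [hst _ (le_max_right _ _), ← hst _ hk1, hmem] at h5
  exact h5

/-- doubling -/
def Dbl : ℕ → α → α → Prop
  | 0, u, v => u = v ∨ E u v
  | k + 1, u, v => ∃ m, Dbl k u m ∧ Dbl k m v

theorem dbl_iff (k : ℕ) : ∀ u v : α, Dbl E k u v ↔ Steps E (2 ^ k) u v := by
  induction k with
  | zero =>
    intro u v
    constructor
    · rintro h
      exact ⟨u, rfl, h⟩
    · rintro ⟨m, rfl, h⟩
      exact h
  | succ k ih =>
    intro u v
    have : 2 ^ (k + 1) = 2 ^ k + 2 ^ k := by ring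
    rw [this, steps_add]
    exact exists_congr fun m => and_congr (ih _ _) (ih _ _)

theorem dbl_reach [Fintype α] {K : ℕ} (hK : Fintype.card α ≤ 2 ^ K) (u v : α) :
    Relation.ReflTransGen E u v ↔ Dbl E K u v := by
  rw [dbl_iff]
  exact ⟨fun h => steps_mono E hK (steps_card E h), reflTransGen_of_steps E⟩

end steps

end H553R2
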