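import Pool.Agent.H553R2.Model

/-!
# The upper bound: small symmetric circuits of linear depth for path systems
-/

namespace H553R2

open Equiv

section

variable {n : ℕ} {M : Type*}

theorem ren_one (x : Elt n M) : ren 1 x = x := by rcases x with x | x <;> rfl

theorem ren_mul (π σ : Perm (Fin n)) (x : Elt n M) : ren (π * σ) x = ren π (ren σ x) := by
  rcases x with x | x <;> rfl

theorem ren_inj (π : Perm (Fin n)) {x y : Elt n M} : ren π x = ren π y ↔ x = y := by
  constructor
  · intro h
    have := congrArg (ren π⁻¹) h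
    rwa [← ren_mul, ← ren_mul, inv_mul_cancel, ren_one, ren_one] at this
  · rintro rfl; rfl

/-- the gates -/
inductive UG (n : ℕ) (M : Type*) (N : ℕ)
  | inp (x y z : Elt n M) : UG n M N
  | der (i : Fin (N + 1)) (x : Elt n M) : UG n M N
  | app (i : Fin N) (x y z : Elt n M) : UG n M N

/-- the gates as a sum -/
def ugEquiv (n : ℕ) (M : Type*) (N : ℕ) : UG n M N ≃
    ((Elt n M × Elt n M × Elt n M) ⊕ (Fin (N + 1) × Elt n M)) ⊕
      (Fin N × Elt n M × Elt n M × Elt n M) where
  toFun q := match q with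
    | .inp x y z => Sum.inl (Sum.inl (x, y, z))
    | .der i x => Sum.inl (Sum.inr (i, x))
    | .app i x y z => Sum.inr (i, x, y, z)
  invFun q := match q with
    | Sum.inl (Sum.inl (x, y, z)) => .inp x y z
    | Sum.inl (Sum.inr (i, x)) => .der i x
    | Sum.inr (i, x, y, z) => .app i x y z
  left_inv q := by cases q <;> rfl
  right_inv q := by rcases q with (⟨x, y, z⟩ | ⟨i, x⟩) | ⟨i, x, y, z⟩ <;> rfl

noncomputable instance [Fintype M] (N : ℕ) : Fintype (UG n M N) :=
  Fintype.ofEquiv _ (ugEquiv n M N).symm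

theorem card_UG [Fintype M] (N : ℕ) : Fintype.card (UG n M N) =
    (n + Fintype.card M) ^ 3 + (N + 1) * (n + Fintype.card M) + N * (n + Fintype.card M) ^ 3 := by
  rw [Fintype.card_congr (ugEquiv n M N)]
  simp only [Fintype.card_sum, Fintype.card_prod, Fintype.card_fin]
  ring

instance (N : ℕ) : MulAction (Perm (Fin n)) (UG n M N) where
  smul π q := match q with
    | .inp x y z => .inp (ren π x) (ren π y) (ren π z)
    | .der i x => .der i (ren π x)
    | .app i x y z => .app i (ren π x) (ren π y) (ren π z)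
  one_smul q := by
    cases q
    · show UG.inp _ _ _ = _; rw [ren_one, ren_one, ren_one]
    · show UG.der _ _ = _; rw [ren_one]
    · show UG.app _ _ _ _ = _; rw [ren_one, ren_one, ren_one]
  mul_smul π σ q := by
    cases q
    · show UG.inp _ _ _ = UG.inp _ _ _; rw [ren_mul, ren_mul, ren_mul]
    · show UG.der _ _ = UG.der _ _; rw [ren_mul]
    · show UG.app _ _ _ _ = UG.app _ _ _ _; rw [ren_mul, ren_mul, ren_mul]

/-- the wires -/
def Wr {N : ℕ} : UG n M N → UG n M N → Prop
  | .app _ x y z, .inp x' y' z' => x' = x ∧ y' = y ∧ z' = z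
  | .app i _ y z, .der j u => j.val = i.val ∧ (u = y ∨ u = z)
  | .der i x, .der j u => i.val = j.val + 1 ∧ u = x
  | .der i x, .app j x' _ _ => i.val = j.val + 1 ∧ x' = x
  | _, _ => False

/-- the levels -/
def ulevel {N : ℕ} : UG n M N → ℕ
  | .inp _ _ _ => 0
  | .der i _ => 2 * i.val
  | .app i _ _ _ => 2 * i.val + 1

theorem ulevel_lt {N : ℕ} : ∀ q q' : UG n M N, Wr q q' → ulevel q' < ulevel q := by
  rintro (⟨x, y, z⟩ | ⟨i, x⟩ | ⟨i, x, y, z⟩) (⟨x', y', z'⟩ | ⟨i', x'⟩ | ⟨i', x', y', z'⟩) h <;>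
    simp only [Wr, ulevel] at h ⊢ <;> omega

theorem Wr_smul {N : ℕ} (π : Perm (Fin n)) : ∀ q q' : UG n M N, Wr (π • q) (π • q') ↔ Wr q q' := by
  rintro (⟨x, y, z⟩ | ⟨i, x⟩ | ⟨i, x, y, z⟩) (⟨x', y', z'⟩ | ⟨i', x'⟩ | ⟨i', x', y', z'⟩)
  · exact Iff.rfl
  · exact Iff.rfl
  · exact Iff.rfl
  · exact Iff.rfl
  · show (i.val = i'.val + 1 ∧ ren π x' = ren π x) ↔ (i.val = i'.val + 1 ∧ x' = x)
    rw [ren_inj]
  · show (i.val = i'.val + 1 ∧ ren π x' = ren π x) ↔ (i.val = i'.val + 1 ∧ x' = x)
    rw [ren_inj]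
  · show (ren π x' = ren π x ∧ ren π y' = ren π y ∧ ren π z' = ren π z) ↔ _
    rw [ren_inj, ren_inj, ren_inj]; rfl
  · show (i'.val = i.val ∧ (ren π x' = ren π y ∨ ren π x' = ren π z)) ↔ _
    rw [ren_inj, ren_inj]; rfl
  · exact Iff.rfl

open Classical in
/-- The gate functions: AND, OR, and the constants `x = s` at the beginning. -/
noncomputable def ugate (s : M) {N : ℕ} (q : UG n M N) (f : Unit → ℕ) : Prop :=
  match q with
  | .inp _ _ _ => True
  | .der i x => if i.val = 0 then x = Sum.inr s else 0 < f ()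
  | .app i x y z => f () = Nat.card {q' : UG n M N // Wr (.app i x y z) q'}

open Classical in
/-- the circuit -/
noncomputable def upperC (s t : M) (N : ℕ) : SymCircuit n M Unit (UG n M N) where
  level := ulevel
  input q := match q with
    | .inp x y z => some (x, y, z)
    | _ => none
  wire q q' := if Wr q q' then some () else none
  gate := ugate s
  out := .der (Fin.last N) (Sum.inr t)
  level_lt q q' l h := by
    apply ulevel_lt
    by_contra h'
    rw [if_neg h'] at h
    exact absurd h (by simp)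
  input_inv π q := by cases q <;> rfl
  wire_inv π q q' := by simp only [Wr_smul]
  gate_inv π q := by
    funext f
    rcases q with ⟨x, y, z⟩ | ⟨i, x⟩ | ⟨i, x, y, z⟩
    · rfl
    · show (if i.val = 0 then ren π x = Sum.inr s else 0 < f ()) = (if i.val = 0 then x = Sum.inr s
        else 0 < f ())
      have : (ren π x = Sum.inr s) ↔ x = Sum.inr s := by
        rw [show (Sum.inr s : Elt n M) = ren π (Sum.inr s) from rfl, ren_inj]
        rfl
      simp only [this]
    · show (f () = Nat.card {q' : UG n M N // Wr (π • UG.app i x y z) q'})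
        = (f () = Nat.card {q' : UG n M N // Wr (UG.app i x y z) q'})
      have : Nat.card {q' : UG n M N // Wr (UG.app i x y z) q'}
          = Nat.card {q' : UG n M N // Wr (π • UG.app i x y z) q'} :=
        Nat.card_congr (Equiv.subtypeEquiv (MulAction.toPerm π) (fun q' => (Wr_smul π _ q').symm))
      rw [this]
  out_inv π := rfl

/-- derivable in at most `i` rounds -/
def DerN (R : PathSystem n M) (s : M) : ℕ → Elt n M → Prop
  | 0, x => x = Sum.inr s
  | i + 1, x => DerN R s i x ∨ ∃ y z, R x y z ∧ DerN R s i y ∧ DerN R s i z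

theorem card_eq_iff {T : Type*} [Finite T] (P : T → Prop) :
    Nat.card {c : T // P c} = Nat.card T ↔ ∀ c, P c := by
  constructor
  · intro h c
    by_contra hc
    have := Finite.card_subtype_lt (p := P) hc
    omega
  · intro h
    exact Nat.card_congr (Equiv.subtypeUnivEquiv h)

theorem wire_eq {N : ℕ} (s t : M) (q q' : UG n M N) :
    (upperC s t N).wire q q' = some () ↔ Wr q q' := by
  classical
  show (if Wr q q' then some () else none) = some () ↔ _
  split_ifs with h <;> simp [h]

theorem upper_val [Fintype M] (R : PathSystem n M) (s t : M) {N : ℕ} :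
    ∀ (i : ℕ) (hi : i < N + 1) (x : Elt n M),
      (upperC s t N).val R (.der ⟨i, hi⟩ x) ↔ DerN R s i x := by
  intro i
  induction i with
  | zero =>
    intro hi x
    have h0 : (upperC s t N).val R (.der ⟨0, hi⟩ x) = ugate s (UG.der (N := N) ⟨0, hi⟩ x)
        (fun l => Nat.card {q' : {q' : UG n M N // (upperC s t N).wire (.der ⟨0, hi⟩ x) q' = some l}
          // (upperC s t N).val R q'.1}) := by
      rw [SymCircuit.val]; rfl
    rw [h0]
    simp [ugate, DerN]
  | succ i ih =>
    intro hi x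
    have happ : ∀ x y z, (upperC s t N).val R (.app ⟨i, by omega⟩ x y z) ↔
        (R x y z ∧ DerN R s i y ∧ DerN R s i z) := by
      intro x y z
      rw [SymCircuit.val]
      show Nat.card {q' : {q' : UG n M N // (upperC s t N).wire (.app ⟨i, by omega⟩ x y z) q' = some ()} //
        (upperC s t N).val R q'.1} = Nat.card {q' : UG n M N // Wr (.app ⟨i, by omega⟩ x y z) q'} ↔ _
      have h1 : Nat.card {q' : UG n M N // Wr (.app ⟨i, by omega⟩ x y z) q'}
          = Nat.card {q' : UG n M N // (upperC s t N).wire (.app ⟨i, by omega⟩ x y z) q' = some ()} :=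
        Nat.card_congr (Equiv.subtypeEquiv (Equiv.refl _) (fun q' => (wire_eq s t _ q').symm))
      rw [h1, card_eq_iff]
      have hinp : ∀ x y z, (upperC s t N).val R (.inp x y z) ↔ R x y z := by
        intro x y z
        rw [SymCircuit.val]
        exact Iff.rfl
      constructor
      · intro h
        refine ⟨?_, ?_, ?_⟩
        · exact (hinp _ _ _).1 (h ⟨.inp x y z, (wire_eq s t _ _).2 ⟨rfl, rfl, rfl⟩⟩)
        · exact (ih (by omega) _).1 (h ⟨.der ⟨i, by omega⟩ y, (wire_eq s t _ _).2 ⟨rfl, Or.inl rfl⟩⟩)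
        · exact (ih (by omega) _).1 (h ⟨.der ⟨i, by omega⟩ z, (wire_eq s t _ _).2 ⟨rfl, Or.inr rfl⟩⟩)
      · rintro ⟨h1, h2, h3⟩ ⟨q', hq'⟩
        rw [wire_eq] at hq'
        rcases q' with ⟨x', y', z'⟩ | ⟨i', x'⟩ | ⟨i', x', y', z'⟩
        · obtain ⟨rfl, rfl, rfl⟩ := hq'
          exact (hinp _ _ _).2 h1
        · obtain ⟨hi', hx'⟩ := hq'
          obtain ⟨j, hj⟩ := i'
          obtain rfl : j = i := hi'
          rcases hx' with rfl | rfl
          · exact (ih _ _).2 h2
          · exact (ih _ _).2 h3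
        · exact hq'.elim
    rw [SymCircuit.val]
    show (if (i + 1 : ℕ) = 0 then x = Sum.inr s else 0 < Nat.card _) ↔ _
    rw [if_neg (Nat.succ_ne_zero i), Finite.card_pos_iff]
    constructor
    · rintro ⟨⟨⟨q', hq'⟩, hv⟩⟩
      rw [wire_eq] at hq'
      rcases q' with ⟨x', y', z'⟩ | ⟨i', x'⟩ | ⟨i', x', y', z'⟩
      · exact hq'.elim
      · obtain ⟨hi', rfl⟩ := hq'
        obtain ⟨j, hj⟩ := i'
        obtain rfl : i = j := Nat.succ.inj hi'
        exact Or.inl ((ih _ _).1 hv)
      · obtain ⟨hi', rfl⟩ := hq'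
        obtain ⟨j, hj⟩ := i'
        obtain rfl : i = j := Nat.succ.inj hi'
        exact Or.inr ⟨y', z', (happ _ _ _).1 hv⟩
    · rintro (h | ⟨y, z, h⟩)
      · exact ⟨⟨⟨.der ⟨i, by omega⟩ x, (wire_eq s t _ _).2 ⟨rfl, rfl⟩⟩, (ih _ _).2 h⟩⟩
      · exact ⟨⟨⟨.app ⟨i, by omega⟩ x y z, (wire_eq s t _ _).2 ⟨rfl, rfl⟩⟩, (happ _ _ _).2 h⟩⟩

theorem DerN_mono (R : PathSystem n M) (s : M) {i j : ℕ} (hij : i ≤ j) {x : Elt n M}
    (h : DerN R s i x) : DerN R s j x := by
  induction j, hij using Nat.le_induction with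
  | base => exact h
  | succ j _ ih => exact Or.inl ih

theorem DerN_derivable (R : PathSystem n M) (s : M) (i : ℕ) : ∀ x, DerN R s i x →
    Derivable R (Sum.inr s) x := by
  induction i with
  | zero => intro x hx; rw [show x = Sum.inr s from hx]; exact Derivable.base
  | succ i ih =>
    rintro x (hx | ⟨y, z, h1, h2, h3⟩)
    · exact ih x hx
    · exact Derivable.rule x y z h1 (ih y h2) (ih z h3)

theorem derivable_iff [Fintype M] (R : PathSystem n M) (s : M) {N : ℕ}
    (hN : n + Fintype.card M ≤ N) (x : Elt n M) :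
    DerN R s N x ↔ Derivable R (Sum.inr s) x := by
  classical
  refine ⟨DerN_derivable R s N x, ?_⟩
  -- a closed stage
  obtain ⟨i, hi, hcl⟩ : ∃ i, i ≤ N ∧ ∀ x, DerN R s (i + 1) x → DerN R s i x := by
    by_contra hcon
    push Not at hcon
    have key : ∀ i, i ≤ N → i + 1 ≤ (Finset.univ.filter fun x => DerN R s i x).card := by
      intro i
      induction i with
      | zero =>
        intro _
        apply Finset.card_pos.2
        exact ⟨Sum.inr s, Finset.mem_filter.2 ⟨Finset.mem_univ _, rfl⟩⟩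
      | succ i ih =>
        intro hi
        have h1 := ih (by omega)
        obtain ⟨y, hy1, hy2⟩ := hcon i (by omega)
        have h2 : (Finset.univ.filter fun x => DerN R s i x).card <
            (Finset.univ.filter fun x => DerN R s (i + 1) x).card := by
          apply Finset.card_lt_card
          rw [Finset.ssubset_iff_of_subset]
          · exact ⟨y, Finset.mem_filter.2 ⟨Finset.mem_univ _, hy1⟩,
              fun h => hy2 (Finset.mem_filter.1 h).2⟩
          · intro x hx
            rw [Finset.mem_filter] at hx ⊢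
            exact ⟨hx.1, Or.inl hx.2⟩
        omega
    have h1 := key N le_rfl
    have h2 : (Finset.univ.filter fun x => DerN R s N x).card ≤ Fintype.card (Elt n M) :=
      Finset.card_le_univ _
    rw [Fintype.card_sum, Fintype.card_fin] at h2
    omega
  intro h
  apply DerN_mono R s hi
  induction h with
  | base => exact DerN_mono R s (Nat.zero_le i) rfl
  | rule x y z hR _ _ ihy ihz => exact hcl x (Or.inr ⟨y, z, hR, ihy, ihz⟩)

/-- **Upper bound.** -/
theorem upper_bound.{u} (n : ℕ) (M : Type u) [Fintype M] (s t : M) :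
    ∃ (Q : Type u) (_ : Fintype Q) (_ : MulAction (Perm (Fin n)) Q) (C : SymCircuit n M Unit Q),
      Fintype.card Q ≤ 4 * (n + Fintype.card M) ^ 4 ∧ C.level C.out ≤ 2 * (n + Fintype.card M) ∧
      ∀ R, C.val R C.out ↔ Derivable R (Sum.inr s) (Sum.inr t) := by
  refine ⟨UG n M (n + Fintype.card M), inferInstance, inferInstance, upperC s t _, ?_, ?_, ?_⟩
  · rw [card_UG]
    have hpos : 0 < Fintype.card M := Fintype.card_pos_iff.2 ⟨s⟩
    obtain ⟨N, hN⟩ : ∃ N, N = n + Fintype.card M := ⟨_, rfl⟩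
    rw [← hN]
    have h1 : 1 ≤ N := by omega
    have h2 : N ^ 3 ≤ N ^ 4 := Nat.pow_le_pow_right h1 (by norm_num)
    have h3 : N ^ 2 ≤ N ^ 4 := Nat.pow_le_pow_right h1 (by norm_num)
    have h4 : N ≤ N ^ 4 := Nat.le_self_pow (by norm_num) N
    nlinarith
  · show 2 * (Fin.last (n + Fintype.card M)).val ≤ _
    simp
  · intro R
    show (upperC s t (n + Fintype.card M)).val R (.der (Fin.last (n + Fintype.card M)) (Sum.inr t)) ↔ _
    rw [← derivable_iff R s le_rfl]
    exact upper_val R s t (n + Fintype.card M) (by omega) (Sum.inr t)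

end

end H553R2
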