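import Pool.Agent.H553R2.ReachLower
import Pool.Agent.H553R2.Upper

/-!
# Derivability in a bounded number of rounds: alternation depth against counting depth
-/

namespace H553R2

open Equiv

/-- The elements derivable from the axiom `s` in at most `r` rounds of simultaneous application of
the rules of the path system `R`. -/
def DerivableIn {n : ℕ} {M : Type*} (R : PathSystem n M) (s : Elt n M) : ℕ → Elt n M → Prop
  | 0, x => x = s
  | r + 1, x => DerivableIn R s r x ∨
      ∃ y z, R x y z ∧ DerivableIn R s r y ∧ DerivableIn R s r z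

/-- All gates of the circuit other than the input gates are conjunctions or disjunctions (of
arbitrary fan-in) of the gates they are joined to by wires. -/
def SymCircuit.IsAndOr {n : ℕ} {M Λ Q : Type*} [MulAction (Perm (Fin n)) Q]
    (C : SymCircuit n M Λ Q) : Prop :=
  ∀ q, C.input q = none →
    (∀ R, C.val R q ↔ ∀ q' l, C.wire q q' = some l → C.val R q') ∨
    (∀ R, C.val R q ↔ ∃ q' l, C.wire q q' = some l ∧ C.val R q')

section upper

variable {n : ℕ} {M : Type*}

theorem derN_iff (R : PathSystem n M) (s : M) (r : ℕ) : ∀ x, DerN R s r x ↔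
    DerivableIn R (Sum.inr s) r x := by
  induction r with
  | zero => intro x; exact Iff.rfl
  | succ r ih =>
    intro x
    show (DerN R s r x ∨ ∃ y z, R x y z ∧ DerN R s r y ∧ DerN R s r z) ↔ _
    simp only [ih]
    exact Iff.rfl

theorem upper_isAndOr [Fintype M] (s t : M) (N : ℕ) : (upperC (n := n) s t N).IsAndOr := by
  classical
  intro q hq
  rcases q with ⟨x, y, z⟩ | ⟨i, x⟩ | ⟨i, x, y, z⟩
  · exact absurd hq (by simp [upperC])
  · by_cases hi : i.val = 0
    · by_cases hx : x = Sum.inr s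
      · left
        intro R
        have h0 : (upperC s t N).val R (.der i x) := by
          obtain ⟨i, hi'⟩ := i
          obtain rfl : i = 0 := hi
          rw [upper_val]
          exact hx
        refine ⟨fun _ q' l hw => ?_, fun _ => h0⟩
        cases l
        rw [wire_eq] at hw
        rcases q' with ⟨x', y', z'⟩ | ⟨i', x'⟩ | ⟨i', x', y', z'⟩
        · exact hw.elim
        · exact absurd hw.1 (by omega)
        · exact absurd hw.1 (by omega)
      · right
        intro R
        have h0 : ¬ (upperC s t N).val R (.der i x) := by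
          obtain ⟨i, hi'⟩ := i
          obtain rfl : i = 0 := hi
          rw [upper_val]
          exact hx
        refine ⟨fun h => absurd h h0, ?_⟩
        rintro ⟨q', l, hw, -⟩
        cases l
        rw [wire_eq] at hw
        rcases q' with ⟨x', y', z'⟩ | ⟨i', x'⟩ | ⟨i', x', y', z'⟩
        · exact hw.elim
        · exact absurd hw.1 (by omega)
        · exact absurd hw.1 (by omega)
    · right
      intro R
      rw [SymCircuit.val]
      show (if i.val = 0 then x = Sum.inr s else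
        0 < Nat.card {q' : {q' : UG n M N // (upperC s t N).wire (.der i x) q' = some ()} //
          (upperC s t N).val R q'.1}) ↔ _
      rw [if_neg hi, Finite.card_pos_iff]
      constructor
      · rintro ⟨⟨⟨q', hq'⟩, hv⟩⟩
        exact ⟨q', (), hq', hv⟩
      · rintro ⟨q', l, hw, hv⟩
        cases l
        exact ⟨⟨⟨q', hw⟩, hv⟩⟩
  · left
    intro R
    rw [SymCircuit.val]
    show Nat.card {q' : {q' : UG n M N // (upperC s t N).wire (.app i x y z) q' = some ()} //
        (upperC s t N).val R q'.1} = Nat.card {q' : UG n M N // Wr (.app i x y z) q'} ↔ _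
    have h1 : Nat.card {q' : UG n M N // Wr (.app i x y z) q'}
        = Nat.card {q' : UG n M N // (upperC s t N).wire (.app i x y z) q' = some ()} :=
      Nat.card_congr (Equiv.subtypeEquiv (Equiv.refl _) (fun q' => (wire_eq s t _ q').symm))
    rw [h1, card_eq_iff]
    constructor
    · intro h q' l hw
      cases l
      exact h ⟨q', hw⟩
    · rintro h ⟨q', hw⟩
      exact h q' () hw

/-- **Upper bound.** -/
theorem rounds_upper.{u} (n r : ℕ) (M : Type u) [Fintype M] (s t : M) :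
    ∃ (Q : Type u) (_ : Fintype Q) (_ : MulAction (Perm (Fin n)) Q) (C : SymCircuit n M Unit Q),
      Fintype.card Q ≤ 2 * (r + 1) * (n + Fintype.card M) ^ 3 ∧ C.level C.out ≤ 2 * r ∧
      C.IsAndOr ∧ ∀ R, C.val R C.out ↔ DerivableIn R (Sum.inr s) r (Sum.inr t) := by
  refine ⟨UG n M r, inferInstance, inferInstance, upperC s t r, ?_, ?_, upper_isAndOr s t r, ?_⟩
  · rw [card_UG]
    have hpos : 0 < Fintype.card M := Fintype.card_pos_iff.2 ⟨s⟩
    obtain ⟨N, hN⟩ : ∃ N, N = n + Fintype.card M := ⟨_, rfl⟩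
    rw [← hN]
    have h1 : 1 ≤ N := by omega
    have h2 : N ≤ N ^ 3 := Nat.le_self_pow (by norm_num) N
    nlinarith [Nat.mul_le_mul_left r h2]
  · show 2 * (Fin.last r).val ≤ _
    simp
  · intro R
    show (upperC s t r).val R (.der (Fin.last r) (Sum.inr t)) ↔ _
    rw [← derN_iff]
    exact upper_val R s t r (by omega) (Sum.inr t)

end upper

section lower

theorem derivableIn_mono {n : ℕ} {M : Type*} (R : PathSystem n M) (s : Elt n M) {i j : ℕ}
    (hij : i ≤ j) {x : Elt n M} (h : DerivableIn R s i x) : DerivableIn R s j x := by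
  induction j, hij using Nat.le_induction with
  | base => exact h
  | succ j _ ih => exact Or.inl ih

theorem derivable_of_in {n : ℕ} {M : Type*} (R : PathSystem n M) (s : Elt n M) (i : ℕ) :
    ∀ x, DerivableIn R s i x → Derivable R s x := by
  induction i with
  | zero => rintro x rfl; exact Derivable.base
  | succ i ih =>
    rintro x (hx | ⟨y, z, h1, h2, h3⟩)
    · exact ih x hx
    · exact Derivable.rule x y z h1 (ih y h2) (ih z h3)

theorem yes_derivableIn {p : ℕ} [Fact p.Prime] {h n : ℕ} {M : Type*}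
    (e : (Pos h × ZMod p) ↪ Fin n) (s t : M) :
    DerivableIn (Gs e s t 0) (Sum.inr s) (h + 2) (Sum.inr t) := by
  have key : ∀ k, k ≤ h → ∀ x : Pos h, (x.1 : ℕ) + k = h → (x.2 : ℕ) ≤ x.1 →
      DerivableIn (Gs e s t 0) (Sum.inr s) (k + 1) (Sum.inl (e (x, 0))) := by
    intro k
    induction k with
    | zero =>
      intro _ x hx _
      exact Or.inr ⟨Sum.inr s, Sum.inr s, Or.inr (Or.inl ⟨x, by omega, rfl, rfl, rfl⟩), rfl, rfl⟩
    | succ k ih =>
      intro hk x hx hx2
      have h1 : (x.1 : ℕ) + 1 < h + 1 := by omega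
      have h2 : (x.2 : ℕ) + 1 < h + 1 := by omega
      refine Or.inr ⟨Sum.inl (e ((⟨x.1 + 1, h1⟩, x.2), 0)),
        Sum.inl (e ((⟨x.1 + 1, h1⟩, ⟨x.2 + 1, h2⟩), 0)),
        Or.inl ⟨x, (⟨x.1 + 1, h1⟩, x.2), (⟨x.1 + 1, h1⟩, ⟨x.2 + 1, h2⟩), 0, 0, 0, rfl, rfl, rfl,
          rfl, by rw [add_zero], rfl, rfl, rfl⟩, ?_, ?_⟩
      · exact ih (by omega) _ (by show (x.1 : ℕ) + 1 + k = h; omega)
          (by show (x.2 : ℕ) ≤ x.1 + 1; omega)
      · exact ih (by omega) _ (by show (x.1 : ℕ) + 1 + k = h; omega)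
          (by show (x.2 : ℕ) + 1 ≤ x.1 + 1; omega)
  have h0 := key h le_rfl (0, 0) (by simp) le_rfl
  exact Or.inr ⟨_, _, Or.inr (Or.inr ⟨rfl, rfl, rfl⟩), h0, h0⟩

/-- **Lower bound.** -/
theorem rounds_lower {n d a r : ℕ} {M Λ Q : Type*} [Fintype Q] [MulAction (Perm (Fin n)) Q]
    (C : SymCircuit n M Λ Q) {s t : M} (hst : s ≠ t) (ha : 1 ≤ a)
    (hr : 6 * (d + 1) * (2 * a + 1) ^ 3 + 2 ≤ r) (hn : 200 * r ^ 3 ≤ n)
    (hd : C.level C.out ≤ d)
    (hC : ∀ R, C.val R C.out ↔ DerivableIn R (Sum.inr s) r (Sum.inr t)) :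
    n ^ a < Fintype.card Q := by
  classical
  by_contra hcon
  push Not at hcon
  obtain ⟨s', hs'⟩ : ∃ s', s' = 2 * a + 1 := ⟨_, rfl⟩
  rw [← hs'] at hr
  have hs3 : 3 ≤ s' := by omega
  have hs'3 : 1 ≤ s' ^ 3 := Nat.one_le_pow _ _ (by omega)
  obtain ⟨h, hh⟩ : ∃ h, r = h + 2 := ⟨r - 2, by omega⟩
  have hh1 : 6 * (d + 1) * s' ^ 3 ≤ h := by omega
  have hh0 : 0 < h := by
    have : 0 < 6 * (d + 1) * s' ^ 3 := by positivity
    omega
  have hn1 : 10 ^ 8 * a ^ 4 ≤ n := by
    have h1 : 6 * s' ^ 3 ≤ r := by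
      have : 6 * 1 * s' ^ 3 ≤ 6 * (d + 1) * s' ^ 3 := by gcongr; omega
      omega
    have h2 : 200 * (6 * s' ^ 3) ^ 3 ≤ n := (Nat.mul_le_mul_left _ (Nat.pow_le_pow_left h1 3)).trans hn
    have h3 : 10 ^ 8 * a ^ 4 ≤ 200 * (6 * s' ^ 3) ^ 3 := by
      have h4 : 3 ^ 5 * (2 * a) ^ 4 ≤ s' ^ 5 * s' ^ 4 :=
        Nat.mul_le_mul (Nat.pow_le_pow_left hs3 5) (Nat.pow_le_pow_left (by omega) 4)
      have h5 : 200 * (6 * s' ^ 3) ^ 3 = 43200 * (s' ^ 5 * s' ^ 4) := by ring
      have h6 : 3 ^ 5 * (2 * a) ^ 4 = 3888 * a ^ 4 := by ring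
      rw [h5]
      rw [h6] at h4
      omega
    exact h3.trans h2
  have hsupp := exists_supp (Q := Q) ha hn1 hcon
  rw [← hs'] at hsupp
  obtain ⟨p, hp, hp1, hp2⟩ := Nat.exists_prime_lt_and_le_two_mul (2 * h) (by omega)
  haveI : Fact p.Prime := ⟨hp⟩
  have hcard : Fintype.card (Pos h × ZMod p) ≤ Fintype.card (Fin n) := by
    rw [Fintype.card_fin, Fintype.card_prod, Fintype.card_prod, Fintype.card_fin, ZMod.card]
    calc (h + 1) * (h + 1) * p ≤ r * r * (4 * r) := by
          apply Nat.mul_le_mul _ (by omega)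
          apply Nat.mul_le_mul <;> omega
      _ = 4 * r ^ 3 := by ring
      _ ≤ 200 * r ^ 3 := Nat.mul_le_mul_right _ (by norm_num)
      _ ≤ n := hn
  obtain ⟨e⟩ := Function.Embedding.nonempty_of_card_le hcard
  obtain ⟨ps, hps, hinv, hfix⟩ := exists_psupp e (by omega) hsupp
  have hstart : s' ^ 2 + (d + 2) * ((s' + 1) * s' ^ 2) < h := by
    refine lt_of_lt_of_le ?_ hh1
    have h1 : s' ^ 2 * 3 ≤ s' ^ 3 := by
      calc s' ^ 2 * 3 ≤ s' ^ 2 * s' := Nat.mul_le_mul_left _ hs3
        _ = s' ^ 3 := by ring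
    have h2 : (s' + 1) * s' ^ 2 = s' ^ 3 + s' ^ 2 := by ring
    rw [h2]
    nlinarith [Nat.zero_le d, Nat.mul_le_mul_left (d + 2) h1]
  obtain ⟨F, -, hF⟩ := good_step (p := p) (w := s' ^ 2) (stp := (s' + 1) * s' ^ 2) (s := s')
    (j := d + 1) (S := ∅) (S' := ps C.out) (F := 0) le_rfl le_rfl hp1 (good_start hstart 0)
    (by simp) (hps _)
  have hval := core C e (w := s' ^ 2) (stp := (s' + 1) * s' ^ 2) (s := s') le_rfl (by positivity)
    le_rfl hp1 s t ps hps hinv hfix d C.out F hd hF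
  rw [C.out_inv, hC, hC, hh] at hval
  exact no_not_derivable e hst (derivable_of_in _ _ _ _ (hval.1 (yes_derivableIn e s t)))

end lower

end H553R2
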