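import Pool.Agent.H553R2.ReachLower
import Pool.Agent.H553R2.Upper

/-!
# Shifting the copies of arbitrary positions, and the general induction for counting circuits
-/

namespace H553R2

open Equiv

section shift

variable {p : ℕ} [Fact p.Prime] {P : Type*} [Fintype P] [DecidableEq P] {n : ℕ}

/-- shift the copies of the positions by `F` -/
def gshBase (F : P → ZMod p) : Perm (P × ZMod p) where
  toFun x := (x.1, x.2 + F x.1)
  invFun x := (x.1, x.2 - F x.1)
  left_inv x := by simp
  right_inv x := by simp

variable (e : (P × ZMod p) ↪ Fin n)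

/-- the same on the interchangeable elements -/
noncomputable def gsh (F : P → ZMod p) : Perm (Fin n) := (gshBase F).viaFintypeEmbedding e

theorem gsh_apply (F : P → ZMod p) (x : P) (a : ZMod p) :
    gsh e F (e (x, a)) = e (x, a + F x) := by
  rw [gsh, Equiv.Perm.viaFintypeEmbedding_apply_image]; rfl

theorem gsh_of_not_mem (F : P → ZMod p) {y : Fin n} (hy : y ∉ Set.range e) :
    gsh e F y = y := by
  rw [gsh, Equiv.Perm.viaFintypeEmbedding_apply_notMem_range _ _ hy]

theorem gsh_add (F G : P → ZMod p) : gsh e (F + G) = gsh e F * gsh e G := by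
  ext1 y
  rw [Perm.mul_apply]
  by_cases hy : y ∈ Set.range e
  · obtain ⟨⟨x, a⟩, rfl⟩ := hy
    rw [gsh_apply, gsh_apply, gsh_apply, Pi.add_apply]
    congr 2
    ring
  · rw [gsh_of_not_mem e _ hy, gsh_of_not_mem e _ hy, gsh_of_not_mem e _ hy]

theorem gsh_zero : gsh e (0 : P → ZMod p) = 1 := by
  ext1 y
  by_cases hy : y ∈ Set.range e
  · obtain ⟨⟨x, a⟩, rfl⟩ := hy
    rw [gsh_apply, Pi.zero_apply, add_zero]; rfl
  · rw [gsh_of_not_mem e _ hy]; rfl

theorem sign_gsh (hp : 2 < p) (F : P → ZMod p) : Perm.sign (gsh e F) = 1 := by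
  have h2 : (2 : ZMod p) ≠ 0 := by
    intro h0
    have h1 : ((2 : ℕ) : ZMod p) = 0 := by exact_mod_cast h0
    rw [ZMod.natCast_eq_zero_iff] at h1
    exact absurd (Nat.le_of_dvd (by norm_num) h1) (by omega)
  have h1 : F = (fun x => F x / 2) + fun x => F x / 2 := by
    funext x
    rw [Pi.add_apply]
    field_simp
    ring
  rw [h1, gsh_add, map_mul]
  rcases Int.units_eq_one_or (Perm.sign (gsh e fun x => F x / 2)) with h | h <;> rw [h] <;> simp

variable {M : Type*}

theorem gren_eq_inl {F : P → ZMod p} {u : Elt n M} {x : P}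
    {a : ZMod p} (hu : ren (gsh e F) u = Sum.inl (e (x, a))) :
    u = Sum.inl (e (x, a - F x)) := by
  rcases u with y | m
  · rw [ren_inl] at hu
    have h1 := Sum.inl.inj hu
    have h2 : gsh e F (e (x, a - F x)) = e (x, a) := by rw [gsh_apply, sub_add_cancel]
    rw [← h2] at h1
    rw [(gsh e F).injective h1]
  · exact absurd hu (by simp [ren])

theorem gren_eq_inr {F : P → ZMod p} {u : Elt n M} {m : M}
    (hu : ren (gsh e F) u = Sum.inr m) : u = Sum.inr m := by
  rcases u with y | m'
  · exact absurd hu (by simp [ren])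
  · exact hu

/-- Position supports -/
theorem exists_gpsupp {Q : Type*} [MulAction (Perm (Fin n)) Q] (hp : 2 < p) {s : ℕ}
    (hsupp : ∀ q : Q, ∃ S : Finset (Fin n), S.card ≤ s ∧
      ∀ π : Perm (Fin n), Perm.sign π = 1 → (∀ x ∈ S, π x = x) → π • q = q) :
    ∃ ps : Q → Finset P, (∀ q, (ps q).card ≤ s) ∧ (∀ q F, ps (gsh e F • q) = ps q) ∧
      ∀ q F, (∀ x ∈ ps q, F x = 0) → gsh e F • q = q := by
  classical
  choose S hS1 hS2 using hsupp
  let rel : Setoid Q :=
    { r := fun q q' => ∃ F : P → ZMod p, gsh e F • q = q'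
      iseqv :=
        { refl := fun q => ⟨0, by rw [gsh_zero, one_smul]⟩
          symm := by
            rintro q q' ⟨F, rfl⟩
            refine ⟨-F, ?_⟩
            rw [smul_smul, ← gsh_add, neg_add_cancel, gsh_zero, one_smul]
          trans := by
            rintro q q' q'' ⟨F, rfl⟩ ⟨G, rfl⟩
            refine ⟨G + F, ?_⟩
            rw [gsh_add, mul_smul] } }
  let rep : Q → Q := fun q => (Quotient.mk rel q).out
  have hrep : ∀ q, ∃ F : P → ZMod p, gsh e F • rep q = q := fun q => Quotient.mk_out (s := rel) q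
  let ps : Q → Finset P := fun q =>
    Finset.univ.filter fun x => ∃ a, e (x, a) ∈ S (rep q)
  refine ⟨ps, ?_, ?_, ?_⟩
  · intro q
    have h1 : ∀ x ∈ ps q, ∃ a, e (x, a) ∈ S (rep q) := fun x hx => (Finset.mem_filter.1 hx).2
    choose! a ha using h1
    have h2 : (ps q).card ≤ (S (rep q)).card := by
      apply Finset.card_le_card_of_injOn (fun x => e (x, a x))
      · intro x hx; exact ha x hx
      · intro x _ y _ hxy
        exact (Prod.mk.inj (e.injective hxy)).1
    exact h2.trans (hS1 _)
  · intro q F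
    have h1 : rep (gsh e F • q) = rep q := by
      show (Quotient.mk rel (gsh e F • q)).out = (Quotient.mk rel q).out
      congr 1
      exact Quotient.sound (s := rel) (rel.symm ⟨F, rfl⟩)
    show (Finset.univ.filter fun x => ∃ a, e (x, a) ∈ S (rep (gsh e F • q))) = _
    rw [h1]
  · intro q F hF
    obtain ⟨G, hG⟩ := hrep q
    have h1 : gsh e F • rep q = rep q := by
      apply hS2 _ _ (sign_gsh e hp F)
      intro y hy
      by_cases hy' : y ∈ Set.range e
      · obtain ⟨⟨x, a⟩, rfl⟩ := hy'
        have hx : x ∈ ps q := Finset.mem_filter.2 ⟨Finset.mem_univ _, a, hy⟩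
        rw [gsh_apply, hF x hx, add_zero]
      · exact gsh_of_not_mem e F hy'
    calc gsh e F • q = gsh e F • gsh e G • rep q := by rw [hG]
      _ = gsh e G • gsh e F • rep q := by
        rw [smul_smul, smul_smul, ← gsh_add, ← gsh_add, add_comm]
      _ = q := by rw [h1, hG]

/-- The general induction: `Good j S F` says that shifting by `F` looks right on `S` for `j` more
rounds. -/
theorem gcore {Λ Q : Type*} [Fintype Q] [MulAction (Perm (Fin n)) Q] (C : SymCircuit n M Λ Q)
    {s : ℕ} (R0 R1 : PathSystem n M) (Good : ℕ → Finset P → (P → ZMod p) → Prop)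
    (hstep : ∀ j S S' F, Good (j + 1) S F → S.card ≤ s → S'.card ≤ s →
      ∃ F' : P → ZMod p, (∀ x ∈ S, F' x = F x) ∧ Good j S' F')
    (hagr : ∀ j S F, Good j S F → ∀ u v z : Elt n M,
      (∀ x a, (u = Sum.inl (e (x, a)) ∨ v = Sum.inl (e (x, a)) ∨ z = Sum.inl (e (x, a))) →
        x ∈ S) → (R0 u v z ↔ R1 (ren (gsh e F) u) (ren (gsh e F) v) (ren (gsh e F) z)))
    (ps : Q → Finset P) (hps : ∀ q, (ps q).card ≤ s)
    (hinv : ∀ q F, ps (gsh e F • q) = ps q)
    (hfix : ∀ q F, (∀ x ∈ ps q, F x = 0) → gsh e F • q = q) :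
    ∀ (j : ℕ) (q : Q) (F : P → ZMod p), C.level q ≤ j → Good j (ps q) F →
      (C.val R0 q ↔ C.val R1 (gsh e F • q)) := by
  classical
  have hagree : ∀ q (F F' : P → ZMod p), (∀ x ∈ ps q, F' x = F x) →
      gsh e F' • q = gsh e F • q := by
    intro q F F' hF
    have h1 : F' = F + (F' - F) := by abel
    rw [h1, gsh_add, mul_smul, hfix q (F' - F)]
    intro x hx
    rw [Pi.sub_apply, hF x hx, sub_self]
  intro j
  induction j using Nat.strong_induction_on with
  | _ j ih =>
  intro q F hj hG
  rcases hin : C.input q with _ | ⟨u, v, z⟩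
  · -- a gate
    have hin' : C.input (gsh e F • q) = none := by rw [C.input_inv, hin]; rfl
    rcases Nat.eq_zero_or_pos j with hj0 | hj0
    · -- level zero: no wires
      have hno : ∀ c l, C.wire q c ≠ some l := fun c l hc => by
        have := C.level_lt _ _ _ hc; omega
      have hno' : ∀ c l, C.wire (gsh e F • q) c ≠ some l := fun c l hc => by
        apply hno ((gsh e F)⁻¹ • c) l
        rw [← C.wire_inv (gsh e F), smul_inv_smul]
        exact hc
      rw [SymCircuit.val, SymCircuit.val, hin, hin', C.gate_inv]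
      have hcount : (fun l => Nat.card {q' : {q' : Q // C.wire q q' = some l} //
            C.val R0 q'.1})
          = fun l => Nat.card {q' : {q' : Q // C.wire (gsh e F • q) q' = some l} //
            C.val R1 q'.1} := by
        funext l
        haveI : IsEmpty {q' : {q' : Q // C.wire q q' = some l} // C.val R0 q'.1} :=
          ⟨fun x => hno _ _ x.1.2⟩
        haveI : IsEmpty {q' : {q' : Q // C.wire (gsh e F • q) q' = some l} // C.val R1 q'.1} :=
          ⟨fun x => hno' _ _ x.1.2⟩
        rw [Nat.card_of_isEmpty, Nat.card_of_isEmpty]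
      simp only
      rw [hcount]
    obtain ⟨i, rfl⟩ : ∃ i, j = i + 1 := ⟨j - 1, by omega⟩
    have hstep' : ∀ S' : Finset P, S'.card ≤ s → ∃ F' : P → ZMod p,
        (∀ x ∈ ps q, F' x = F x) ∧ Good i S' F' :=
      fun S' hS' => hstep i (ps q) S' F hG (hps q) hS'
    choose! ext hext1 hext2 using hstep'
    -- the bijection
    let φ : Q → Q := fun c => gsh e (ext (ps c)) • c
    have hφ : Function.Injective φ := by
      intro c c' hcc
      have h1 : ps c = ps c' := by
        rw [← hinv c (ext (ps c)), ← hinv c' (ext (ps c'))]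
        exact congrArg ps hcc
      have h2 : gsh e (ext (ps c)) • c = gsh e (ext (ps c)) • c' := by
        have : gsh e (ext (ps c)) • c = gsh e (ext (ps c')) • c' := hcc
        rw [this, h1]
      exact MulAction.injective _ h2
    have hφb : Function.Bijective φ := Finite.injective_iff_bijective.1 hφ
    let Φ : Q ≃ Q := Equiv.ofBijective φ hφb
    have hwire : ∀ c, C.wire (gsh e F • q) (Φ c) = C.wire q c := by
      intro c
      have h1 : gsh e (ext (ps c)) • q = gsh e F • q := hagree q F _ (hext1 (ps c) (hps c))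
      show C.wire (gsh e F • q) (gsh e (ext (ps c)) • c) = _
      rw [← h1, C.wire_inv]
    rw [SymCircuit.val, SymCircuit.val, hin, hin', C.gate_inv]
    have hcount : (fun l => Nat.card {q' : {q' : Q // C.wire q q' = some l} //
          C.val R0 q'.1})
        = fun l => Nat.card {q' : {q' : Q // C.wire (gsh e F • q) q' = some l} //
          C.val R1 q'.1} := by
      funext l
      apply Nat.card_congr
      refine Equiv.subtypeEquiv (Φ.subtypeEquiv (fun c => by rw [hwire c])) ?_
      rintro ⟨c, hc⟩
      have hlt := C.level_lt _ _ _ hc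
      exact ih i (by omega) c (ext (ps c)) (by omega) (hext2 (ps c) (hps c))
    simp only
    rw [hcount]
  · have hin' : C.input (gsh e F • q)
        = some (ren (gsh e F) u, ren (gsh e F) v, ren (gsh e F) z) := by
      rw [C.input_inv, hin]; rfl
    rw [SymCircuit.val, SymCircuit.val, hin, hin']
    apply hagr j _ F hG
    intro x a hxa
    by_contra hx
    have h1 : gsh e (Pi.single x 1) • q = q := by
      apply hfix
      intro y hy
      rw [Pi.single_eq_of_ne]
      rintro rfl
      exact hx hy
    have h2 := C.input_inv (gsh e (Pi.single x 1)) q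
    rw [h1, hin] at h2
    have h3 : (u, v, z) = (ren (gsh e (Pi.single x 1)) u, ren (gsh e (Pi.single x 1)) v,
        ren (gsh e (Pi.single x 1)) z) := Option.some.inj h2
    have h4 : ∀ u : Elt n M, u = ren (gsh e (Pi.single x 1)) u → u ≠ Sum.inl (e (x, a)) := by
      intro u hu hu'
      rw [hu', ren_inl, gsh_apply] at hu
      have h5 := (Prod.mk.inj (e.injective (Sum.inl.inj hu))).2
      rw [Pi.single_eq_same] at h5
      exact one_ne_zero (add_eq_left.1 h5.symm)
    rcases hxa with hxa | hxa | hxa
    · exact h4 u (Prod.mk.inj h3).1 hxa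
    · exact h4 v (Prod.mk.inj (Prod.mk.inj h3).2).1 hxa
    · exact h4 z (Prod.mk.inj (Prod.mk.inj h3).2).2 hxa

end shift

end H553R2
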