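import Pool.Agent.H553R2.Shift
import Pool.Agent.H553R2.Rounds

/-!
# Derivability in few rounds: full binary trees and exponential lower bounds
-/

namespace H553R2

open Equiv

/-- `x` is `u` or an ancestor of `u` in the binary tree in heap order. -/
def Anc (u x : ℕ) : Prop := ∃ i, u / 2 ^ i = x

theorem anc_one {u : ℕ} (hu : 1 ≤ u) : Anc u 1 := by
  induction u using Nat.strong_induction_on with
  | _ u ih =>
    rcases Nat.lt_or_ge u 2 with h | h
    · exact ⟨0, by simp; omega⟩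
    · obtain ⟨i, hi⟩ := ih (u / 2) (by omega) (by omega)
      refine ⟨i + 1, ?_⟩
      rw [pow_succ', ← Nat.div_div_eq_div_mul, hi]

theorem anc_le {u x : ℕ} (h : Anc u x) : x ≤ u := by
  obtain ⟨i, rfl⟩ := h
  exact Nat.div_le_self _ _

theorem div_pow_lt_half {x y i j : ℕ} (hij : i < j) (h : x / 2 ^ i ≤ y) : x / 2 ^ j ≤ y / 2 := by
  obtain ⟨k, rfl⟩ : ∃ k, j = i + 1 + k := ⟨j - (i + 1), by omega⟩
  calc x / 2 ^ (i + 1 + k) = x / 2 ^ i / 2 / 2 ^ k := by
        rw [pow_add, pow_succ, Nat.div_div_eq_div_mul, Nat.div_div_eq_div_mul, mul_assoc]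
    _ ≤ x / 2 ^ i / 2 := Nat.div_le_self _ _
    _ ≤ y / 2 := Nat.div_le_div_right h

theorem anc_rule {u x : ℕ} (hx1 : 1 ≤ x) (hx : x ≠ u) :
    (Anc u x ∧ Anc u (2 * x) ∧ ¬ Anc u (2 * x + 1)) ∨
    (Anc u x ∧ ¬ Anc u (2 * x) ∧ Anc u (2 * x + 1)) ∨
    (¬ Anc u x ∧ ¬ Anc u (2 * x) ∧ ¬ Anc u (2 * x + 1)) := by
  have h1 : Anc u (2 * x) → Anc u x := by
    rintro ⟨i, hi⟩
    refine ⟨i + 1, ?_⟩
    rw [pow_succ, ← Nat.div_div_eq_div_mul, hi]; omega
  have h2 : Anc u (2 * x + 1) → Anc u x := by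
    rintro ⟨i, hi⟩
    refine ⟨i + 1, ?_⟩
    rw [pow_succ, ← Nat.div_div_eq_div_mul, hi]; omega
  have h3 : Anc u x → Anc u (2 * x) ∨ Anc u (2 * x + 1) := by
    rintro ⟨i, hi⟩
    rcases i with _ | i
    · exact absurd (by simpa using hi.symm) hx
    · rw [pow_succ, ← Nat.div_div_eq_div_mul] at hi
      rcases Nat.even_or_odd' (u / 2 ^ i) with ⟨c, hc | hc⟩
      · left; exact ⟨i, by omega⟩
      · right; exact ⟨i, by omega⟩
  have h4 : ¬ (Anc u (2 * x) ∧ Anc u (2 * x + 1)) := by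
    rintro ⟨⟨i, hi⟩, ⟨j, hj⟩⟩
    rcases Nat.lt_trichotomy i j with h | h | h
    · have := div_pow_lt_half h hi.le; omega
    · subst h; omega
    · have := div_pow_lt_half h hj.le; omega
  tauto

theorem anc_ext {u k r x : ℕ} (hr : r < 2 ^ k) (hx : ∀ i, x / 2 ^ i ≠ u) :
    Anc (u * 2 ^ k + r) x ↔ Anc u x := by
  have h0 : (u * 2 ^ k + r) / 2 ^ k = u := by
    rw [Nat.add_comm, Nat.add_mul_div_right _ _ (by positivity), Nat.div_eq_of_lt hr, Nat.zero_add]
  constructor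
  · rintro ⟨i, hi⟩
    rcases Nat.lt_or_ge i k with h | h
    · exfalso
      apply hx (k - i)
      rw [← hi, Nat.div_div_eq_div_mul, ← pow_add, Nat.add_sub_cancel' h.le, h0]
    · refine ⟨i - k, ?_⟩
      rw [← h0, Nat.div_div_eq_div_mul, ← pow_add, Nat.add_sub_cancel' h, hi]
  · rintro ⟨i, hi⟩
    refine ⟨k + i, ?_⟩
    rw [pow_add, ← Nat.div_div_eq_div_mul, h0, hi]

/-- positions: nodes of the full binary tree of height `h` in heap order -/
abbrev TPos (h : ℕ) := Fin (2 ^ (h + 1))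

/-- the root -/
def troot (h : ℕ) : TPos h := ⟨1, Nat.one_lt_two_pow (by omega)⟩

/-- the shift which moves the flaw from the root to `u` -/
def TGood (k h : ℕ) (j : ℕ) (S : Finset (TPos h)) (F : TPos h → ZMod 3) : Prop :=
  ∃ u : ℕ, 1 ≤ u ∧ u * 2 ^ (j * k) < 2 ^ h ∧
    ∀ x ∈ S, (∀ i, x.val / 2 ^ i ≠ u) ∧ (Anc u x.val → F x = 1) ∧ (¬ Anc u x.val → F x = 0)

theorem tgood_start {k h j : ℕ} (hj : j * k < h) (F : TPos h → ZMod 3) :
    TGood k h j ∅ F := by
  refine ⟨1, le_rfl, ?_, ?_⟩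
  · rw [one_mul]; exact Nat.pow_lt_pow_right (by norm_num) hj
  · intro x hx; simp at hx

theorem tgood_step {k h s : ℕ} (hs : s < 2 ^ k) (j : ℕ) (S S' : Finset (TPos h))
    (F : TPos h → ZMod 3) (hG : TGood k h (j + 1) S F) (hS' : S'.card ≤ s) :
    ∃ F' : TPos h → ZMod 3, (∀ x ∈ S, F' x = F x) ∧ TGood k h j S' F' := by
  classical
  obtain ⟨u, hu1, hu2, hx⟩ := hG
  obtain ⟨r, hr, hr'⟩ : ∃ r, r < 2 ^ k ∧ ∀ x ∈ S', ∀ i, x.val / 2 ^ i ≠ u * 2 ^ k + r := by
    by_contra hcon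
    push Not at hcon
    have h1 : ∀ r : Fin (2 ^ k), ∃ x ∈ S', ∃ i, x.val / 2 ^ i = u * 2 ^ k + r :=
      fun r => hcon r r.2
    choose g hg1 i hg2 using h1
    have hk1 : 2 ^ k ≤ u * 2 ^ k := Nat.le_mul_of_pos_left _ hu1
    have hinj : Function.Injective g := by
      intro r r' hrr
      have h2 := hg2 r
      have h3 := hg2 r'
      rw [hrr] at h2
      have h4 := r.2
      have h5 := r'.2
      rcases Nat.lt_trichotomy (i r) (i r') with h | h | h
      · have := div_pow_lt_half h h2.le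
        omega
      · rw [h] at h2
        exact Fin.ext (by omega)
      · have := div_pow_lt_half h h3.le
        omega
    have h2 : (Finset.univ.image g).card ≤ S'.card := by
      apply Finset.card_le_card
      intro x hx
      rw [Finset.mem_image] at hx
      obtain ⟨a, -, rfl⟩ := hx
      exact hg1 a
    rw [Finset.card_image_of_injective _ hinj, Finset.card_univ, Fintype.card_fin] at h2
    omega
  refine ⟨fun x => if Anc (u * 2 ^ k + r) x.val then 1 else 0, ?_, u * 2 ^ k + r, ?_, ?_, ?_⟩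
  · intro x hxS
    obtain ⟨h1, h2, h3⟩ := hx x hxS
    by_cases h : Anc u x.val
    · simp only [if_pos ((anc_ext hr h1).2 h), h2 h]
    · simp only [if_neg (fun h' => h ((anc_ext hr h1).1 h')), h3 h]
  · have : 1 ≤ 2 ^ k := Nat.one_le_two_pow
    have : 1 * 1 ≤ u * 2 ^ k := Nat.mul_le_mul hu1 this
    omega
  · -- (u 2^k + r + 1) 2^{jk} ≤ (u+1) 2^k 2^{jk}
    have h1 : (j + 1) * k = k + j * k := by ring
    rw [h1] at hu2
    have h2 : k + j * k < h := by
      by_contra hcon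
      have : 2 ^ h ≤ 2 ^ (k + j * k) := Nat.pow_le_pow_right (by norm_num) (by omega)
      have h3 : 2 ^ (k + j * k) ≤ u * 2 ^ (k + j * k) := Nat.le_mul_of_pos_left _ hu1
      omega
    obtain ⟨c, hc⟩ : ∃ c, h = (k + j * k) + c := ⟨h - (k + j * k), by omega⟩
    have h3 : u < 2 ^ c := by
      rw [hc, pow_add _ (k + j * k) c, mul_comm] at hu2
      exact Nat.lt_of_mul_lt_mul_left hu2
    calc (u * 2 ^ k + r) * 2 ^ (j * k) < (u * 2 ^ k + 2 ^ k) * 2 ^ (j * k) := by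
          apply Nat.mul_lt_mul_of_pos_right _ (by positivity)
          omega
      _ = (u + 1) * 2 ^ (k + j * k) := by rw [pow_add]; ring
      _ ≤ 2 ^ c * 2 ^ (k + j * k) := Nat.mul_le_mul_right _ h3
      _ = 2 ^ h := by rw [hc, pow_add _ (k + j * k) c, mul_comm]
  · intro x hxS
    refine ⟨hr' x hxS, fun h => by simp only [if_pos h], fun h => by simp only [if_neg h]⟩

section instances

variable {h n : ℕ} {M : Type*}

local instance : Fact (Nat.Prime 3) := ⟨Nat.prime_three⟩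

/-- The instances: `c = 0` is a yes-instance, `c = 1` a no-instance. -/
def Gt (e : (TPos h × ZMod 3) ↪ Fin n) (s t : M) (c : ZMod 3) : PathSystem n M := fun u v w =>
  (∃ (x y z : TPos h) (a b b' : ZMod 3), 1 ≤ x.val ∧ y.val = 2 * x.val ∧ z.val = 2 * x.val + 1 ∧
    a = b + b' ∧ u = Sum.inl (e (x, a)) ∧ v = Sum.inl (e (y, b)) ∧ w = Sum.inl (e (z, b'))) ∨
  (∃ x : TPos h, 2 ^ h ≤ x.val ∧ u = Sum.inl (e (x, 0)) ∧ v = Sum.inr s ∧ w = Sum.inr s) ∨
  (u = Sum.inr t ∧ v = Sum.inl (e (troot h, c)) ∧ w = Sum.inl (e (troot h, c)))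

theorem t_yes (e : (TPos h × ZMod 3) ↪ Fin n) (s t : M) :
    DerivableIn (Gt e s t 0) (Sum.inr s) (h + 2) (Sum.inr t) := by
  have key : ∀ k, k ≤ h → ∀ x : TPos h, 2 ^ (h - k) ≤ x.val →
      DerivableIn (Gt e s t 0) (Sum.inr s) (k + 1) (Sum.inl (e (x, 0))) := by
    intro k
    induction k with
    | zero =>
      intro _ x hx
      exact Or.inr ⟨Sum.inr s, Sum.inr s, Or.inr (Or.inl ⟨x, hx, rfl, rfl, rfl⟩), rfl, rfl⟩
    | succ k ih =>
      intro hk x hx
      rcases Nat.lt_or_ge x.val (2 ^ (h - k)) with hlt | hge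
      · have h0 : 2 ^ (h - k) ≤ 2 ^ h := Nat.pow_le_pow_right (by norm_num) (by omega)
        have hps : 2 ^ (h + 1) = 2 ^ h * 2 := pow_succ 2 h
        have h1 : 2 * x.val < 2 ^ (h + 1) := by omega
        have h2 : 2 * x.val + 1 < 2 ^ (h + 1) := by omega
        have h3 : 2 ^ (h - k) ≤ 2 * x.val := by
          have : h - k = (h - (k + 1)) + 1 := by omega
          rw [this, pow_succ]; omega
        have h4 : 1 ≤ x.val := le_trans Nat.one_le_two_pow hx
        refine Or.inr ⟨Sum.inl (e (⟨2 * x.val, h1⟩, 0)), Sum.inl (e (⟨2 * x.val + 1, h2⟩, 0)),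
          Or.inl ⟨x, ⟨2 * x.val, h1⟩, ⟨2 * x.val + 1, h2⟩, 0, 0, 0, h4, rfl, rfl,
            by rw [add_zero], rfl, rfl, rfl⟩, ?_, ?_⟩
        · exact ih (by omega) _ h3
        · exact ih (by omega) _ (by show _ ≤ 2 * x.val + 1; omega)
      · exact Or.inl (ih (by omega) x hge)
  have h0 := key h le_rfl (troot h) (by simp [troot])
  exact Or.inr ⟨_, _, Or.inr (Or.inr ⟨rfl, rfl, rfl⟩), h0, h0⟩

theorem t_no (e : (TPos h × ZMod 3) ↪ Fin n) {s t : M} (hst : s ≠ t) :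
    ¬ Derivable (Gt e s t 1) (Sum.inr s) (Sum.inr t) := by
  have key : ∀ u : Elt n M, Derivable (Gt e s t 1) (Sum.inr s) u →
      u = Sum.inr s ∨ ∃ x, u = Sum.inl (e (x, 0)) := by
    intro u hu
    induction hu with
    | base => exact Or.inl rfl
    | rule u v w hR _ _ ihv ihw =>
      rcases hR with ⟨x, y, z, a, b, b', -, -, -, hab, rfl, rfl, rfl⟩ | ⟨x, -, rfl, -, -⟩ |
        ⟨-, rfl, -⟩
      · right
        rcases ihv with h1 | ⟨y', h1⟩
        · exact absurd h1 (by simp)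
        rcases ihw with h2 | ⟨z', h2⟩
        · exact absurd h2 (by simp)
        have h3 := e.injective (Sum.inl.inj h1)
        have h4 := e.injective (Sum.inl.inj h2)
        refine ⟨x, ?_⟩
        rw [hab, (Prod.mk.inj h3).2, (Prod.mk.inj h4).2, add_zero]
      · exact Or.inr ⟨x, rfl⟩
      · rcases ihv with h1 | ⟨y', h1⟩
        · exact absurd h1 (by simp)
        have h3 := e.injective (Sum.inl.inj h1)
        exact absurd (Prod.mk.inj h3).2 one_ne_zero
  intro h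
  rcases key _ h with h1 | ⟨x, h1⟩
  · exact hst (Sum.inr.inj h1).symm
  · exact absurd h1 (by simp)

/-- the two instances look the same at an input gate -/
theorem t_agree (e : (TPos h × ZMod 3) ↪ Fin n) (s t : M) {k j : ℕ}
    {S : Finset (TPos h)} {F : TPos h → ZMod 3} (hG : TGood k h j S F) (u v z : Elt n M)
    (hS : ∀ x a, (u = Sum.inl (e (x, a)) ∨ v = Sum.inl (e (x, a)) ∨ z = Sum.inl (e (x, a))) →
      x ∈ S) :
    Gt e s t 0 u v z ↔ Gt e s t 1 (ren (gsh e F) u) (ren (gsh e F) v) (ren (gsh e F) z) := by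
  obtain ⟨w, hw1, hw2, hx⟩ := hG
  have hwh : w < 2 ^ h := by
    have : w ≤ w * 2 ^ (j * k) := Nat.le_mul_of_pos_right _ (by positivity)
    omega
  have hrule : ∀ x y z : TPos h, x ∈ S → y ∈ S → z ∈ S → 1 ≤ x.val → y.val = 2 * x.val →
      z.val = 2 * x.val + 1 → F x = F y + F z := by
    intro x y z hxS hyS hzS h1 h2 h3
    obtain ⟨a1, a2, a3⟩ := hx x hxS
    obtain ⟨b1, b2, b3⟩ := hx y hyS
    obtain ⟨c1, c2, c3⟩ := hx z hzS
    rw [h2] at b2 b3
    rw [h3] at c2 c3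
    have hne : x.val ≠ w := by have := a1 0; simpa using this
    rcases anc_rule h1 hne with ⟨g1, g2, g3⟩ | ⟨g1, g2, g3⟩ | ⟨g1, g2, g3⟩
    · rw [a2 g1, b2 g2, c3 g3, add_zero]
    · rw [a2 g1, b3 g2, c2 g3, zero_add]
    · rw [a3 g1, b3 g2, c3 g3, add_zero]
  have hbottom : ∀ x ∈ S, 2 ^ h ≤ x.val → F x = 0 := by
    intro x hxS hxh
    exact (hx x hxS).2.2 (fun h => by have := anc_le h; omega)
  have hapex : troot h ∈ S → F (troot h) = 1 := fun h0 => (hx _ h0).2.1 (anc_one hw1)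
  constructor
  · rintro (⟨x, y, z', a, b, b', h1, h2, h3, h5, rfl, rfl, rfl⟩ | ⟨x, h1, rfl, rfl, rfl⟩ |
      ⟨rfl, rfl, rfl⟩)
    · left
      have hr := hrule x y z' (hS x a (Or.inl rfl)) (hS y b (Or.inr (Or.inl rfl)))
        (hS z' b' (Or.inr (Or.inr rfl))) h1 h2 h3
      refine ⟨x, y, z', a + F x, b + F y, b' + F z', h1, h2, h3, ?_, ?_, ?_, ?_⟩
      · rw [h5, hr]; ring
      · rw [ren_inl, gsh_apply]
      · rw [ren_inl, gsh_apply]
      · rw [ren_inl, gsh_apply]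
    · right; left
      have hr := hbottom x (hS x 0 (Or.inl rfl)) h1
      refine ⟨x, h1, ?_, rfl, rfl⟩
      rw [ren_inl, gsh_apply, hr, add_zero]
    · right; right
      have hr := hapex (hS (troot h) 0 (Or.inr (Or.inl rfl)))
      refine ⟨rfl, ?_, ?_⟩
      · rw [ren_inl, gsh_apply, hr, zero_add]
      · rw [ren_inl, gsh_apply, hr, zero_add]
  · rintro (⟨x, y, z', a, b, b', h1, h2, h3, h5, hu, hv, hz⟩ | ⟨x, h1, hu, hv, hz⟩ |
      ⟨hu, hv, hz⟩)
    · left
      have hu' := gren_eq_inl e hu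
      have hv' := gren_eq_inl e hv
      have hz' := gren_eq_inl e hz
      have hr := hrule x y z' (hS _ _ (Or.inl hu')) (hS _ _ (Or.inr (Or.inl hv')))
        (hS _ _ (Or.inr (Or.inr hz'))) h1 h2 h3
      refine ⟨x, y, z', a - F x, b - F y, b' - F z', h1, h2, h3, ?_, hu', hv', hz'⟩
      rw [h5, hr]; ring
    · right; left
      have hu' := gren_eq_inl e hu
      have hr := hbottom x (hS _ _ (Or.inl hu')) h1
      rw [hr, sub_zero] at hu'
      exact ⟨x, h1, hu', gren_eq_inr e hv, gren_eq_inr e hz⟩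
    · right; right
      have hv' := gren_eq_inl e hv
      have hz' := gren_eq_inl e hz
      have hr := hapex (hS _ _ (Or.inr (Or.inl hv')))
      rw [hr, sub_self] at hv' hz'
      exact ⟨gren_eq_inr e hu, hv', hz'⟩

end instances

/-- **Exponential lower bound** for `r` rounds at depth `d` on `2 ^ (r + 1)` elements. -/
theorem tree_lower {n d a k r : ℕ} {M Λ Q : Type*} [Fintype Q] [MulAction (Perm (Fin n)) Q]
    (C : SymCircuit n M Λ Q) {s t : M} (hst : s ≠ t) (ha : 1 ≤ a) (hk : 2 * a + 1 < 2 ^ k)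
    (hr : (d + 1) * k + 3 ≤ r) (hn1 : 10 ^ 8 * a ^ 4 ≤ n) (hn2 : 2 ^ (r + 1) ≤ n)
    (hd : C.level C.out ≤ d)
    (hC : ∀ R, C.val R C.out ↔ DerivableIn R (Sum.inr s) r (Sum.inr t)) :
    n ^ a < Fintype.card Q := by
  classical
  haveI : Fact (Nat.Prime 3) := ⟨Nat.prime_three⟩
  by_contra hcon
  push Not at hcon
  have hsupp := exists_supp (Q := Q) ha hn1 hcon
  obtain ⟨h, hh⟩ : ∃ h, r = h + 2 := ⟨r - 2, by omega⟩
  have hcard : Fintype.card (TPos h × ZMod 3) ≤ Fintype.card (Fin n) := by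
    rw [Fintype.card_fin, Fintype.card_prod, Fintype.card_fin, ZMod.card]
    calc 2 ^ (h + 1) * 3 ≤ 2 ^ (h + 1) * 4 := Nat.mul_le_mul_left _ (by norm_num)
      _ = 2 ^ (r + 1) := by rw [hh]; ring
      _ ≤ n := hn2
  obtain ⟨e⟩ := Function.Embedding.nonempty_of_card_le hcard
  obtain ⟨ps, hps, hinv, hfix⟩ := exists_gpsupp e (by norm_num) hsupp
  obtain ⟨F, -, hF⟩ := tgood_step (k := k) (h := h) (s := 2 * a + 1) hk d ∅ (ps C.out) 0
    (tgood_start (by omega) 0) (hps _)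
  have hval := gcore e C (s := 2 * a + 1) (Gt e s t 0) (Gt e s t 1) (TGood k h)
    (fun j S S' F hG _ hS' => tgood_step hk j S S' F hG hS')
    (fun j S F hG u v z hS => t_agree e s t hG u v z hS) ps hps hinv hfix d C.out F hd hF
  rw [C.out_inv, hC, hC, hh] at hval
  exact t_no e hst (derivable_of_in _ _ _ _ (hval.1 (t_yes e s t)))

end H553R2
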