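import Mathlib

/-!
# A zero estimate for sums of few products of powers
-/

namespace H553R2

open Polynomial Matrix

section

variable {K : Type*} [Field K]

/-- the derivation `X (1 + X) d/dX` -/
noncomputable def dd : Module.End K K[X] where
  toFun f := X * (1 + X) * derivative f
  map_add' f g := by rw [derivative_add]; ring
  map_smul' c f := by
    rw [derivative_smul, RingHom.id_apply, smul_eq_C_mul, smul_eq_C_mul]; ring

theorem dd_apply (f : K[X]) : dd f = X * (1 + X) * derivative f := rfl

theorem dd_pow_succ (i : ℕ) (f : K[X]) : (dd ^ (i + 1)) f = dd ((dd ^ i) f) := by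
  rw [pow_succ']; rfl

/-- Wronskian matrix -/
noncomputable def wr {r : ℕ} (f : Fin r → K[X]) : Matrix (Fin r) (Fin r) K[X] :=
  Matrix.of fun k i => (dd ^ (i : ℕ)) (f k)

/-- one step for functions `X ^ n * v` -/
noncomputable def st (n : ℕ) (v : K[X]) : K[X] := (1 + X) * (C (n : K) * v) + X * (1 + X) * derivative v

theorem dd_X_pow_mul (n : ℕ) (v : K[X]) : dd (X ^ n * v) = X ^ n * st n v := by
  rw [dd_apply, st, derivative_mul, derivative_X_pow]
  rcases n with _ | n
  · simp
  · rw [Nat.add_sub_cancel, map_natCast]
    push_cast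
    ring

theorem dd_pow_X_pow_mul (n i : ℕ) (v : K[X]) : (dd ^ i) (X ^ n * v) = X ^ n * (st n)^[i] v := by
  induction i with
  | zero => simp
  | succ i ih => rw [dd_pow_succ, ih, dd_X_pow_mul, Function.iterate_succ_apply']

theorem eval_st (n i : ℕ) (v : K[X]) : ((st n)^[i] v).eval 0 = (n : K) ^ i * v.eval 0 := by
  induction i with
  | zero => simp
  | succ i ih =>
    rw [Function.iterate_succ_apply', st]
    simp only [eval_add, eval_mul, eval_one, eval_X, eval_C, ih]
    ring

theorem det_wr_of_inj {p : ℕ} [CharP K p] {r : ℕ} (f : Fin r → K[X])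
    (h0 : ∀ k, f k ≠ 0) (hdeg : ∀ k, (f k).natDegree < p)
    (hinj : Function.Injective fun k => (f k).natTrailingDegree) : (wr f).det ≠ 0 := by
  have hfac : ∀ k, ∃ u : K[X], f k = X ^ (f k).natTrailingDegree * u ∧ u.eval 0 ≠ 0 := by
    intro k
    obtain ⟨u, hu⟩ := Polynomial.X_pow_dvd_iff.2 (fun d hd =>
      Polynomial.coeff_eq_zero_of_lt_natTrailingDegree (p := f k) hd)
    refine ⟨u, hu, ?_⟩
    have h1 : (f k).coeff (f k).natTrailingDegree = u.coeff 0 := by
      have h2 := congrArg (fun q : K[X] => q.coeff (f k).natTrailingDegree) hu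
      rw [h2, Polynomial.coeff_X_pow_mul', if_pos le_rfl, Nat.sub_self]
    rw [← Polynomial.coeff_zero_eq_eval_zero, ← h1]
    exact Polynomial.trailingCoeff_nonzero_iff_nonzero.2 (h0 k)
  choose u hu hu0 using hfac
  set n : Fin r → ℕ := fun k => (f k).natTrailingDegree with hn
  have hw : wr f = Matrix.of fun k i => X ^ (n k) * (Matrix.of fun k (i : Fin r) => (st (n k))^[i] (u k)) k i := by
    ext1 k i
    show (dd ^ (i : ℕ)) (f k) = X ^ (n k) * (st (n k))^[i] (u k)
    conv_lhs => rw [hu k]
    exact dd_pow_X_pow_mul _ _ _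
  rw [hw, Matrix.det_mul_column]
  apply mul_ne_zero
  · exact Finset.prod_ne_zero_iff.2 fun k _ => pow_ne_zero _ X_ne_zero
  · intro hdet
    have h1 := congrArg (evalRingHom (0 : K)) hdet
    rw [RingHom.map_det, map_zero] at h1
    have h2 : (evalRingHom (0 : K)).mapMatrix (Matrix.of fun k (i : Fin r) => (st (n k))^[i] (u k))
        = Matrix.of fun k i => ((u k).eval 0) * (Matrix.vandermonde fun k => (n k : K)) k i := by
      ext k i
      simp only [RingHom.mapMatrix_apply, Matrix.map_apply, Matrix.of_apply, coe_evalRingHom,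
        Matrix.vandermonde_apply]
      rw [eval_st]; ring
    rw [h2, Matrix.det_mul_column, mul_eq_zero] at h1
    rcases h1 with h1 | h1
    · exact Finset.prod_ne_zero_iff.2 (fun k _ => hu0 k) h1
    · rw [← not_not (a := _ = _), ← ne_eq, Matrix.det_vandermonde_ne_zero_iff] at h1
      apply h1
      intro a b hab
      have ha : n a < p := lt_of_le_of_lt (Polynomial.natTrailingDegree_le_natDegree _) (hdeg a)
      have hb : n b < p := lt_of_le_of_lt (Polynomial.natTrailingDegree_le_natDegree _) (hdeg b)
      exact hinj ((CharP.natCast_injOn_Iio K p) (Set.mem_Iio.2 ha) (Set.mem_Iio.2 hb) hab)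

theorem det_wr_ne_zero {p : ℕ} [CharP K p] {r : ℕ} : ∀ (N : ℕ) (f : Fin r → K[X]),
    LinearIndependent K f → (∀ k, (f k).natDegree < p) →
    (∑ k, (p - (f k).natTrailingDegree)) = N → (wr f).det ≠ 0 := by
  intro N
  induction N using Nat.strong_induction_on with
  | _ N ih =>
  intro f hf hdeg hN
  have h0 : ∀ k, f k ≠ 0 := fun k => hf.ne_zero k
  by_cases hinj : Function.Injective fun k => (f k).natTrailingDegree
  · exact det_wr_of_inj f h0 hdeg hinj
  · rw [Function.Injective] at hinj
    push Not at hinj
    obtain ⟨a, b, hab, hne⟩ := hinj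
    set c : K := (f b).trailingCoeff / (f a).trailingCoeff with hc
    have hta : (f a).trailingCoeff ≠ 0 := Polynomial.trailingCoeff_nonzero_iff_nonzero.2 (h0 a)
    set g : Fin r → K[X] := Function.update f b (f b + (-c) • f a) with hg
    have hga : g a = f a := by rw [hg, Function.update_of_ne hne]
    have hgb : g b = f b + (-c) • f a := by rw [hg, Function.update_self]
    have hgk : ∀ k, k ≠ b → g k = f k := fun k hk => by rw [hg, Function.update_of_ne hk]
    -- independence
    have hgind : LinearIndependent K g := by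
      rw [Fintype.linearIndependent_iff]
      intro t ht
      rw [Fintype.linearIndependent_iff] at hf
      have h1 : ∑ k, (Function.update t a (t a - t b * c)) k • f k = 0 := by
        rw [← ht, ← sub_eq_zero, ← Finset.sum_sub_distrib]
        rw [Finset.sum_eq_add (a := a) (b := b) hne]
        · rw [Function.update_self, Function.update_of_ne hne.symm, hga, hgb]
          rw [sub_smul, smul_add, smul_smul]
          rw [mul_neg, neg_smul]
          abel
        · intro k _ hk
          rw [Function.update_of_ne hk.1, hgk k hk.2, sub_self]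
        · intro h; exact absurd (Finset.mem_univ _) h
        · intro h; exact absurd (Finset.mem_univ _) h
      have h2 := hf _ h1
      have hb : t b = 0 := by
        have := h2 b
        rwa [Function.update_of_ne hne.symm] at this
      intro k
      by_cases hk : k = a
      · have := h2 a
        rw [Function.update_self, hb, zero_mul, sub_zero] at this
        rw [hk, this]
      · have := h2 k
        rwa [Function.update_of_ne hk] at this
    have hgdeg : ∀ k, (g k).natDegree < p := by
      intro k
      by_cases hk : k = b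
      · rw [hk, hgb]
        refine lt_of_le_of_lt (Polynomial.natDegree_add_le _ _) (max_lt (hdeg b) ?_)
        exact lt_of_le_of_lt (Polynomial.natDegree_smul_le _ _) (hdeg a)
      · rw [hgk k hk]; exact hdeg k
    have hlt : (f b).natTrailingDegree < (g b).natTrailingDegree := by
      have hgb0 : g b ≠ 0 := hgind.ne_zero b
      by_contra hcon
      push Not at hcon
      have h1 : (g b).coeff (g b).natTrailingDegree ≠ 0 :=
        Polynomial.trailingCoeff_nonzero_iff_nonzero.2 hgb0
      apply h1
      rcases hcon.lt_or_eq with h | h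
      · rw [hgb, coeff_add, coeff_smul, ← hgb,
          Polynomial.coeff_eq_zero_of_lt_natTrailingDegree h,
          Polynomial.coeff_eq_zero_of_lt_natTrailingDegree (p := f a) (by rw [hab]; exact h)]
        simp
      · rw [h, hgb, coeff_add, coeff_smul]
        have h2 : (f b).coeff (f b).natTrailingDegree = (f b).trailingCoeff := rfl
        have h3 : (f a).coeff (f b).natTrailingDegree = (f a).trailingCoeff := by
          rw [← hab]; rfl
        rw [h2, h3, hc, smul_eq_mul, neg_mul, div_mul_cancel₀ _ hta]
        ring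
    have hsum : (∑ k, (p - (g k).natTrailingDegree)) < N := by
      rw [← hN]
      apply Finset.sum_lt_sum
      · intro k _
        by_cases hk : k = b
        · rw [hk]; omega
        · rw [hgk k hk]
      · refine ⟨b, Finset.mem_univ _, ?_⟩
        have h1 : (f b).natTrailingDegree < p :=
          lt_of_le_of_lt (Polynomial.natTrailingDegree_le_natDegree _) (hdeg b)
        omega
    have hdet : (wr g).det = (wr f).det := by
      have h1 : wr g = (wr f).updateRow b ((wr f) b + (C (-c)) • (wr f) a) := by
        ext1 k i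
        by_cases hk : k = b
        · rw [hk, Matrix.updateRow_self, Pi.add_apply, Pi.smul_apply]
          show (dd ^ (i : ℕ)) (g b) = (dd ^ (i : ℕ)) (f b) + C (-c) • (dd ^ (i : ℕ)) (f a)
          rw [hgb, map_add, map_smul, smul_eq_C_mul, smul_eq_mul]
        · rw [Matrix.updateRow_ne hk]
          show (dd ^ (i : ℕ)) (g k) = (dd ^ (i : ℕ)) (f k)
          rw [hgk k hk]
      rw [h1, Matrix.det_updateRow_add_smul_self _ hne.symm]
    rw [← hdet]
    exact ih _ hsum g hgind hgdeg rfl

/-- the polynomials `Π` with `dd ^ i (X ^ a (1 + X) ^ e) = X ^ a (1 + X) ^ e * Π` -/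
noncomputable def pp (K : Type*) [Field K] (a e : ℕ) : ℕ → K[X]
  | 0 => 1
  | i + 1 => X * (1 + X) * derivative (pp K a e i) + (C (a : K) * (1 + X) + C (e : K) * X) * pp K a e i

theorem natDegree_pp (a e i : ℕ) : (pp K a e i).natDegree ≤ i := by
  induction i with
  | zero => simp [pp]
  | succ i ih =>
    rw [pp]
    have hX : (1 + X : K[X]).natDegree ≤ 1 := by
      refine (natDegree_add_le _ _).trans ?_
      simp
    refine (natDegree_add_le _ _).trans (max_le ?_ ?_)
    · rcases Nat.eq_zero_or_pos i with h | h
      · subst h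
        simp [pp]
      · refine natDegree_mul_le.trans ?_
        have h1 : (X * (1 + X) : K[X]).natDegree ≤ 2 := by
          refine natDegree_mul_le.trans ?_
          have := natDegree_X_le (R := K)
          omega
        have h2 := natDegree_derivative_le (pp K a e i)
        omega
    · refine natDegree_mul_le.trans ?_
      have h1 : (C (a : K) * (1 + X) + C (e : K) * X).natDegree ≤ 1 := by
        refine (natDegree_add_le _ _).trans (max_le ?_ ?_)
        · exact (natDegree_C_mul_le _ _).trans hX
        · exact (natDegree_C_mul_le _ _).trans natDegree_X_le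
      omega

theorem dd_base (a e : ℕ) (v : K[X]) : dd (X ^ a * (1 + X) ^ e * v)
    = X ^ a * (1 + X) ^ e * (X * (1 + X) * derivative v + (C (a : K) * (1 + X) + C (e : K) * X) * v) := by
  rw [dd_apply, derivative_mul, derivative_mul, derivative_X_pow, derivative_pow]
  rcases a with _ | a <;> rcases e with _ | e
  · simp
  · simp only [Nat.add_sub_cancel, map_natCast, pow_zero, derivative_add, derivative_one,
      derivative_X]
    push_cast
    ring
  · simp only [Nat.add_sub_cancel, map_natCast, pow_zero]
    push_cast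
    ring
  · simp only [Nat.add_sub_cancel, map_natCast, derivative_add, derivative_one,
      derivative_X]
    push_cast
    ring

theorem dd_pow_base (a e i : ℕ) : (dd ^ i) (X ^ a * (1 + X) ^ e : K[X])
    = X ^ a * (1 + X) ^ e * pp K a e i := by
  induction i with
  | zero => simp [pp]
  | succ i ih => rw [dd_pow_succ, ih, dd_base, pp]

theorem dvd_dd {m : ℕ} {f : K[X]} (h : (1 + X) ^ m ∣ f) : (1 + X) ^ m ∣ dd f := by
  obtain ⟨q, rfl⟩ := h
  have h1 := dd_base (K := K) 0 m q
  rw [pow_zero, one_mul] at h1
  rw [h1]
  exact Dvd.intro _ rfl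

theorem dvd_dd_pow {m : ℕ} {f : K[X]} (h : (1 + X) ^ m ∣ f) (i : ℕ) :
    (1 + X) ^ m ∣ (dd ^ i) f := by
  induction i with
  | zero => simpa using h
  | succ i ih => rw [dd_pow_succ]; exact dvd_dd ih

theorem natDegree_det_pp {r : ℕ} (a e : Fin r → ℕ) :
    (Matrix.of fun (k i : Fin r) => pp K (a k) (e k) (i : ℕ)).det.natDegree ≤ r * (r - 1) := by
  rw [Matrix.det_apply]
  apply Polynomial.natDegree_sum_le_of_forall_le
  intro σ _
  have h1 : (∏ i, (Matrix.of fun (k i : Fin r) => pp K (a k) (e k) (i : ℕ)) (σ i) i).natDegree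
      ≤ r * (r - 1) := by
    refine (Polynomial.natDegree_prod_le _ _).trans ?_
    calc ∑ i : Fin r, _ ≤ ∑ i : Fin r, (r - 1) := by
          apply Finset.sum_le_sum
          intro i _
          refine (natDegree_pp _ _ _).trans ?_
          have := i.2
          omega
      _ = r * (r - 1) := by simp
  rcases Int.units_eq_one_or (Equiv.Perm.sign σ) with h | h
  · rw [h, one_smul]; exact h1
  · rw [h, Units.neg_smul, one_smul, natDegree_neg]; exact h1

/-- **Zero estimate.**  A linear combination of at most `s` products `X ^ a * (1 + X) ^ e` with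
exponents `e ≤ E`, of degree `< p`, which is divisible by `(1 + X) ^ (E + s ^ 2)`, is zero. -/
theorem zero_est {p : ℕ} [CharP K p] : ∀ (r : ℕ) (a e : Fin r → ℕ) (lam : Fin r → K) (E w : ℕ),
    (∀ k, e k ≤ E) → (∀ k, a k + e k < p) → r ^ 2 ≤ w →
    (1 + X) ^ (E + w) ∣ ∑ k, C (lam k) * (X ^ a k * (1 + X) ^ e k) →
    ∑ k, C (lam k) * (X ^ a k * (1 + X) ^ e k) = 0 := by
  intro r
  induction r with
  | zero => intro a e lam E w _ _ _ _; simp
  | succ r ih =>
  intro a e lam E w hE hp hw hdvd
  set g : Fin (r + 1) → K[X] := fun k => X ^ a k * (1 + X) ^ e k with hg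
  by_cases hind : LinearIndependent K g
  · by_contra hne
    have hlam : ∃ k0, lam k0 ≠ 0 := by
      by_contra h
      push Not at h
      apply hne
      apply Finset.sum_eq_zero
      intro k _
      rw [h k, C_0, zero_mul]
    obtain ⟨k0, hk0⟩ := hlam
    have h1X : (1 + X : K[X]) ≠ 0 := by
      intro h
      have := congrArg (fun q : K[X] => q.coeff 1) h
      simp [Polynomial.coeff_one] at this
    have hdeg : ∀ k, (g k).natDegree < p := by
      intro k
      refine lt_of_le_of_lt ?_ (hp k)
      refine natDegree_mul_le.trans ?_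
      have h1 : ((1 + X : K[X]) ^ e k).natDegree ≤ e k := by
        refine natDegree_pow_le.trans ?_
        have h2 : (1 + X : K[X]).natDegree ≤ 1 := by
          refine (natDegree_add_le _ _).trans ?_
          simp
        nlinarith
      have h2 : ((X : K[X]) ^ a k).natDegree ≤ a k := natDegree_X_pow_le _
      omega
    have hdet := det_wr_ne_zero (p := p) _ g hind hdeg rfl
    set R : K[X] := ∑ k, C (lam k) * g k with hR
    -- the updated matrix
    have hup : ((wr g).updateRow k0 (fun i : Fin (r + 1) => (dd ^ (i : ℕ)) R)).det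
        = C (lam k0) * (wr g).det := by
      have h1 : (fun i : Fin (r + 1) => (dd ^ (i : ℕ)) R) = ∑ k, (C (lam k)) • (wr g) k := by
        funext i
        rw [Finset.sum_apply, hR, map_sum]
        apply Finset.sum_congr rfl
        intro k _
        rw [Pi.smul_apply, ← smul_eq_C_mul, map_smul, smul_eq_C_mul, smul_eq_mul]
        rfl
      rw [h1, Matrix.det_updateRow_sum, smul_eq_mul]
    have hdvd' : ∀ i : ℕ, (1 + X) ^ (E + w) ∣ (dd ^ i) R := fun i => dvd_dd_pow hdvd i
    choose B hB using hdvd'
    have hfac1 : ((wr g).updateRow k0 (fun i : Fin (r + 1) => (dd ^ (i : ℕ)) R))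
        = Matrix.of fun k i => (if k = k0 then (1 + X) ^ (E + w) else (1 + X) ^ e k) *
          (Matrix.of fun (k : Fin (r + 1)) (i : Fin (r + 1)) =>
            if k = k0 then B i else X ^ a k * pp K (a k) (e k) i) k i := by
      ext1 k i
      by_cases hk : k = k0
      · subst hk
        rw [Matrix.updateRow_self]
        simp only [Matrix.of_apply, if_true]
        exact hB i
      · rw [Matrix.updateRow_ne hk]
        simp only [Matrix.of_apply, if_neg hk]
        show (dd ^ (i : ℕ)) (X ^ a k * (1 + X) ^ e k) = _
        rw [dd_pow_base]; ring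
    have hfac2 : wr g = Matrix.of fun k i => (X ^ a k * (1 + X) ^ e k) *
          (Matrix.of fun (k i : Fin (r + 1)) => pp K (a k) (e k) (i : ℕ)) k i := by
      ext1 k i
      show (dd ^ (i : ℕ)) (X ^ a k * (1 + X) ^ e k) = _
      rw [dd_pow_base]; rfl
    rw [hfac1, Matrix.det_mul_column] at hup
    have hdetP : (Matrix.of fun (k i : Fin (r + 1)) => pp K (a k) (e k) (i : ℕ)).det ≠ 0 := by
      intro h
      apply hdet
      rw [hfac2, Matrix.det_mul_column, h, mul_zero]
    set DP := (Matrix.of fun (k i : Fin (r + 1)) => pp K (a k) (e k) (i : ℕ)).det with hDP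
    set DB := (Matrix.of fun (k : Fin (r + 1)) (i : Fin (r + 1)) =>
            if k = k0 then B i else X ^ a k * pp K (a k) (e k) i).det with hDB
    have hdet2 : (wr g).det = (∏ k, (X ^ a k * (1 + X) ^ e k)) * DP := by
      rw [hfac2, Matrix.det_mul_column]
    rw [hdet2, Finset.prod_mul_distrib] at hup
    have hp1 : (∏ k, (if k = k0 then (1 + X) ^ (E + w) else (1 + X) ^ e k) : K[X])
        = (1 + X) ^ (E + w) * ∏ k ∈ Finset.univ.erase k0, (1 + X) ^ e k := by
      rw [← Finset.mul_prod_erase Finset.univ _ (Finset.mem_univ k0), if_pos rfl]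
      congr 1
      apply Finset.prod_congr rfl
      intro k hk
      rw [if_neg (Finset.ne_of_mem_erase hk)]
    have hp2 : (∏ k, (1 + X) ^ e k : K[X])
        = (1 + X) ^ e k0 * ∏ k ∈ Finset.univ.erase k0, (1 + X) ^ e k :=
      (Finset.mul_prod_erase Finset.univ _ (Finset.mem_univ k0)).symm
    rw [hp1, hp2] at hup
    set Z := ∏ k ∈ Finset.univ.erase k0, (1 + X : K[X]) ^ e k with hZ
    have hZ0 : Z ≠ 0 := Finset.prod_ne_zero_iff.2 fun k _ => pow_ne_zero _ h1X
    have hcancel : (1 + X) ^ (E + w - e k0) * DB = C (lam k0) * ((∏ k, X ^ a k) * DP) := by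
      have h3 : (1 + X) ^ e k0 * Z ≠ (0 : K[X]) := mul_ne_zero (pow_ne_zero _ h1X) hZ0
      apply mul_left_cancel₀ h3
      have h4 : E + w = e k0 + (E + w - e k0) := by have := hE k0; omega
      have h5 : (1 + X : K[X]) ^ (E + w) = (1 + X) ^ e k0 * (1 + X) ^ (E + w - e k0) := by
        rw [← pow_add, ← h4]
      rw [h5] at hup
      linear_combination hup
    have hdvd2 : (1 + X) ^ w ∣ (∏ k, X ^ a k) * DP := by
      have h6 : (1 + X : K[X]) ^ w ∣ C (lam k0) * ((∏ k, X ^ a k) * DP) := by
        rw [← hcancel]
        apply Dvd.dvd.mul_right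
        apply pow_dvd_pow
        have := hE k0
        omega
      have h7 : (∏ k, X ^ a k) * DP = C (lam k0)⁻¹ * (C (lam k0) * ((∏ k, X ^ a k) * DP)) := by
        rw [← mul_assoc, ← C_mul, inv_mul_cancel₀ hk0, C_1, one_mul]
      rw [h7]
      exact Dvd.dvd.mul_left h6 _
    have hcop : IsCoprime ((1 + X : K[X]) ^ w) (∏ k, X ^ a k) := by
      apply IsCoprime.pow_left
      apply IsCoprime.prod_right
      intro k _
      apply IsCoprime.pow_right
      exact ⟨1, -1, by ring⟩
    have hdvd3 : (1 + X) ^ w ∣ DP := hcop.dvd_of_dvd_mul_left hdvd2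
    have hlt : DP.natDegree < ((1 + X : K[X]) ^ w).natDegree := by
      have h8 : ((1 + X : K[X]) ^ w).natDegree = w := by
        rw [natDegree_pow]
        have : (1 + X : K[X]).natDegree = 1 := by
          rw [add_comm]
          exact natDegree_X_add_C (1 : K)
        rw [this, mul_one]
      rw [h8]
      refine lt_of_le_of_lt (natDegree_det_pp a e) ?_
      rw [Nat.add_sub_cancel]
      nlinarith
    exact hdetP (Polynomial.eq_zero_of_dvd_of_natDegree_lt hdvd3 hlt)
  · rw [Fintype.linearIndependent_iff] at hind
    push Not at hind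
    obtain ⟨c, hc, k0, hk0⟩ := hind
    have hsum : ∑ k, C (lam k) * g k
        = ∑ k : Fin r, C (lam (k0.succAbove k) - lam k0 * c (k0.succAbove k) / c k0) *
          g (k0.succAbove k) := by
      have h1 : ∑ k, C (lam k) * g k = ∑ k, C (lam k - lam k0 * c k / c k0) * g k := by
        have h2 : ∑ k, C (lam k0 / c k0 * c k) * g k = 0 := by
          have h3 : ∑ k, C (lam k0 / c k0 * c k) * g k = C (lam k0 / c k0) * ∑ k, c k • g k := by
            rw [Finset.mul_sum]
            apply Finset.sum_congr rfl
            intro k _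
            rw [C_mul, smul_eq_C_mul]; ring
          rw [h3, hc, mul_zero]
        rw [← sub_zero (∑ k, C (lam k) * g k), ← h2, ← Finset.sum_sub_distrib]
        apply Finset.sum_congr rfl
        intro k _
        rw [← sub_mul, ← C_sub]
        congr 3
        ring
      rw [h1, Fin.sum_univ_succAbove _ k0]
      rw [mul_div_cancel_right₀ _ hk0, sub_self, C_0, zero_mul, zero_add]
    rw [hsum] at hdvd ⊢
    refine ih (fun k => a (k0.succAbove k)) (fun k => e (k0.succAbove k)) _ E w
      (fun k => hE _) (fun k => hp _) ((Nat.pow_le_pow_left (Nat.le_succ r) 2).trans hw) hdvd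

end

end H553R2
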